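import Pool.Agent.K9h56.TC.Cor

set_option autoImplicit false
set_option linter.unusedSectionVars false
set_option linter.style.haveILetI false

/-! The choice of the parameters. -/

namespace Pool.Agent.K9h56.TC

open Finset Filter Topology Pool.Agent.K9h56.TB

lemma fl {a : ℝ} (ha : 2 ≤ a) : ((⌊Real.exp a⌋₊ : ℕ) : ℝ) ≤ Real.exp a ∧
    Real.log ((⌊Real.exp a⌋₊ : ℕ) : ℝ) ≤ a ∧ a - 1 ≤ Real.log ((⌊Real.exp a⌋₊ : ℕ) : ℝ) ∧
    2 ≤ ⌊Real.exp a⌋₊ := by
  have he : (3 : ℝ) ≤ Real.exp a := by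
    have := Real.add_one_le_exp a; linarith
  have h1 : ((⌊Real.exp a⌋₊ : ℕ) : ℝ) ≤ Real.exp a := Nat.floor_le (Real.exp_pos a).le
  have h2 : 2 ≤ ⌊Real.exp a⌋₊ := Nat.le_floor (by push_cast; linarith)
  have h3 : (0 : ℝ) < ((⌊Real.exp a⌋₊ : ℕ) : ℝ) := by exact_mod_cast (by omega : 0 < ⌊Real.exp a⌋₊)
  refine ⟨h1, ?_, ?_, h2⟩
  · rw [Real.log_le_iff_le_exp h3]; exact h1
  · rw [Real.le_log_iff_exp_le h3]
    have h4 : Real.exp a < ((⌊Real.exp a⌋₊ : ℕ) : ℝ) + 1 := Nat.lt_floor_add_one _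
    have h5 : Real.exp (a - 1) ≤ Real.exp a / 2 := by
      rw [Real.exp_sub]
      apply div_le_div_of_nonneg_left (Real.exp_pos _).le (by norm_num)
      linarith [Real.exp_one_gt_d9]
    linarith

/-- the constants -/
noncomputable def a1 : ℝ := Real.exp 9 * 160 ^ 4
noncomputable def a3 : ℝ := Real.exp 27 * 160 ^ 12
noncomputable def aw : ℝ := Real.exp 5 * 64
noncomputable def ar : ℝ := Real.exp 9 * 320 ^ 4
noncomputable def az : ℝ := 160 ^ 124
noncomputable def bb0 : ℝ := 4 * a3 + 2142 * 6336 * (aw * ar)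

lemma a1_pos : 0 < a1 := by unfold a1; positivity
lemma a3_pos : 0 < a3 := by unfold a3; positivity
lemma aw_pos : 0 < aw := by unfold aw; positivity
lemma ar_pos : 0 < ar := by unfold ar; positivity
lemma az_pos : 0 < az := by unfold az; positivity
lemma bb0_pos : 0 < bb0 := by
  unfold bb0
  have := a3_pos
  have := aw_pos
  have := ar_pos
  positivity

/-- the logarithmic average with the chosen parameters -/
theorem Lb_bound {v : ℝ} (hv : 100 ≤ v) (hc : v ^ 81 * Real.exp (-(v / 2)) ≤ 1) {N0 : ℕ}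
    (hN : ∀ w y : ℕ, N0 ≤ w → w ≤ y →
    ∏ p ∈ pr5 y, (1 + lp p) ≤ Real.exp 9 * (8 * Real.log y) ^ 4 ∧
    ∏ p ∈ pr5 y, (1 + 3 * lp p) ≤ Real.exp 27 * (8 * Real.log y) ^ 12 ∧
    ∏ p ∈ (pr5 y).filter (fun p => p ≤ w), (1 + lp p / 2) ≤ Real.exp 5 * (8 * Real.log w) ^ 2 ∧
    ∏ p ∈ (pr5 y).filter (fun p => w < p), (1 + lp p) ≤ Real.exp 9 * (8 * Real.log y / Real.log w) ^ 4 ∧
    ∏ p ∈ pr5 y, (1 + 124 / (p : ℝ)) ≤ (8 * Real.log y) ^ 124)
    (hw : N0 ≤ ⌊Real.exp (v ^ 5)⌋₊) {y : ℕ} (hy1 : Real.exp (2 * v ^ 8) ≤ y) (hy2 : (y : ℝ) ≤ Real.exp (20 * v ^ 8))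
    {R : ℕ} (hR : (R : ℝ) ≤ 2 * Real.exp (v ^ 8) * v ^ 1030) (c : ℤ) : by
    classical
    exact ∑ s ∈ (pr5 y).powerset.filter (fun s => Real.exp (v ^ 8) / v ^ 41 < md s ∧ (md s : ℝ) ≤ R ∧
        ∀ p ∈ s, ¬ (p : ℤ) ∣ c), (md s : ℝ) * Gp s c ≤ bb0 * (1 + Real.log v) * v ^ 15 := by
  classical
  have hv0 : 0 < v := by linarith
  have hv1 : 1 ≤ v := by linarith
  set L := Real.log v with hL
  have hL0 : 0 ≤ L := Real.log_nonneg hv1
  have hLv : L ≤ v := by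
    have := Real.log_le_sub_one_of_pos hv0
    linarith
  have p1 : ∀ n : ℕ, v ^ n * 100 ≤ v ^ (n + 1) := fun n => by
    rw [pow_succ]; exact mul_le_mul_of_nonneg_left hv (by positivity)
  have p5 : 100 ≤ v ^ 5 := by
    calc (100 : ℝ) ≤ v := hv
      _ = v ^ 1 := (pow_one v).symm
      _ ≤ v ^ 5 := pow_le_pow_right₀ hv1 (by norm_num)
  have p56 := p1 5
  have p67 := p1 6
  have p78 := p1 7
  norm_num at p56 p67 p78
  obtain ⟨w1, w2, w3, w4⟩ := fl (by linarith : (2 : ℝ) ≤ v ^ 5)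
  obtain ⟨s1, s2, s3, s4⟩ := fl (by linarith : (2 : ℝ) ≤ v ^ 6)
  obtain ⟨g1, g2, g3, g4⟩ := fl (by linarith : (2 : ℝ) ≤ v ^ 7)
  set w := ⌊Real.exp (v ^ 5)⌋₊ with hwdef
  set S := ⌊Real.exp (v ^ 6)⌋₊ with hSdef
  set G := ⌊Real.exp (v ^ 7)⌋₊ with hGdef
  set K : ℕ := ⌈2142 * L⌉₊ + 1 with hK
  have hKb : (K : ℝ) ≤ 2142 * L + 2 := by
    rw [hK]
    push_cast
    have := Nat.ceil_lt_add_one (by positivity : 0 ≤ 2142 * L)
    linarith
  -- the conditions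
  have hwG : w ≤ G := by
    rw [hGdef]
    apply Nat.le_floor
    refine w1.trans (Real.exp_le_exp.2 ?_)
    linarith
  have hSG : S ^ 2 ≤ G := by
    rw [hGdef]
    apply Nat.le_floor
    push_cast
    calc (S : ℝ) ^ 2 ≤ (Real.exp (v ^ 6)) ^ 2 := pow_le_pow_left₀ (Nat.cast_nonneg _) s1 2
      _ = Real.exp (2 * v ^ 6) := by rw [← Real.exp_nat_mul]; push_cast; rfl
      _ ≤ _ := Real.exp_le_exp.2 (by linarith)
  have hwy : w ≤ y := by
    have h1 : (w : ℝ) ≤ y := by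
      refine w1.trans (le_trans (Real.exp_le_exp.2 ?_) hy1)
      linarith
    exact_mod_cast h1
  have hT : (R : ℝ) ≤ 2 ^ K * (Real.exp (v ^ 8) / v ^ 41) := by
    have h1 : v ^ 1071 ≤ 2 ^ (⌈2142 * L⌉₊) := by
      have h2 : (v : ℝ) ^ 1071 = Real.exp (1071 * L) := by
        rw [hL, mul_comm, Real.exp_mul, Real.exp_log hv0]
        exact (Real.rpow_natCast v 1071).symm
      have h3 : (2 : ℝ) ^ (⌈2142 * L⌉₊) = Real.exp ((⌈2142 * L⌉₊ : ℕ) * Real.log 2) := by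
        rw [Real.exp_nat_mul, Real.exp_log (by norm_num)]
      rw [h2, h3]
      apply Real.exp_le_exp.2
      have h4 := Nat.le_ceil (2142 * L)
      have h5 := Real.log_two_gt_d9
      calc 1071 * L ≤ (2142 * L) * Real.log 2 := by nlinarith
        _ ≤ _ := mul_le_mul_of_nonneg_right h4 (by linarith)
    refine hR.trans ?_
    have h7 : (2 : ℝ) ^ K = 2 ^ (⌈2142 * L⌉₊) * 2 := by rw [hK, pow_succ]
    have h6 : (2 : ℝ) * Real.exp (v ^ 8) * v ^ 1030 = v ^ 1071 * 2 * (Real.exp (v ^ 8) / v ^ 41) := by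
      rw [show (1071 : ℕ) = 1030 + 41 by norm_num, pow_add]
      field_simp
    rw [h6, h7]
    apply mul_le_mul_of_nonneg_right _ (by positivity)
    exact mul_le_mul_of_nonneg_right h1 (by norm_num)
  have hpw : ∀ (n : ℕ) (a : ℝ), 0 < a → 0 < n → Real.log n ≤ a → (n : ℝ) ^ (1 / a) ≤ 3 := by
    intro n a ha hn h
    have hn' : (0 : ℝ) < n := by exact_mod_cast hn
    rw [Real.rpow_def_of_pos hn']
    have : Real.log n * (1 / a) ≤ 1 := by rw [mul_one_div, div_le_one ha]; exact h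
    exact (Real.exp_le_exp.2 this).trans (by linarith [Real.exp_one_lt_d9])
  have main := L_bound (pr5 y) (isPr_pr5 y) c w S G K (Real.exp (v ^ 8) / v ^ 41) R (by positivity) (by omega) g4 hwG hSG hT
    (ε1 := 1 / v ^ 5) (ε2 := 1 / v ^ 7) (by positivity) (by positivity)
    (hpw w _ (by positivity) (by omega) w2) (hpw G _ (by positivity) (by omega) g2)
  refine main.trans ?_
  obtain ⟨b1, b2, b3, b4, b5⟩ := hN w y hw hwy
  have hy0 : (0 : ℝ) < y := lt_of_lt_of_le (Real.exp_pos _) hy1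
  have hly : Real.log y ≤ 20 * v ^ 8 := by rwa [Real.log_le_iff_le_exp hy0]
  have hly0 : 0 ≤ Real.log y := Real.log_natCast_nonneg y
  have hlw : v ^ 5 / 2 ≤ Real.log w := by linarith
  have hlw0 : 0 < Real.log w := by linarith
  have hlG : v ^ 7 / 2 ≤ Real.log G := by linarith
  -- first part
  have hS0 : (0 : ℝ) < S := by exact_mod_cast (by omega : 0 < S)
  have f1 : (S : ℝ) ^ (-(1 / v ^ 5)) ≤ 3 * Real.exp (-(v / 2)) := by
    rw [Real.rpow_def_of_pos hS0]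
    have h1 : Real.log S * -(1 / v ^ 5) ≤ 1 - v / 2 := by
      have h2 : (v ^ 6 - 1) * (1 / v ^ 5) ≤ Real.log S * (1 / v ^ 5) := mul_le_mul_of_nonneg_right s3 (by positivity)
      have h3 : (v ^ 6 - 1) * (1 / v ^ 5) = v - 1 / v ^ 5 := by field_simp
      have h4 : 1 / v ^ 5 ≤ 1 := by rw [div_le_one (by positivity)]; linarith
      linarith
    calc Real.exp (Real.log S * -(1 / v ^ 5)) ≤ Real.exp (1 - v / 2) := Real.exp_le_exp.2 h1
      _ = Real.exp 1 * Real.exp (-(v / 2)) := by rw [← Real.exp_add]; congr 1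
      _ ≤ _ := mul_le_mul_of_nonneg_right (by linarith [Real.exp_one_lt_d9]) (Real.exp_pos _).le
  have f2 : (Real.exp (v ^ 8) / v ^ 41) ^ (-(1 / v ^ 7)) ≤ Real.exp (-(v / 2)) := by
    rw [Real.rpow_def_of_pos (by positivity)]
    apply Real.exp_le_exp.2
    rw [Real.log_div (Real.exp_pos _).ne' (by positivity), Real.log_exp, Real.log_pow]
    have h1 : v ^ 8 / 2 ≤ v ^ 8 - (41 : ℕ) * Real.log v := by
      push_cast
      have h2 : v * 100 ≤ v ^ 8 := by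
        have := pow_le_pow_right₀ hv1 (by norm_num : 2 ≤ 8)
        nlinarith
      rw [← hL]
      linarith
    have h3 : v ^ 8 / 2 * (1 / v ^ 7) ≤ (v ^ 8 - (41 : ℕ) * Real.log v) * (1 / v ^ 7) :=
      mul_le_mul_of_nonneg_right h1 (by positivity)
    have h4 : v ^ 8 / 2 * (1 / v ^ 7) = v / 2 := by field_simp
    linarith
  have f3 : ∏ p ∈ pr5 y, (1 + 3 * lp p) ≤ a3 * v ^ 96 := by
    refine b2.trans ?_
    unfold a3
    rw [mul_assoc]
    apply mul_le_mul_of_nonneg_left _ (Real.exp_pos _).le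
    have h1 : (8 * Real.log y) ^ 12 ≤ (8 * (20 * v ^ 8)) ^ 12 := pow_le_pow_left₀ (by positivity) (by linarith) 12
    refine h1.trans (le_of_eq ?_)
    ring
  have f4 : ∏ p ∈ (pr5 y).filter (fun p => p ≤ w), (1 + lp p / 2) ≤ aw * v ^ 10 := by
    refine b3.trans ?_
    unfold aw
    rw [mul_assoc]
    apply mul_le_mul_of_nonneg_left _ (Real.exp_pos _).le
    have h1 : (8 * Real.log w) ^ 2 ≤ (8 * v ^ 5) ^ 2 := pow_le_pow_left₀ (by positivity) (by linarith) 2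
    refine h1.trans (le_of_eq ?_)
    ring
  have f5 : ∏ p ∈ (pr5 y).filter (fun p => w < p), (1 + lp p) ≤ ar * v ^ 12 := by
    refine b4.trans ?_
    unfold ar
    rw [mul_assoc]
    apply mul_le_mul_of_nonneg_left _ (Real.exp_pos _).le
    have h0 : 8 * Real.log y / Real.log w ≤ 320 * v ^ 3 := by
      rw [div_le_iff₀ hlw0]
      have : 320 * v ^ 3 * (v ^ 5 / 2) ≤ 320 * v ^ 3 * Real.log w := mul_le_mul_of_nonneg_left hlw (by positivity)
      nlinarith [show v ^ 3 * v ^ 5 = v ^ 8 by ring]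
    have h1 : (8 * Real.log y / Real.log w) ^ 4 ≤ (320 * v ^ 3) ^ 4 := pow_le_pow_left₀ (by positivity) h0 4
    refine h1.trans (le_of_eq ?_)
    ring
  have hP3 : 0 ≤ ∏ p ∈ pr5 y, (1 + 3 * lp p) := prod_nonneg fun p _ => by have := lp_nonneg p; linarith
  have hP4 : 0 ≤ ∏ p ∈ (pr5 y).filter (fun p => p ≤ w), (1 + lp p / 2) := prod_nonneg fun p _ => by
    have := lp_nonneg p; linarith
  have hP5 : 0 ≤ ∏ p ∈ (pr5 y).filter (fun p => w < p), (1 + lp p) := prod_nonneg fun p _ => by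
    have := lp_nonneg p; linarith
  have t1 : ((S : ℝ) ^ (-(1 / v ^ 5)) + (Real.exp (v ^ 8) / v ^ 41) ^ (-(1 / v ^ 7))) * ∏ p ∈ pr5 y, (1 + 3 * lp p) ≤
      4 * a3 * ((1 + L) * v ^ 15) := by
    have h1 : (S : ℝ) ^ (-(1 / v ^ 5)) + (Real.exp (v ^ 8) / v ^ 41) ^ (-(1 / v ^ 7)) ≤ 4 * Real.exp (-(v / 2)) := by
      linarith
    calc _ ≤ 4 * Real.exp (-(v / 2)) * (a3 * v ^ 96) := mul_le_mul h1 f3 hP3 (by positivity)
      _ = 4 * a3 * ((v ^ 81 * Real.exp (-(v / 2))) * v ^ 15) := by ring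
      _ ≤ 4 * a3 * ((1 + L) * v ^ 15) := by
        have := a3_pos
        apply mul_le_mul_of_nonneg_left _ (by positivity)
        apply mul_le_mul_of_nonneg_right _ (by positivity)
        linarith
  have t2 : ((K : ℝ) + 1) * (264 / Real.log G) * 12 * (∏ p ∈ (pr5 y).filter (fun p => p ≤ w), (1 + lp p / 2)) *
        ∏ p ∈ (pr5 y).filter (fun p => w < p), (1 + lp p) ≤ 2142 * 6336 * (aw * ar) * ((1 + L) * v ^ 15) := by
    have h1 : (K : ℝ) + 1 ≤ 2142 * (1 + L) := by linarith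
    have h2 : 264 / Real.log G ≤ 528 / v ^ 7 := by
      rw [div_le_div_iff₀ (by linarith) (by positivity)]
      nlinarith
    have h3 : ((K : ℝ) + 1) * (264 / Real.log G) ≤ 2142 * (1 + L) * (528 / v ^ 7) :=
      mul_le_mul h1 h2 (div_nonneg (by norm_num) (by linarith)) (by positivity)
    have h4 : ((K : ℝ) + 1) * (264 / Real.log G) * 12 ≤ 2142 * (1 + L) * (528 / v ^ 7) * 12 :=
      mul_le_mul_of_nonneg_right h3 (by norm_num)
    have h5 : ((K : ℝ) + 1) * (264 / Real.log G) * 12 * (∏ p ∈ (pr5 y).filter (fun p => p ≤ w), (1 + lp p / 2)) ≤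
        2142 * (1 + L) * (528 / v ^ 7) * 12 * (aw * v ^ 10) := mul_le_mul h4 f4 hP4 (by positivity)
    have := aw_pos
    refine (mul_le_mul h5 f5 hP5 (by positivity)).trans (le_of_eq ?_)
    field_simp
    ring
  have e : bb0 * (1 + L) * v ^ 15 = 4 * a3 * ((1 + L) * v ^ 15) + 2142 * 6336 * (aw * ar) * ((1 + L) * v ^ 15) := by
    unfold bb0; ring
  rw [e]
  exact add_le_add t1 t2

/-- the constant of the error term -/
noncomputable def Cer : ℝ := 16 * a1 + 4400 * bb0 + 26 * (a1 * az)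

theorem asy_bound : ∀ᶠ v : ℝ in atTop, ∀ y : ℕ, Real.exp (2 * v ^ 8) ≤ y → (y : ℝ) ≤ Real.exp (20 * v ^ 8) →
    ∀ R : ℕ, Real.exp (v ^ 8) * v ^ 1030 ≤ R → (R : ℝ) ≤ 2 * Real.exp (v ^ 8) * v ^ 1030 →
    |2 * alt (pr5 y) (Real.exp (-v ^ 8)) + Mf R| ≤
      2 * Real.exp (-v ^ 8) * Mf R + Cer * (1 + Real.log v) ^ 2 * v ^ 15 := by
  obtain ⟨N0, hN03, hN⟩ := all_bounds
  have c1 : ∀ᶠ v : ℝ in atTop, v ^ 81 * Real.exp (-(v / 2)) ≤ 1 := by
    have h := (Real.tendsto_pow_mul_exp_neg_atTop_nhds_zero 81).comp (tendsto_id.atTop_div_const (by norm_num : (0 : ℝ) < 2))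
    have h2 := h.const_mul ((2 : ℝ) ^ 81)
    rw [mul_zero] at h2
    filter_upwards [h2.eventually (gt_mem_nhds (show (0 : ℝ) < 1 by norm_num))] with v hv
    simp only [Function.comp, id] at hv
    have : (2 : ℝ) ^ 81 * ((v / 2) ^ 81 * Real.exp (-(v / 2))) = v ^ 81 * Real.exp (-(v / 2)) := by
      rw [div_pow]; field_simp
    linarith
  have c2 : ∀ᶠ v : ℝ in atTop, 2 * v ^ 1030 ≤ Real.exp v := by
    have h := (Real.tendsto_pow_mul_exp_neg_atTop_nhds_zero 1030).const_mul 2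
    rw [mul_zero] at h
    filter_upwards [h.eventually (gt_mem_nhds (show (0 : ℝ) < 1 by norm_num))] with v hv
    rw [Real.exp_neg] at hv
    have hp := Real.exp_pos v
    have : 2 * v ^ 1030 / Real.exp v < 1 := by
      calc _ = 2 * (v ^ 1030 * (Real.exp v)⁻¹) := by ring
        _ < 1 := hv
    rw [div_lt_one hp] at this
    exact this.le
  filter_upwards [c1, c2, eventually_ge_atTop (100 : ℝ), eventually_ge_atTop (N0 : ℝ)] with v hc1 hc2 hv hvN
  intro y hy1 hy2 R hR1 hR2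
  have hv0 : 0 < v := by linarith
  have hv1 : 1 ≤ v := by linarith
  set L := Real.log v with hL
  have hL0 : 0 ≤ L := Real.log_nonneg hv1
  have hvv : ∀ n : ℕ, v ≤ v ^ (n + 1) := fun n => by
    calc v = v ^ 1 := (pow_one v).symm
      _ ≤ _ := pow_le_pow_right₀ hv1 (by omega)
  have hw : N0 ≤ ⌊Real.exp (v ^ 5)⌋₊ := by
    apply Nat.le_floor
    have h1 := Real.add_one_le_exp (v ^ 5)
    have h2 : v ≤ v ^ 5 := hvv 4
    linarith
  have hRy : R ≤ y := by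
    have h1 : (R : ℝ) ≤ y := by
      calc (R : ℝ) ≤ 2 * Real.exp (v ^ 8) * v ^ 1030 := hR2
        _ = Real.exp (v ^ 8) * (2 * v ^ 1030) := by ring
        _ ≤ Real.exp (v ^ 8) * Real.exp (v ^ 8) :=
            mul_le_mul_of_nonneg_left (hc2.trans (Real.exp_le_exp.2 (hvv 7))) (Real.exp_pos _).le
        _ = Real.exp (2 * v ^ 8) := by rw [← Real.exp_add]; congr 1; ring
        _ ≤ y := hy1
    exact_mod_cast h1
  set θ := Real.exp (-v ^ 8) with hθ
  have hθ0 : 0 < θ := Real.exp_pos _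
  have hθ2 : θ ≤ 1 / 2 := by
    rw [hθ, Real.exp_neg, ← one_div]
    apply one_div_le_one_div_of_le (by norm_num)
    have h1 := Real.add_one_le_exp (v ^ 8)
    have h2 : v ≤ v ^ 8 := hvv 7
    linarith
  have hθe : θ * Real.exp (v ^ 8) = 1 := by rw [hθ, ← Real.exp_add, neg_add_cancel, Real.exp_zero]
  have hR0 : 0 < (R : ℝ) := lt_of_lt_of_le (by positivity) hR1
  -- the far bound
  set c0 : ℕ := ⌈v ^ 1100⌉₊ with hc0
  have hc01 : 1 ≤ c0 := Nat.one_le_iff_ne_zero.2 (by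
    intro h
    have := Nat.le_ceil (v ^ 1100)
    rw [← hc0, h] at this
    have h2 : 0 < v ^ 1100 := by positivity
    push_cast at this
    linarith)
  have hc0a : v ^ 1100 ≤ (c0 : ℝ) := Nat.le_ceil _
  have hc0b : (c0 : ℝ) ≤ 2 * v ^ 1100 := by
    have := Nat.ceil_lt_add_one (by positivity : 0 ≤ v ^ 1100)
    have h2 : 1 ≤ v ^ 1100 := one_le_pow₀ hv1
    rw [← hc0] at this
    linarith
  have hlc0 : 1 + Real.log c0 ≤ 1100 * (1 + L) := by
    have h0 : (0 : ℝ) < c0 := lt_of_lt_of_le (by positivity) hc0a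
    have h1 := Real.log_le_log h0 hc0b
    rw [Real.log_mul (by norm_num) (by positivity), Real.log_pow] at h1
    push_cast at h1
    have h2 := Real.log_two_lt_d9
    rw [← hL] at h1
    linarith
  have hLbd : ∀ c : ℤ, by
      classical
      exact ∑ s ∈ (pr5 y).powerset.filter (fun s => Real.exp (v ^ 8) / v ^ 41 < md s ∧ (md s : ℝ) ≤ R ∧
        ∀ p ∈ s, ¬ (p : ℤ) ∣ c), (md s : ℝ) * Gp s c ≤ bb0 * (1 + L) * v ^ 15 :=
    fun c => Lb_bound hv hc1 hN hw hy1 hy2 hR2 c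
  have hbb := bb0_pos
  have htt := tiny_total (pr5 y) c0 hc01 (θ := θ) (T1 := Real.exp (v ^ 8) / v ^ 41) (T2 := R)
    (Lb := bb0 * (1 + L) * v ^ 15) hθ0 hR0.le (by positivity) hLbd
  have hcore := (core (pr5 y) (isPr_pr5 y) hθ0 hθ2 hR0 htt).2
  rw [main_sum hRy] at hcore
  refine hcore.trans ?_
  -- the bounds
  have hwy : ⌊Real.exp (v ^ 5)⌋₊ ≤ y := by
    have h1 : ((⌊Real.exp (v ^ 5)⌋₊ : ℕ) : ℝ) ≤ y := by
      refine (Nat.floor_le (Real.exp_pos _).le).trans (le_trans (Real.exp_le_exp.2 ?_) hy1)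
      have := pow_le_pow_right₀ hv1 (by norm_num : 5 ≤ 8)
      have : 0 ≤ v ^ 8 := by positivity
      linarith
    exact_mod_cast h1
  obtain ⟨b1, b2, b3, b4, b5⟩ := hN _ y hw hwy
  have hy0 : (0 : ℝ) < y := lt_of_lt_of_le (Real.exp_pos _) hy1
  have hly : Real.log y ≤ 20 * v ^ 8 := by rwa [Real.log_le_iff_le_exp hy0]
  have hly0 : 0 ≤ Real.log y := Real.log_natCast_nonneg y
  have f1 : ∏ p ∈ pr5 y, (1 + lp p) ≤ a1 * v ^ 32 := by
    refine b1.trans ?_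
    unfold a1
    rw [mul_assoc]
    apply mul_le_mul_of_nonneg_left _ (Real.exp_pos _).le
    have h1 : (8 * Real.log y) ^ 4 ≤ (8 * (20 * v ^ 8)) ^ 4 := pow_le_pow_left₀ (by positivity) (by linarith) 4
    refine h1.trans (le_of_eq ?_)
    ring
  have f2 : ∏ p ∈ pr5 y, (1 + 124 / (p : ℝ)) ≤ az * v ^ 992 := by
    refine b5.trans ?_
    unfold az
    have h1 : (8 * Real.log y) ^ 124 ≤ (8 * (20 * v ^ 8)) ^ 124 := pow_le_pow_left₀ (by positivity) (by linarith) 124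
    refine h1.trans (le_of_eq ?_)
    rw [show (8 * (20 * v ^ 8) : ℝ) = 160 * v ^ 8 by ring, mul_pow, ← pow_mul]
  have hP1 : 0 ≤ ∏ p ∈ pr5 y, (1 + lp p) := prod_nonneg fun p _ => by have := lp_nonneg p; linarith
  have hP2 : 0 ≤ ∏ p ∈ pr5 y, (1 + 124 / (p : ℝ)) := prod_nonneg fun p _ => by positivity
  have ha1 := a1_pos
  have haz := az_pos
  have hLL : 1 ≤ (1 + L) ^ 2 * v ^ 15 := by
    have h1 : 1 ≤ (1 + L) ^ 2 := one_le_pow₀ (by linarith)
    have h2 : 1 ≤ v ^ 15 := one_le_pow₀ hv1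
    nlinarith
  -- the first piece
  have q1 : 8 * θ * |Real.exp (v ^ 8) / v ^ 41| + 4 * θ / c0 * R ≤ 16 / v ^ 32 := by
    rw [abs_of_pos (by positivity)]
    have h1 : 8 * θ * (Real.exp (v ^ 8) / v ^ 41) = 8 / v ^ 41 := by
      calc _ = 8 * (θ * Real.exp (v ^ 8)) / v ^ 41 := by ring
        _ = _ := by rw [hθe]; ring
    have h2 : 4 * θ / c0 * R ≤ 8 / v ^ 70 := by
      calc 4 * θ / c0 * R ≤ 4 * θ / v ^ 1100 * (2 * Real.exp (v ^ 8) * v ^ 1030) := by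
            apply mul_le_mul _ hR2 hR0.le (by positivity)
            exact div_le_div_of_nonneg_left (by positivity) (by positivity) hc0a
        _ = 8 * (θ * Real.exp (v ^ 8)) * v ^ 1030 / v ^ 1100 := by ring
        _ = 8 / v ^ 70 := by
          rw [hθe, show (1100 : ℕ) = 1030 + 70 by norm_num, pow_add]
          field_simp
    have h3 : 8 / v ^ 41 ≤ 8 / v ^ 32 :=
      div_le_div_of_nonneg_left (by norm_num) (by positivity) (pow_le_pow_right₀ hv1 (by norm_num))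
    have h4 : 8 / v ^ 70 ≤ 8 / v ^ 32 :=
      div_le_div_of_nonneg_left (by norm_num) (by positivity) (pow_le_pow_right₀ hv1 (by norm_num))
    have h5 : 16 / v ^ 32 = 8 / v ^ 32 + 8 / v ^ 32 := by ring
    rw [h1, h5]
    linarith
  have q2 : (8 * θ * |Real.exp (v ^ 8) / v ^ 41| + 4 * θ / c0 * R) * ∏ p ∈ pr5 y, (1 + lp p) ≤ 16 * a1 := by
    calc _ ≤ 16 / v ^ 32 * (a1 * v ^ 32) := mul_le_mul q1 f1 hP1 (by positivity)
      _ = _ := by field_simp
  have q3 : 4 * (1 + Real.log c0) * (bb0 * (1 + L) * v ^ 15) ≤ 4400 * bb0 * ((1 + L) ^ 2 * v ^ 15) := by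
    calc _ ≤ 4 * (1100 * (1 + L)) * (bb0 * (1 + L) * v ^ 15) := by
          apply mul_le_mul_of_nonneg_right _ (by positivity)
          linarith
      _ = _ := by ring
  have h13 : 0 ≤ 13 * (a1 * az) := mul_nonneg (by norm_num) (mul_pos ha1 haz).le
  have q4 : 13 / (θ * R) * (∏ p ∈ pr5 y, (1 + lp p)) * ∏ p ∈ pr5 y, (1 + 124 / (p : ℝ)) ≤ 13 * (a1 * az) := by
    have h1 : 13 / (θ * R) ≤ 13 / v ^ 1030 := by
      apply div_le_div_of_nonneg_left (by norm_num) (by positivity)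
      calc v ^ 1030 = θ * Real.exp (v ^ 8) * v ^ 1030 := by rw [hθe, one_mul]
        _ = θ * (Real.exp (v ^ 8) * v ^ 1030) := by ring
        _ ≤ _ := mul_le_mul_of_nonneg_left hR1 hθ0.le
    calc _ ≤ 13 / v ^ 1030 * (a1 * v ^ 32) * (az * v ^ 992) := by
          apply mul_le_mul _ f2 hP2 (by positivity)
          exact mul_le_mul h1 f1 hP1 (by positivity)
      _ = 13 * (a1 * az) * (v ^ 1024 / v ^ 1030) := by
        rw [show (1024 : ℕ) = 32 + 992 by norm_num, pow_add]; ring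
      _ ≤ 13 * (a1 * az) * 1 := by
        apply mul_le_mul_of_nonneg_left _ h13
        rw [div_le_one (by positivity)]
        exact pow_le_pow_right₀ hv1 (by norm_num)
      _ = _ := mul_one _
  have e : Cer * (1 + L) ^ 2 * v ^ 15 = 16 * a1 * ((1 + L) ^ 2 * v ^ 15) + 4400 * bb0 * ((1 + L) ^ 2 * v ^ 15) +
      2 * (13 * (a1 * az) * ((1 + L) ^ 2 * v ^ 15)) := by
    unfold Cer; ring
  rw [e]
  have r1 : 16 * a1 * 1 ≤ 16 * a1 * ((1 + L) ^ 2 * v ^ 15) := mul_le_mul_of_nonneg_left hLL (by positivity)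
  have r2 : 13 * (a1 * az) * 1 ≤ 13 * (a1 * az) * ((1 + L) ^ 2 * v ^ 15) := mul_le_mul_of_nonneg_left hLL h13
  linarith

end Pool.Agent.K9h56.TC
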