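import Pool.Agent.K9h56.TC.Cst

set_option autoImplicit false
set_option linter.unusedSectionVars false
set_option linter.style.haveILetI false

/-! Bounds for products over primes and the main sum. -/

namespace Pool.Agent.K9h56.TC

open Finset Filter Topology Pool.Agent.K9h56.TB

lemma mem_pr5 {p z : ℕ} : p ∈ pr5 z ↔ (5 ≤ p ∧ p ≤ z) ∧ p.Prime := by
  unfold pr5; rw [mem_filter, mem_Icc]

lemma Vn_bounds : ∀ᶠ N : ℕ in atTop, Vn N ≤ 8 * Real.log N ∧
    Real.exp Real.eulerMascheroniConstant / 2 * Real.log N ≤ Vn N ∧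
    Vn N ≤ 2 * Real.exp Real.eulerMascheroniConstant * Real.log N := by
  have hE := Real.exp_pos Real.eulerMascheroniConstant
  have h1 := Vn_tendsto.eventually (lt_mem_nhds (show Real.exp Real.eulerMascheroniConstant / 2 <
    Real.exp Real.eulerMascheroniConstant by linarith))
  have h2 := Vn_tendsto.eventually (gt_mem_nhds (show Real.exp Real.eulerMascheroniConstant <
    2 * Real.exp Real.eulerMascheroniConstant by linarith))
  filter_upwards [h1, h2, eventually_ge_atTop 2] with N a1 a2 hN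
  have hl : 0 < Real.log N := Real.log_pos (by exact_mod_cast hN)
  rw [lt_div_iff₀ hl] at a1
  rw [div_lt_iff₀ hl] at a2
  have hg : Real.exp Real.eulerMascheroniConstant ≤ 3 := by
    have h3 : Real.eulerMascheroniConstant < 1 := by
      have := Real.eulerMascheroniConstant_lt_two_thirds
      linarith
    have h4 := Real.exp_lt_exp.2 h3
    linarith [Real.exp_one_lt_d9]
  refine ⟨?_, a1.le, a2.le⟩
  nlinarith

lemma exp_inv_le {p : ℕ} (hp : p.Prime) : Real.exp (1 / (p : ℝ)) ≤ (1 - (p : ℝ)⁻¹)⁻¹ := by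
  have h1 := one_sub_inv_pos hp
  rw [le_inv_comm₀ (Real.exp_pos _) h1, ← Real.exp_neg]
  have := Real.add_one_le_exp (-(1 / (p : ℝ)))
  rw [one_div] at this ⊢
  linarith

lemma one_le_fac {p : ℕ} (hp : p.Prime) : 1 ≤ (1 - (p : ℝ)⁻¹)⁻¹ := by
  refine le_trans ?_ (exp_inv_le hp)
  rw [Real.one_le_exp_iff]
  positivity

lemma pb1 (y : ℕ) : ∏ p ∈ pr5 y, Real.exp (1 / (p : ℝ)) ≤ Vn y := by
  calc ∏ p ∈ pr5 y, Real.exp (1 / (p : ℝ)) ≤ ∏ p ∈ pr5 y, (1 - (p : ℝ)⁻¹)⁻¹ := by
        apply Finset.prod_le_prod (fun p _ => (Real.exp_pos _).le)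
        intro p hp
        exact exp_inv_le (mem_pr5.1 hp).2
    _ ≤ Vn y := by
        unfold Vn
        apply Finset.prod_le_prod_of_subset_of_one_le
        · intro p hp
          rw [mem_pr5] at hp
          rw [mem_filter, mem_Icc]
          exact ⟨⟨by omega, hp.1.2⟩, hp.2⟩
        · intro p hp
          exact le_trans zero_le_one (one_le_fac (mem_pr5.1 hp).2)
        · intro p hp _
          exact one_le_fac (mem_filter.1 hp).2

lemma pb2 {w y : ℕ} (hwy : w ≤ y) : ∏ p ∈ (pr5 y).filter (fun p => w < p), Real.exp (1 / (p : ℝ)) ≤ Vn y / Vn w := by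
  have e : Vn y = Vn w * ∏ p ∈ ((Icc 1 y).filter Nat.Prime).filter (fun p => w < p), (1 - (p : ℝ)⁻¹)⁻¹ := by
    have h1 := prod_filter_mul_prod_filter_not ((Icc 1 y).filter Nat.Prime) (fun p => w < p)
      (fun p => (1 - (p : ℝ)⁻¹)⁻¹)
    have h2 : ((Icc 1 y).filter Nat.Prime).filter (fun p => ¬ w < p) = (Icc 1 w).filter Nat.Prime := by
      ext p
      simp only [mem_filter, mem_Icc]
      constructor
      · rintro ⟨⟨h1, h2⟩, h3⟩; exact ⟨⟨h1.1, by omega⟩, h2⟩
      · rintro ⟨h1, h2⟩; exact ⟨⟨⟨h1.1, by omega⟩, h2⟩, by omega⟩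
    rw [h2] at h1
    unfold Vn
    rw [← h1, mul_comm]
  have hw := Vn_pos w
  rw [e, mul_div_cancel_left₀ _ hw.ne']
  calc ∏ p ∈ (pr5 y).filter (fun p => w < p), Real.exp (1 / (p : ℝ)) ≤
      ∏ p ∈ (pr5 y).filter (fun p => w < p), (1 - (p : ℝ)⁻¹)⁻¹ := by
        apply Finset.prod_le_prod (fun p _ => (Real.exp_pos _).le)
        intro p hp
        exact exp_inv_le (mem_pr5.1 (mem_filter.1 hp).1).2
    _ ≤ _ := by
        apply Finset.prod_le_prod_of_subset_of_one_le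
        · intro p hp
          rw [mem_filter, mem_pr5] at hp
          rw [mem_filter, mem_filter, mem_Icc]
          exact ⟨⟨⟨by omega, hp.1.1.2⟩, hp.1.2⟩, hp.2⟩
        · intro p hp
          exact le_trans zero_le_one (one_le_fac (mem_pr5.1 (mem_filter.1 hp).1).2)
        · intro p hp _
          exact one_le_fac (mem_filter.1 (mem_filter.1 hp).1).2

lemma lp_le2 {p : ℕ} (h5 : 5 ≤ p) : lp p ≤ 4 * (1 / (p : ℝ)) + 36 * (1 / (p : ℝ) ^ 2) := by
  have h : (5 : ℝ) ≤ p := by exact_mod_cast h5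
  unfold lp
  have h2 : 0 < (p : ℝ) - 2 := by linarith
  have e : 4 * (1 / (p : ℝ)) + 36 * (1 / (p : ℝ) ^ 2) = (4 * p + 36) / (p : ℝ) ^ 2 := by
    field_simp
  rw [e, div_le_div_iff₀ (by positivity) (by positivity)]
  nlinarith [mul_nonneg (by linarith : 0 ≤ (p : ℝ) - 5) (by linarith : 0 ≤ (p : ℝ) - 5)]

/-- products of the form `1 + a·lp` -/
lemma prod_lp {A : Finset ℕ} {y : ℕ} (hA : A ⊆ pr5 y) {a : ℝ} (ha : 0 ≤ a) {V : ℝ}
    (hV : ∏ p ∈ A, Real.exp (1 / (p : ℝ)) ≤ V) (_hV0 : 0 < V) (k : ℕ) (hk : 4 * a = k) :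
    ∏ p ∈ A, (1 + a * lp p) ≤ Real.exp (9 * a) * V ^ k := by
  have hA5 : ∀ p ∈ A, 5 ≤ p ∧ p ≤ y := fun p hp => (mem_pr5.1 (hA hp)).1
  have h1 : ∏ p ∈ A, (1 + a * lp p) ≤ ∏ p ∈ A, (Real.exp (1 / (p : ℝ)) ^ k * Real.exp (36 * a * (1 / (p : ℝ) ^ 2))) := by
    apply Finset.prod_le_prod
    · intro p _
      have := lp_nonneg p
      positivity
    · intro p hp
      have h2 := mul_le_mul_of_nonneg_left (lp_le2 (hA5 p hp).1) ha
      rw [← Real.exp_nat_mul, ← Real.exp_add]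
      refine le_trans ?_ (Real.add_one_le_exp _)
      have h3 : (k : ℝ) * (1 / (p : ℝ)) = a * (4 * (1 / (p : ℝ))) := by rw [← hk]; ring
      rw [h3]
      linarith
  refine h1.trans ?_
  have e9 : ∏ p ∈ A, Real.exp (36 * a * (1 / (p : ℝ) ^ 2)) = Real.exp (36 * a * ∑ p ∈ A, 1 / (p : ℝ) ^ 2) := by
    rw [mul_sum, Real.exp_sum]
  rw [prod_mul_distrib, prod_pow, e9, mul_comm]
  have h2 : ∑ p ∈ A, 1 / (p : ℝ) ^ 2 ≤ 1 / 4 := by
    have h3 := sum_inv_sq 4 y (by norm_num)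
    refine le_trans ?_ h3
    apply sum_le_sum_of_subset_of_nonneg
    · intro p hp
      rw [mem_Ioc]
      have := hA5 p hp
      omega
    · intro p _ _; positivity
  have h4 : 0 ≤ ∏ p ∈ A, Real.exp (1 / (p : ℝ)) := prod_nonneg fun p _ => (Real.exp_pos _).le
  apply mul_le_mul
  · apply Real.exp_le_exp.2
    have := mul_le_mul_of_nonneg_left h2 (by positivity : 0 ≤ 36 * a)
    linarith
  · exact pow_le_pow_left₀ h4 hV k
  · exact pow_nonneg h4 k
  · exact (Real.exp_pos _).le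

/-- products of the form `1 + k/p` -/
lemma prod_inv {A : Finset ℕ} {V : ℝ} (hV : ∏ p ∈ A, Real.exp (1 / (p : ℝ)) ≤ V) (k : ℕ) :
    ∏ p ∈ A, (1 + (k : ℝ) / (p : ℝ)) ≤ V ^ k := by
  have h4 : 0 ≤ ∏ p ∈ A, Real.exp (1 / (p : ℝ)) := prod_nonneg fun p _ => (Real.exp_pos _).le
  refine le_trans ?_ (pow_le_pow_left₀ h4 hV k)
  rw [← prod_pow]
  apply Finset.prod_le_prod
  · intro p _; positivity
  · intro p _
    rw [← Real.exp_nat_mul]
    have := Real.add_one_le_exp ((k : ℝ) * (1 / p))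
    have e : (k : ℝ) * (1 / p) = (k : ℝ) / p := by ring
    rw [e] at this ⊢
    linarith

lemma filter_le_pr5 {w y : ℕ} (hwy : w ≤ y) : (pr5 y).filter (fun p => p ≤ w) = pr5 w := by
  ext p
  rw [mem_filter, mem_pr5, mem_pr5]
  constructor
  · rintro ⟨h1, h2⟩; exact ⟨⟨h1.1.1, h2⟩, h1.2⟩
  · rintro ⟨h1, h2⟩; exact ⟨⟨⟨h1.1, by omega⟩, h2⟩, h1.2⟩

/-- all the bounds -/
theorem all_bounds : ∃ N0 : ℕ, 3 ≤ N0 ∧ ∀ w y : ℕ, N0 ≤ w → w ≤ y →
    ∏ p ∈ pr5 y, (1 + lp p) ≤ Real.exp 9 * (8 * Real.log y) ^ 4 ∧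
    ∏ p ∈ pr5 y, (1 + 3 * lp p) ≤ Real.exp 27 * (8 * Real.log y) ^ 12 ∧
    ∏ p ∈ (pr5 y).filter (fun p => p ≤ w), (1 + lp p / 2) ≤ Real.exp 5 * (8 * Real.log w) ^ 2 ∧
    ∏ p ∈ (pr5 y).filter (fun p => w < p), (1 + lp p) ≤ Real.exp 9 * (8 * Real.log y / Real.log w) ^ 4 ∧
    ∏ p ∈ pr5 y, (1 + 124 / (p : ℝ)) ≤ (8 * Real.log y) ^ 124 := by
  obtain ⟨N1, hN1⟩ := eventually_atTop.1 Vn_bounds
  refine ⟨max N1 3, le_max_right _ _, ?_⟩
  intro w y hw hwy
  have b1 := hN1 w ((le_max_left _ _).trans hw)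
  have b2 := hN1 y ((le_max_left _ _).trans (hw.trans hwy))
  have hw3 : 3 ≤ w := (le_max_right _ _).trans hw
  have hlw : 0 < Real.log w := Real.log_pos (by exact_mod_cast (by omega : 1 < w))
  have hly : 0 < Real.log y := Real.log_pos (by exact_mod_cast (by omega : 1 < y))
  have v1 := (pb1 y).trans b2.1
  have v2 := (pb1 w).trans b1.1
  have hE := Real.exp_pos Real.eulerMascheroniConstant
  have v3 : ∏ p ∈ (pr5 y).filter (fun p => w < p), Real.exp (1 / (p : ℝ)) ≤ 8 * Real.log y / Real.log w := by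
    refine (pb2 hwy).trans ?_
    rw [div_le_div_iff₀ (Vn_pos w) hlw]
    have h1 := mul_le_mul_of_nonneg_right b2.2.2 hlw.le
    have h2 := mul_le_mul_of_nonneg_left b1.2.1 (by positivity : 0 ≤ 4 * Real.log y)
    calc Vn y * Real.log w ≤ 2 * Real.exp Real.eulerMascheroniConstant * Real.log y * Real.log w := h1
      _ = 4 * Real.log y * (Real.exp Real.eulerMascheroniConstant / 2 * Real.log w) := by ring
      _ ≤ 4 * Real.log y * Vn w := h2
      _ ≤ _ := by
        have := Vn_pos w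
        nlinarith [mul_pos hly this]
  refine ⟨?_, ?_, ?_, ?_, ?_⟩
  · have := prod_lp (Finset.Subset.refl (pr5 y)) (a := 1) (by norm_num) v1 (by positivity) 4 (by norm_num)
    simpa using this
  · have := prod_lp (Finset.Subset.refl (pr5 y)) (a := 3) (by norm_num) v1 (by positivity) 12 (by norm_num)
    norm_num at this ⊢
    exact this
  · rw [filter_le_pr5 hwy]
    have := prod_lp (Finset.Subset.refl (pr5 w)) (a := 1 / 2) (by norm_num) v2 (by positivity) 2 (by norm_num)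
    calc ∏ p ∈ pr5 w, (1 + lp p / 2) = ∏ p ∈ pr5 w, (1 + 1 / 2 * lp p) := by
          apply prod_congr rfl; intro p _; ring
      _ ≤ _ := this
      _ ≤ _ := by
        apply mul_le_mul_of_nonneg_right _ (by positivity)
        apply Real.exp_le_exp.2
        norm_num
  · have := prod_lp (filter_subset (fun p => w < p) (pr5 y)) (a := 1) (by norm_num) v3 (by positivity) 4 (by norm_num)
    simpa using this
  · have := prod_inv v1 124
    simpa using this

/-- the main sum as a sum over integers -/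
theorem main_sum {R y : ℕ} (hRy : R ≤ y) :
    ∑ s ∈ (pr5 y).powerset.filter (fun s => (md s : ℝ) ≤ R), cs s 0 = Mf R := by
  have hfp : ∀ s ∈ (pr5 y).powerset, cs s 0 = ∏ p ∈ s, (fp p / p) := by
    intro s hs
    unfold cs
    apply prod_congr rfl
    intro p hp
    have h5 := (mem_pr5.1 (mem_powerset.1 hs hp)).1.1
    have h5' : (5 : ℝ) ≤ p := by exact_mod_cast h5
    unfold cp nu fp
    rw [if_pos (dvd_zero p), if_pos h5]
    have h2 : (p : ℝ) - 2 ≠ 0 := by linarith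
    have h3 : (p : ℝ) ≠ 0 := by linarith
    have h4 : 1 - 2 / (p : ℝ) ≠ 0 := by
      rw [one_sub_div h3]; exact div_ne_zero h2 h3
    push_cast
    field_simp
    ring
  have hprime : ∀ s ∈ (pr5 y).powerset, (md s).primeFactors = s := by
    intro s hs
    unfold md
    exact Nat.primeFactors_prod (fun p hp => (mem_pr5.1 (mem_powerset.1 hs hp)).2)
  have hsq : ∀ s ∈ (pr5 y).powerset, Squarefree (md s) := by
    intro s hs
    unfold md
    refine Finset.squarefree_prod_of_pairwise_isCoprime (fun p hp q hq hpq => ?_) (fun p hp => ?_)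
    · have h1 := (mem_pr5.1 (mem_powerset.1 hs hp)).2
      have h2 := (mem_pr5.1 (mem_powerset.1 hs hq)).2
      exact Nat.coprime_iff_isRelPrime.1 ((Nat.coprime_primes h1 h2).2 hpq)
    · exact (mem_pr5.1 (mem_powerset.1 hs hp)).2.squarefree
  unfold Mf
  have e1 : ∑ n ∈ Ioc 0 R, fA n / n = ∑ n ∈ (Ioc 0 R).filter (fun n => Squarefree n ∧ ∀ p ∈ n.primeFactors, 5 ≤ p), fA n / n := by
    symm
    apply sum_subset (filter_subset _ _)
    intro n hn hn2
    rw [mem_filter] at hn2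
    rw [fA_apply]
    split_ifs with h
    · have : ∃ p ∈ n.primeFactors, ¬ 5 ≤ p := by
        by_contra h3
        push Not at h3
        exact hn2 ⟨hn, h, h3⟩
      obtain ⟨p, hp, hp5⟩ := this
      rw [prod_eq_zero hp (by unfold fp; rw [if_neg hp5]), zero_div]
    · rw [zero_div]
  rw [e1]
  apply sum_nbij' md Nat.primeFactors
  · intro s hs
    rw [mem_filter] at hs
    rw [mem_filter, mem_Ioc]
    have h1 : IsPr s := fun p hp => ⟨(mem_pr5.1 (mem_powerset.1 hs.1 hp)).2, (mem_pr5.1 (mem_powerset.1 hs.1 hp)).1.1⟩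
    refine ⟨⟨prod_pos fun p hp => (h1 p hp).1.pos, by exact_mod_cast hs.2⟩, hsq s hs.1, ?_⟩
    rw [hprime s hs.1]
    exact fun p hp => (h1 p hp).2
  · intro n hn
    rw [mem_filter, mem_Ioc] at hn
    rw [mem_filter, mem_powerset]
    constructor
    · intro p hp
      rw [mem_pr5]
      refine ⟨⟨hn.2.2 p hp, ?_⟩, Nat.prime_of_mem_primeFactors hp⟩
      exact (Nat.le_of_dvd hn.1.1 (Nat.dvd_of_mem_primeFactors hp)).trans (hn.1.2.trans hRy)
    · have : md n.primeFactors = n := Nat.prod_primeFactors_of_squarefree hn.2.1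
      rw [this]
      exact_mod_cast hn.1.2
  · intro s hs
    rw [mem_filter] at hs
    exact hprime s hs.1
  · intro n hn
    rw [mem_filter] at hn
    exact Nat.prod_primeFactors_of_squarefree hn.2.1
  · intro s hs
    rw [mem_filter] at hs
    rw [hfp s hs.1, fA_apply, if_pos (hsq s hs.1), hprime s hs.1, prod_div_distrib, md_cast]

end Pool.Agent.K9h56.TC
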