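import Pool.Agent.K9h56.TC.Rank
import Pool.Agent.H970R2.X.Btl

set_option autoImplicit false
set_option linter.unusedSectionVars false
set_option linter.style.haveILetI false

/-! The average over the largest prime factor. -/

namespace Pool.Agent.K9h56.TC

open Finset Pool.Agent.K9h56.TB

lemma cast_mod {s : Finset ℕ} (hs : IsPr s) (a b : ℕ) (h : ((a : ℕ) : RR s) = ((b : ℕ) : RR s)) :
    a % md s = b % md s := by
  have key : ∀ m m' : ℕ, m ≤ m' → ((m : ℕ) : RR s) = ((m' : ℕ) : RR s) → m % md s = m' % md s := by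
    intro m m' hmm h
    have hdv : ∀ p ∈ s, p ∣ m' - m := by
      intro p hp
      rw [← Nat.modEq_iff_dvd' hmm, ← ZMod.natCast_eq_natCast_iff]
      have h2 := congrArg (fun x : RR s => x ⟨p, hp⟩) h
      simpa using h2
    have h3 := prod_primes_dvd _ (fun p hp => (hs p hp).1.prime) hdv
    exact (Nat.modEq_iff_dvd' hmm).2 h3
  rcases le_total a b with hab | hab
  · exact key a b hab h
  · exact (key b a hab h.symm).symm

lemma totient_md {s : Finset ℕ} (hs : IsPr s) : (Nat.totient (md s) : ℝ) = ∏ p ∈ s, ((p : ℝ) - 1) := by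
  induction s using Finset.induction_on with
  | empty => simp [md]
  | insert p s hp ih =>
    have hs' : IsPr s := fun q hq => hs q (mem_insert_of_mem hq)
    have hpp := (hs p (mem_insert_self _ _)).1
    have hcop : Nat.Coprime p (md s) := by
      unfold md
      apply Nat.Coprime.prod_right
      intro q hq
      rw [Nat.coprime_primes hpp (hs' q hq).1]
      rintro rfl
      exact hp hq
    have e : md (insert p s) = p * md s := by unfold md; rw [prod_insert hp]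
    rw [e, Nat.totient_mul hcop, Nat.totient_prime hpp, prod_insert hp, ← ih hs', Nat.cast_mul,
      Nat.cast_sub hpp.one_le]
    norm_num

/-- the sum over the primes in a residue class, in a short logarithmic range -/
lemma bt_sum {s : Finset ℕ} (hs : IsPr s) (v : RR s) (Q : Finset ℕ) (G K : ℕ) (hG : 2 ≤ G)
    (hGm : md s ^ 2 ≤ G) (hQ : ∀ x ∈ Q, x.Prime ∧ ((x : ℕ) : RR s) = v ∧ G < x)
    (hK : ∀ x ∈ Q, ∀ x' ∈ Q, x' ≤ 2 ^ K * x) :
    ∑ x ∈ Q, 1 / (x : ℝ) ≤ (K + 1) * (264 / Real.log G / (Nat.totient (md s) : ℝ)) := by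
  classical
  haveI := neZero_of hs
  have hlogG : 0 < Real.log G := Real.log_pos (by exact_mod_cast (by omega : 1 < G))
  have hlog2 : 0 < Real.log 2 := Real.log_pos (by norm_num)
  have hmd := md_pos hs
  have hphi : (0 : ℝ) < (Nat.totient (md s) : ℝ) := by exact_mod_cast Nat.totient_pos.2 hmd
  rcases Q.eq_empty_or_nonempty with rfl | hne
  · rw [sum_empty]; positivity
  -- blocks
  have hblock : ∀ i ∈ Q.image (Nat.log 2), ∑ x ∈ Q.filter (fun x => Nat.log 2 x = i), 1 / (x : ℝ) ≤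
      264 / Real.log G / (Nat.totient (md s) : ℝ) := by
    intro i hi
    rw [mem_image] at hi
    obtain ⟨x0, hx0, rfl⟩ := hi
    obtain ⟨h1, h2, h3⟩ := hQ x0 hx0
    have hlt : x0 < 2 ^ (Nat.log 2 x0 + 1) := Nat.lt_pow_succ_log_self (by norm_num) x0
    have h4 := Pool.Agent.H970R2.X.xbtl_block (md s) x0 (Nat.log 2 x0)
      (Q.filter (fun x => Nat.log 2 x = Nat.log 2 x0)) hmd
      (Nat.log_pos (by norm_num) h1.two_le) (by omega) (by
        intro x hx
        rw [mem_filter] at hx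
        obtain ⟨h5, h6, h7⟩ := hQ x hx.1
        refine ⟨h5, cast_mod hs x x0 (h6.trans h2.symm), ?_, ?_⟩
        · rw [← hx.2]; exact Nat.pow_log_le_self 2 h5.ne_zero
        · rw [← hx.2]; exact Nat.lt_pow_succ_log_self (by norm_num) x)
    refine h4.trans ?_
    have h8 : Real.log G ≤ ((Nat.log 2 x0 : ℝ) + 1) * Real.log 2 := by
      have h9 : (G : ℝ) ≤ 2 ^ (Nat.log 2 x0 + 1) := by exact_mod_cast (by omega : G ≤ 2 ^ (Nat.log 2 x0 + 1))
      have h10 := Real.log_le_log (by exact_mod_cast (by omega : 0 < G)) h9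
      rw [Real.log_pow] at h10
      push_cast at h10
      exact h10
    have e1 : 264 / Real.log 2 / (Nat.totient (md s) : ℝ) * (1 / ((Nat.log 2 x0 : ℝ) + 1)) =
        264 / (((Nat.log 2 x0 : ℝ) + 1) * Real.log 2) / (Nat.totient (md s) : ℝ) := by
      field_simp
    rw [e1]
    apply div_le_div_of_nonneg_right _ hphi.le
    exact div_le_div_of_nonneg_left (by norm_num) hlogG h8
  rw [← sum_fiberwise_of_maps_to (fun x hx => mem_image_of_mem (Nat.log 2) hx)]
  refine (sum_le_sum hblock).trans ?_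
  rw [sum_const, nsmul_eq_mul]
  apply mul_le_mul_of_nonneg_right _ (by positivity)
  -- the number of the blocks
  obtain ⟨x0, hx0, hmin⟩ := exists_min_image Q (Nat.log 2) hne
  have hsub : Q.image (Nat.log 2) ⊆ Icc (Nat.log 2 x0) (Nat.log 2 x0 + K) := by
    intro i hi
    rw [mem_image] at hi
    obtain ⟨x, hx, rfl⟩ := hi
    rw [mem_Icc]
    refine ⟨hmin x hx, ?_⟩
    have h1 := hK x0 hx0 x hx
    have h2 : x0 < 2 ^ (Nat.log 2 x0 + 1) := Nat.lt_pow_succ_log_self (by norm_num) x0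
    have h3 : x < 2 ^ (Nat.log 2 x0 + K + 1) := by
      calc x ≤ 2 ^ K * x0 := h1
        _ < 2 ^ K * 2 ^ (Nat.log 2 x0 + 1) := Nat.mul_lt_mul_of_pos_left h2 (by positivity)
        _ = 2 ^ (Nat.log 2 x0 + K + 1) := by rw [← pow_add]; congr 1; ring
    have h4 := Nat.log_lt_of_lt_pow (hQ x hx).1.ne_zero h3
    omega
  have hc := card_le_card hsub
  rw [Nat.card_Icc] at hc
  exact_mod_cast (by omega : (Q.image (Nat.log 2)).card ≤ K + 1)

/-- the local factor as a function of the residue of the largest prime -/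
lemma local_sum {p : ℕ} (hp : p.Prime) (h5 : 5 ≤ p) (u : ZMod p) (hu : u ≠ 0) : haveI : NeZero p := ⟨hp.ne_zero⟩
    ∑ x : ZMod p, (p : ℝ) * gh (3 * u * x⁻¹) = 2 * p / ((p : ℝ) - 2) := by
  haveI : NeZero p := ⟨hp.ne_zero⟩
  haveI := Fact.mk hp
  have h3 := three_inv hp h5
  have h30 : (3 : ZMod p) ≠ 0 := fun h => by rw [h, zero_mul] at h3; exact zero_ne_one h3
  have hinv : Function.Involutive (fun x : ZMod p => 3 * u * x⁻¹) := by
    intro x
    show 3 * u * (3 * u * x⁻¹)⁻¹ = x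
    rw [mul_inv, inv_inv, ← mul_assoc, mul_inv_cancel₀ (mul_ne_zero h30 hu), one_mul]
  rw [← mul_sum]
  have e : ∑ x : ZMod p, gh (3 * u * x⁻¹) = ∑ x : ZMod p, gh x := by
    have := Equiv.sum_comp (hinv.toPerm _) (fun x : ZMod p => gh x)
    simpa using this
  rw [e, sum_gh hp h5]
  ring

/-- the sum over the largest prime -/
lemma inner_sum {s : Finset ℕ} (hs : IsPr s) (c : ℤ) (hc : ∀ p ∈ s, ¬ (p : ℤ) ∣ c) (N : ℕ)
    (hN : ∀ p ∈ s, ¬ p ∣ N) (Q : Finset ℕ) (G K : ℕ) (hG : 2 ≤ G)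
    (hGm : md s ^ 2 ≤ G) (hQ : ∀ x ∈ Q, x.Prime ∧ G < x) (hQs : ∀ x ∈ Q, ∀ p ∈ s, ¬ p ∣ x)
    (hK : ∀ x ∈ Q, ∀ x' ∈ Q, x' ≤ 2 ^ K * x) :
    ∑ x ∈ Q, (∏ p ∈ s, ((p : ℝ) * (ph p ((c : ZMod p) * ((6 * ((md s / p) * N * x) : ℕ) : ZMod p)⁻¹) /
      ((p : ℝ) - 2) ^ 2))) * (1 / (x : ℝ)) ≤
      (K + 1) * (264 / Real.log G) * ∏ p ∈ s, (lp p / 2) := by
  classical
  haveI := neZero_of hs
  -- the residue functions
  set u : ∀ i : ↥s, ZMod (i : ℕ) := fun i => (c : ZMod (i : ℕ)) * ((6 * ((md s / (i : ℕ)) * N) : ℕ) : ZMod (i : ℕ))⁻¹ with hu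
  set Φ : RR s → ℝ := fun v => ∏ i : ↥s, (((i : ℕ) : ℝ) * gh (3 * u i * (v i)⁻¹)) with hΦ
  have hΦ0 : ∀ v, 0 ≤ Φ v := fun v => prod_nonneg fun i _ => mul_nonneg (Nat.cast_nonneg _) (gh_nonneg _)
  have hune : ∀ i, u i ≠ 0 := by
    intro i
    haveI := Fact.mk (hs i i.2).1
    simp only [hu]
    apply mul_ne_zero
    · intro h
      exact hc i i.2 ((ZMod.intCast_zmod_eq_zero_iff_dvd _ _).1 h)
    · apply inv_ne_zero
      rw [Nat.cast_mul, Nat.cast_mul]
      apply mul_ne_zero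
      · intro h
        rw [ZMod.natCast_eq_zero_iff] at h
        have h2 : (i : ℕ) ∣ 2 * 3 := by simpa using h
        rcases (Nat.Prime.dvd_mul (hs i i.2).1).1 h2 with h3 | h3
        · have := Nat.le_of_dvd (by norm_num) h3; have := (hs i i.2).2; omega
        · have := Nat.le_of_dvd (by norm_num) h3; have := (hs i i.2).2; omega
      · apply mul_ne_zero (md_div_ne hs i)
        intro h
        exact hN i i.2 ((ZMod.natCast_eq_zero_iff _ _).1 h)
  have e1 : ∀ x ∈ Q, (∏ p ∈ s, ((p : ℝ) * (ph p ((c : ZMod p) * ((6 * ((md s / p) * N * x) : ℕ) : ZMod p)⁻¹) /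
      ((p : ℝ) - 2) ^ 2))) = Φ ((x : ℕ) : RR s) := by
    intro x hx
    simp only [hΦ]
    rw [← prod_coe_sort s]
    apply prod_congr rfl
    intro i _
    haveI := Fact.mk (hs i i.2).1
    congr 1
    rw [ph_eq]
    have hx0 : ((x : ℕ) : ZMod (i : ℕ)) ≠ 0 := fun h => hQs x hx i i.2 ((ZMod.natCast_eq_zero_iff _ _).1 h)
    have h3 := three_inv (hs i i.2).1 (hs i i.2).2
    have h30 : (3 : ZMod (i : ℕ)) ≠ 0 := fun h => by rw [h, zero_mul] at h3; exact zero_ne_one h3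
    have hx' : (((x : ℕ) : RR s) i) = ((x : ℕ) : ZMod (i : ℕ)) := by simp
    unfold gh
    rw [hx', if_neg (mul_ne_zero (mul_ne_zero h30 (hune i)) (inv_ne_zero hx0))]
    congr 5
    simp only [hu]
    rw [show 6 * ((md s / (i : ℕ)) * N * x) = (6 * ((md s / (i : ℕ)) * N)) * x by ring, Nat.cast_mul _ x, mul_inv]
    linear_combination (-((c : ZMod (i : ℕ)) * ((6 * ((md s / (i : ℕ)) * N) : ℕ) : ZMod (i : ℕ))⁻¹ *
      ((x : ℕ) : ZMod (i : ℕ))⁻¹)) * h3
  rw [sum_congr rfl (fun x hx => by rw [e1 x hx])]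
  have e2 : ∑ x ∈ Q, Φ ((x : ℕ) : RR s) * (1 / (x : ℝ)) =
      ∑ v : RR s, Φ v * ∑ x ∈ Q.filter (fun x => ((x : ℕ) : RR s) = v), 1 / (x : ℝ) := by
    rw [← sum_fiberwise_of_maps_to (t := (univ : Finset (RR s))) (g := fun x : ℕ => ((x : ℕ) : RR s))
      (fun x _ => mem_univ _)]
    apply sum_congr rfl
    intro v _
    rw [mul_sum]
    apply sum_congr rfl
    intro x hx
    rw [mem_filter] at hx
    rw [hx.2]
  rw [e2]
  have e3 : ∀ v : RR s, Φ v * ∑ x ∈ Q.filter (fun x => ((x : ℕ) : RR s) = v), 1 / (x : ℝ) ≤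
      Φ v * ((K + 1) * (264 / Real.log G / (Nat.totient (md s) : ℝ))) := by
    intro v
    apply mul_le_mul_of_nonneg_left _ (hΦ0 v)
    apply bt_sum hs v _ G K hG hGm
    · intro x hx
      rw [mem_filter] at hx
      exact ⟨(hQ x hx.1).1, hx.2, (hQ x hx.1).2⟩
    · intro x hx x' hx'
      rw [mem_filter] at hx hx'
      exact hK x hx.1 x' hx'.1
  refine (sum_le_sum fun v _ => e3 v).trans ?_
  rw [← sum_mul]
  have e4 : ∑ v : RR s, Φ v = ∏ p ∈ s, (2 * (p : ℝ) / ((p : ℝ) - 2)) := by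
    have h1 := (prod_univ_sum (fun i : ↥s => (univ : Finset (ZMod (i : ℕ))))
      (fun i x => (((i : ℕ) : ℝ) * gh (3 * u i * x⁻¹)))).symm
    rw [Fintype.piFinset_univ] at h1
    simp only [hΦ]
    rw [h1, ← prod_coe_sort s]
    apply prod_congr rfl
    intro i _
    exact local_sum (hs i i.2).1 (hs i i.2).2 (u i) (hune i)
  rw [e4, totient_md hs]
  have hlogG : 0 < Real.log G := Real.log_pos (by exact_mod_cast (by omega : 1 < G))
  have hp1 : 0 < ∏ p ∈ s, ((p : ℝ) - 1) := prod_pos fun p hp => by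
    have : (5 : ℝ) ≤ p := by exact_mod_cast (hs p hp).2
    linarith
  have e5 : (∏ p ∈ s, (2 * (p : ℝ) / ((p : ℝ) - 2))) / ∏ p ∈ s, ((p : ℝ) - 1) ≤ ∏ p ∈ s, (lp p / 2) := by
    rw [← prod_div_distrib]
    apply prod_le_prod
    · intro p hp
      have : (5 : ℝ) ≤ p := by exact_mod_cast (hs p hp).2
      apply div_nonneg (div_nonneg (by positivity) _) <;> linarith
    · intro p hp
      have h5 : (5 : ℝ) ≤ p := by exact_mod_cast (hs p hp).2
      unfold lp
      rw [div_div, div_div, div_le_div_iff₀ (by nlinarith) (by nlinarith)]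
      nlinarith
  calc (∏ p ∈ s, (2 * (p : ℝ) / ((p : ℝ) - 2))) * ((K + 1) * (264 / Real.log G / ∏ p ∈ s, ((p : ℝ) - 1))) =
      (K + 1) * (264 / Real.log G) * ((∏ p ∈ s, (2 * (p : ℝ) / ((p : ℝ) - 2))) / ∏ p ∈ s, ((p : ℝ) - 1)) := by
        field_simp
    _ ≤ _ := mul_le_mul_of_nonneg_left e5 (by positivity)

end Pool.Agent.K9h56.TC
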