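import Pool.Agent.K9h56.TC.Asy

set_option autoImplicit false
set_option linter.unusedSectionVars false
set_option linter.style.haveILetI false

/-! The limit of the alternating sum. -/

namespace Pool.Agent.K9h56.TC

open Finset Filter Topology Pool.Agent.K9h56.TB

/-- the cut -/
noncomputable def Rv (v : ℝ) : ℕ := ⌈Real.exp (v ^ 8) * v ^ 1030⌉₊

lemma Rv_bounds {v : ℝ} (hv : 1 ≤ v) : Real.exp (v ^ 8) * v ^ 1030 ≤ Rv v ∧
    (Rv v : ℝ) ≤ 2 * Real.exp (v ^ 8) * v ^ 1030 := by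
  unfold Rv
  have h0 : 1 ≤ Real.exp (v ^ 8) * v ^ 1030 := by
    have h1 : 1 ≤ Real.exp (v ^ 8) := Real.one_le_exp (by positivity)
    have h2 : 1 ≤ v ^ 1030 := one_le_pow₀ hv
    calc (1 : ℝ) = 1 * 1 := (one_mul 1).symm
      _ ≤ _ := mul_le_mul h1 h2 (by norm_num) (by positivity)
  refine ⟨Nat.le_ceil _, ?_⟩
  have := Nat.ceil_lt_add_one (by linarith : 0 ≤ Real.exp (v ^ 8) * v ^ 1030)
  linarith

lemma Rv_tendsto : Tendsto Rv atTop atTop := by
  unfold Rv
  apply tendsto_nat_ceil_atTop.comp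
  apply tendsto_atTop_mono' atTop _ tendsto_id
  filter_upwards [eventually_ge_atTop (1 : ℝ)] with v hv
  have h1 : 1 ≤ Real.exp (v ^ 8) := Real.one_le_exp (by positivity)
  have h2 : v ≤ v ^ 1030 := by
    calc v = v ^ 1 := (pow_one v).symm
      _ ≤ _ := pow_le_pow_right₀ hv (by norm_num)
  simp only [id]
  calc v = 1 * v := (one_mul v).symm
    _ ≤ _ := mul_le_mul h1 h2 (by linarith) (by positivity)

lemma log_div_pow (n : ℕ) (hn : 1 ≤ n) : Tendsto (fun v : ℝ => Real.log v / v ^ n) atTop (𝓝 0) := by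
  have h := Real.isLittleO_log_id_atTop.tendsto_div_nhds_zero
  simp only [id] at h
  refine squeeze_zero_norm' ?_ h
  filter_upwards [eventually_ge_atTop (1 : ℝ)] with v hv
  have h1 : 0 ≤ Real.log v := Real.log_nonneg hv
  have h2 : v ≤ v ^ n := by
    calc v = v ^ 1 := (pow_one v).symm
      _ ≤ _ := pow_le_pow_right₀ hv hn
  rw [Real.norm_of_nonneg (by positivity)]
  exact div_le_div_of_nonneg_left h1 (by linarith) h2

lemma logRv : Tendsto (fun v : ℝ => Real.log (Rv v) / v ^ 8) atTop (𝓝 1) := by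
  have h1 : Tendsto (fun v : ℝ => 1 + (1 / v ^ 8 + 1030 * (Real.log v / v ^ 8))) atTop (𝓝 (1 + (0 + 1030 * 0))) := by
    refine tendsto_const_nhds.add (Tendsto.add ?_ ((log_div_pow 8 (by norm_num)).const_mul 1030))
    exact tendsto_const_nhds.div_atTop (tendsto_pow_atTop (by norm_num))
  norm_num at h1
  apply tendsto_of_tendsto_of_tendsto_of_le_of_le' tendsto_const_nhds h1
  · filter_upwards [eventually_ge_atTop (1 : ℝ)] with v hv
    obtain ⟨a, b⟩ := Rv_bounds hv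
    have hv0 : 0 < v := by linarith
    have h0 : (0 : ℝ) < Rv v := lt_of_lt_of_le (by positivity) a
    rw [le_div_iff₀ (by positivity), one_mul, Real.le_log_iff_exp_le h0]
    refine le_trans ?_ a
    have h2 : 1 ≤ v ^ 1030 := one_le_pow₀ hv
    have := Real.exp_pos (v ^ 8)
    nlinarith
  · filter_upwards [eventually_ge_atTop (1 : ℝ)] with v hv
    obtain ⟨a, b⟩ := Rv_bounds hv
    have hv0 : 0 < v := by linarith
    have h0 : (0 : ℝ) < Rv v := lt_of_lt_of_le (by positivity) a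
    have h3 := Real.log_le_log h0 b
    rw [Real.log_mul (by positivity) (by positivity), Real.log_mul (by norm_num) (Real.exp_pos _).ne', Real.log_exp,
      Real.log_pow] at h3
    rw [div_le_iff₀ (by positivity)]
    have e : (1 + ((v ^ 8)⁻¹ + 1030 * (Real.log v / v ^ 8))) * v ^ 8 = v ^ 8 + 1 + 1030 * Real.log v := by
      field_simp
      ring
    rw [e]
    push_cast at h3
    linarith [Real.log_two_lt_d9]

lemma Mf_Rv : Tendsto (fun v : ℝ => Mf (Rv v) / v ^ 16) atTop (𝓝 (Bc / 2)) := by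
  have h1 := (Mf_tendsto.comp Rv_tendsto).mul (logRv.pow 2)
  rw [one_pow, mul_one] at h1
  refine h1.congr' ?_
  filter_upwards [eventually_ge_atTop (1 : ℝ)] with v hv
  obtain ⟨a, b⟩ := Rv_bounds hv
  have hv0 : 0 < v := by linarith
  have h0 : (0 : ℝ) < Rv v := lt_of_lt_of_le (by positivity) a
  have h2 : 0 < Real.log (Rv v) := by
    have h3 : Real.exp (v ^ 8) ≤ Rv v := by
      refine le_trans ?_ a
      have h2 : 1 ≤ v ^ 1030 := one_le_pow₀ hv
      have := Real.exp_pos (v ^ 8)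
      nlinarith
    have := (Real.le_log_iff_exp_le h0).2 h3
    have h4 : 0 < v ^ 8 := by positivity
    linarith
  simp only [Function.comp]
  field_simp

lemma err_tendsto : Tendsto (fun v : ℝ => Cer * (1 + Real.log v) ^ 2 * v ^ 15 / v ^ 16) atTop (𝓝 0) := by
  have hlog := Real.tendsto_log_atTop
  have h1 : Tendsto (fun v : ℝ => Real.log v ^ 2 / v) atTop (𝓝 0) := by
    have h := (Real.isLittleO_pow_log_id_atTop (n := 2)).tendsto_div_nhds_zero
    simpa only [id] using h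
  have h2 : Tendsto (fun v : ℝ => Cer * (v⁻¹ + 2 * (Real.log v / v ^ 1) + Real.log v ^ 2 / v)) atTop
      (𝓝 (Cer * (0 + 2 * 0 + 0))) :=
    ((tendsto_inv_atTop_zero.add ((log_div_pow 1 le_rfl).const_mul 2)).add h1).const_mul Cer
  norm_num at h2
  refine h2.congr' ?_
  filter_upwards [eventually_ge_atTop (1 : ℝ)] with v hv
  have hv0 : 0 < v := by linarith
  field_simp
  ring

theorem alt_bound {ε : ℝ} (hε : 0 < ε) : ∀ᶠ v : ℝ in atTop, ∀ y : ℕ, Real.exp (2 * v ^ 8) ≤ y →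
    (y : ℝ) ≤ Real.exp (20 * v ^ 8) →
    |2 * alt (pr5 y) (Real.exp (-v ^ 8)) / v ^ 16 + Bc / 2| ≤ ε := by
  have h1 : Tendsto (fun v : ℝ => 2 * Real.exp (-v ^ 8) * (Mf (Rv v) / v ^ 16)) atTop (𝓝 (2 * 0 * (Bc / 2))) := by
    refine Tendsto.mul (Tendsto.const_mul 2 ?_) Mf_Rv
    exact Real.tendsto_exp_neg_atTop_nhds_zero.comp (tendsto_pow_atTop (by norm_num))
  rw [mul_zero, zero_mul] at h1
  have h2 : Tendsto (fun v : ℝ => 2 * Real.exp (-v ^ 8) * (Mf (Rv v) / v ^ 16) +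
      Cer * (1 + Real.log v) ^ 2 * v ^ 15 / v ^ 16 + |Mf (Rv v) / v ^ 16 - Bc / 2|) atTop (𝓝 (0 + 0 + |Bc / 2 - Bc / 2|)) :=
    (h1.add err_tendsto).add (Mf_Rv.sub_const (Bc / 2)).abs
  rw [sub_self, abs_zero, add_zero, add_zero] at h2
  filter_upwards [asy_bound, h2.eventually (gt_mem_nhds hε), eventually_ge_atTop (1 : ℝ)] with v ha he hv y hy1 hy2
  obtain ⟨a, b⟩ := Rv_bounds hv
  have h3 := ha y hy1 hy2 (Rv v) a b
  have hv0 : 0 < v := by linarith
  have hp : 0 < v ^ 16 := by positivity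
  have h4 : |2 * alt (pr5 y) (Real.exp (-v ^ 8)) / v ^ 16 + Mf (Rv v) / v ^ 16| ≤
      2 * Real.exp (-v ^ 8) * (Mf (Rv v) / v ^ 16) + Cer * (1 + Real.log v) ^ 2 * v ^ 15 / v ^ 16 := by
    rw [← add_div, abs_div, abs_of_pos hp, ← mul_div_assoc, ← add_div]
    exact div_le_div_of_nonneg_right h3 hp.le
  have e : 2 * alt (pr5 y) (Real.exp (-v ^ 8)) / v ^ 16 + Bc / 2 =
      (2 * alt (pr5 y) (Real.exp (-v ^ 8)) / v ^ 16 + Mf (Rv v) / v ^ 16) - (Mf (Rv v) / v ^ 16 - Bc / 2) := by ring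
  rw [e]
  refine (abs_sub _ _).trans ?_
  linarith

end Pool.Agent.K9h56.TC
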