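import Pool.Agent.K9h56.TB.Grow
import Pool.Agent.K9h56.TC.Lim

set_option autoImplicit false
set_option linter.unusedSectionVars false
set_option linter.style.haveILetI false

/-! The mean sign by the small primes. -/

namespace Pool.Agent.K9h56.TC

open Finset Filter Topology Pool.Agent.K9h56.TB

/-- the combination of the two parts, with the small primes only -/
lemma combine2 {z0 z : ℕ} (h4 : 4 ≤ z0) (h : z0 ≤ z) {q d0 θ K η B κ : ℝ} {H ℓ a0 : ℕ}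
    (hq : q = ∏ p ∈ prl z0 z, (1 - 2 / (p : ℝ))) (hd0 : d0 = dz z0) (hθ : θ = dz z) (hθq : θ = q * d0)
    (hq0 : 0 < q) (hq1 : q ≤ 1) (hd0' : 0 < d0) (hd1 : d0 ≤ 1)
    (hK : K = ∏ p ∈ pr5 z0, (1 + 1344 / (p : ℝ))) (hη : η = ∑ p ∈ prl z0 z, 4 / (p : ℝ) ^ 2)
    (hη1 : η ≤ 1)
    (hH : 0 < H) (hℓ : 0 < ℓ) (hHp : 4 * (H + 1) ≤ z0) (ha0 : 2 * d0 * H ≤ a0) (hκ : 0 ≤ κ) (hKκ : K ≤ κ ^ 4)
    (hB : 0 ≤ B) (hB1 : 8 * K * ((H : ℝ) ^ 2 + θ ^ 4 * (H : ℝ) ^ 6) ≤ B ^ 4)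
    (hB2 : 64 * K * ((H : ℝ) ^ 2 + q ^ 4 * (H : ℝ) ^ 6) +
      8 / q ^ 4 * (Real.exp (- (q * d0 * H / 2)) + 16 * K / (d0 ^ 4 * (H : ℝ) ^ 2)) ≤ B ^ 4) :
    |Dz z - q ^ 2 * (∑' k : ℕ, (-1 : ℝ) ^ (k + 1) * (1 - θ) ^ k * rz (pr5 z0) (k + 1)) / θ| ≤
      (2 * (((a0 : ℝ) + 2) ^ 3 * η * q * (1 + q) ^ a0) + 2 * q * Real.exp (- (q * d0 * H / 2)) +
        37 * q * K / (d0 ^ 4 * (H : ℝ) ^ 2) +
      q ^ 2 * (q * (κ * B ^ 2 / ℓ + 5 * (ℓ : ℝ) ^ 2 * B + 6 * (ℓ : ℝ) ^ 4) + (1 - q * d0) ^ H / q) +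
      H * (4 * η * q ^ 2) + (1 - θ) ^ H / θ) / θ := by
  haveI := neZero_of (isPr_pr5 z0)
  haveI := neZero_of (isPr_prl z0 z h4)
  have hθ0 : 0 < θ := by rw [hθq]; positivity
  have hθ1 : θ ≤ 1 := by rw [hθq]; exact mul_le_one₀ hq1 hd0'.le hd1
  have hη0 : 0 ≤ η := by rw [hη]; exact sum_nonneg fun p _ => by positivity
  have hK0 : 0 ≤ K := by rw [hK]; exact prod_nonneg fun p _ => by positivity
  set S0 : RR (pr5 z0) → ℝ := SS (av (pr5 z0)) (bv (pr5 z0)) univ with hS0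
  set S1 : RR (prl z0 z) → ℝ := SS (av (prl z0 z)) (bv (prl z0 z)) univ with hS1
  have hS0' : ∀ ω, S0 ω = 0 ∨ S0 ω = 1 := fun ω => SS_zo _ _ _ ω
  have hS1' : ∀ ω, S1 ω = 0 ∨ S1 ω = 1 := fun ω => SS_zo _ _ _ ω
  have H1 := first_hyp (isPr_pr5 z0)
  have H2 := second_hyp (isPr_pr5 z0)
  have H3 := third_hyp (isPr_prl z0 z h4) H (fun p hp => by rw [mem_prl] at hp; omega)
  rw [← hK] at H1 H2
  have hd0'' : ∏ p ∈ pr5 z0, (1 - 2 / (p : ℝ)) = d0 := by rw [hd0]; rfl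
  rw [hd0''] at H2
  rw [← hq, ← hη] at H3
  have hb : Ex (fun ω : RR (pr5 z0) => bb S0 (q * d0) H ω ^ 4) ≤ B ^ 4 := by
    refine (four_bb hS0' (by rw [← hθq]; exact hθ0.le) (by rw [← hθq]; exact hθ1) hK0 H1 H).trans ?_
    rw [← hθq]; exact hB1
  have hu : Ex (fun ω : RR (pr5 z0) => uu S0 q ω ^ 4) ≤ B ^ 4 :=
    (four_uu hS0' hq0 hq1 hK0 hd0' H1 H2 H hH).trans hB2
  have P1 := part_one hq0 hq1 hη0 hη1 H3 hS0' hS1' hd0' H2 hH a0 ha0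
  have P2 := part_two hS0' hq0 hq1 hd0' hd1 H2 H ℓ hℓ hκ hKκ hB hb hu
  have P3 := series_trunc (isPr_pr5 z0) hθ0 hθ1 H
  rw [Dz_eq h4 h, ← hθ, ← sub_div, abs_div, abs_of_pos hθ0]
  apply div_le_div_of_nonneg_right _ hθ0.le
  set E := (Ex fun ω : RR (pr5 z0) × RR (prl z0 z) => ST S0 S1 ω * uu (ST S0 S1) 1 ω) with hE
  set F := (Ex fun ω : RR (pr5 z0) => S0 ω * uu S0 q ω) with hF
  set T := (∑' k : ℕ, (-1 : ℝ) ^ (k + 1) * (1 - θ) ^ k * rz (pr5 z0) (k + 1)) with hT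
  set T1 := ∑ k ∈ range H, (-1 : ℝ) ^ (k + 1) * (1 - θ) ^ k * rz (pr5 z0) (k + 1) with hT1
  have e2 : ∑ k ∈ range H, (-1 : ℝ) ^ (k + 1) * (1 - q * d0) ^ k * rh S0 (k + 1) = T1 := by
    rw [hT1]
    apply sum_congr rfl
    intro k hk
    rw [mem_range] at hk
    rw [← hθq, hS0, rh_SS (isPr_pr5 z0) _ (by omega)]
  rw [e2] at P2
  have P6 : |q ^ 2 * F - q ^ 2 * T1| ≤
      q ^ 2 * (q * (κ * B ^ 2 / ℓ + 5 * (ℓ : ℝ) ^ 2 * B + 6 * (ℓ : ℝ) ^ 4) + (1 - q * d0) ^ H / q) := by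
    rw [← mul_sub, abs_mul, abs_of_nonneg (sq_nonneg q)]
    exact mul_le_mul_of_nonneg_left P2 (sq_nonneg q)
  have P7 : |q ^ 2 * (T - T1)| ≤ (1 - θ) ^ H / θ := by
    rw [abs_mul, abs_of_nonneg (sq_nonneg q)]
    calc q ^ 2 * |T - T1| ≤ 1 * |T - T1| :=
          mul_le_mul_of_nonneg_right (pow_le_one₀ hq0.le hq1) (abs_nonneg _)
      _ = |T - T1| := one_mul _
      _ ≤ _ := P3.2
  have e : E - q ^ 2 * T = (E - q ^ 2 * F) + (q ^ 2 * F - q ^ 2 * T1) - q ^ 2 * (T - T1) := by ring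
  rw [e]
  have tri : ∀ a b c : ℝ, |a + b - c| ≤ |a| + |b| + |c| := by
    intro a b c
    have h2 := abs_sub (a + b) c
    have h3 := abs_add_le a b
    linarith
  refine (tri _ _ _).trans ?_
  have h9 : 0 ≤ H * (4 * η * q ^ 2) := by positivity
  linarith

end Pool.Agent.K9h56.TC
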