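import Pool.Agent.K9h56.TC.Rank

set_option autoImplicit false
set_option linter.unusedSectionVars false
set_option linter.style.haveILetI false

/-! The large moduli. -/

namespace Pool.Agent.K9h56.TC

open Finset Pool.Agent.K9h56.TB

/-- multiples -/
lemma mult_sum {ρ : ℝ} (h0 : 0 ≤ ρ) (h1 : ρ < 1) (M : ℕ) (hM : 0 < M) :
    Summable (fun n : ℕ => if M ∣ n + 1 then ρ ^ n else 0) ∧
    ∑' n : ℕ, (if M ∣ n + 1 then ρ ^ n else 0) ≤ 1 / ((1 - ρ) * M) := by
  have hM' : (0 : ℝ) < M := by exact_mod_cast hM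
  have hnn : ∀ n : ℕ, 0 ≤ (if M ∣ n + 1 then ρ ^ n else 0) := fun n => by
    split_ifs
    · exact pow_nonneg h0 _
    · exact le_rfl
  have hs : Summable (fun n : ℕ => if M ∣ n + 1 then ρ ^ n else 0) := by
    apply Summable.of_nonneg_of_le hnn _ (summable_geometric_of_lt_one h0 h1)
    intro n
    split_ifs
    · exact le_rfl
    · exact pow_nonneg h0 _
  refine ⟨hs, ?_⟩
  have key : ∀ N : ℕ, ∑ n ∈ range (M * N), (if M ∣ n + 1 then ρ ^ n else 0) ≤
      (1 / M) * ∑ n ∈ range (M * N), ρ ^ n := by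
    intro N
    induction N with
    | zero => simp
    | succ N ih =>
      rw [show M * (N + 1) = M * N + M by ring, sum_range_add, sum_range_add, mul_add]
      apply add_le_add ih
      have h2 : ∑ x ∈ range M, (if M ∣ M * N + x + 1 then ρ ^ (M * N + x) else 0) = ρ ^ (M * N + (M - 1)) := by
        rw [sum_eq_single (M - 1)]
        · rw [if_pos]
          have : M * N + (M - 1) + 1 = M * (N + 1) := by
            have : M * (N + 1) = M * N + M := by ring
            omega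
          rw [this]; exact dvd_mul_right _ _
        · intro x hx hne
          rw [mem_range] at hx
          rw [if_neg]
          intro hd
          rw [show M * N + x + 1 = M * N + (x + 1) by ring, Nat.dvd_add_right (dvd_mul_right _ _)] at hd
          have := Nat.le_of_dvd (by omega) hd
          omega
        · intro h
          exact absurd (mem_range.2 (by omega)) h
      rw [h2]
      have h3 : (M : ℝ) * ρ ^ (M * N + (M - 1)) ≤ ∑ x ∈ range M, ρ ^ (M * N + x) := by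
        have h4 : ∑ x ∈ range M, ρ ^ (M * N + (M - 1)) ≤ ∑ x ∈ range M, ρ ^ (M * N + x) := by
          apply sum_le_sum
          intro x hx
          rw [mem_range] at hx
          exact pow_le_pow_of_le_one h0 h1.le (by omega)
        rwa [sum_const, card_range, nsmul_eq_mul] at h4
      rw [one_div, ← div_eq_inv_mul, le_div_iff₀ hM']
      linarith
  have hgeo : ∀ n : ℕ, ∑ i ∈ range n, ρ ^ i ≤ 1 / (1 - ρ) := by
    intro n
    rw [le_div_iff₀ (by linarith)]
    have := geom_sum_mul_neg ρ n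
    rw [this]
    have : 0 ≤ ρ ^ n := pow_nonneg h0 _
    linarith
  apply hs.tsum_le_of_sum_range_le
  intro n
  calc ∑ i ∈ range n, (if M ∣ i + 1 then ρ ^ i else 0) ≤ ∑ i ∈ range (M * n), (if M ∣ i + 1 then ρ ^ i else 0) := by
        apply sum_le_sum_of_subset_of_nonneg
        · exact range_subset_range.2 (Nat.le_mul_of_pos_left n hM)
        · intro i _ _; exact hnn i
    _ ≤ (1 / M) * ∑ i ∈ range (M * n), ρ ^ i := key n
    _ ≤ (1 / M) * (1 / (1 - ρ)) := mul_le_mul_of_nonneg_left (hgeo _) (by positivity)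
    _ = _ := by field_simp

/-- the majorant -/
noncomputable def gg (P : Finset ℕ) (a : ℝ) (n : ℕ) : ℝ := ∏ p ∈ P, (1 + if p ∣ n then a else 0)

lemma gg_nonneg {P : Finset ℕ} {a : ℝ} (ha : 0 ≤ a) (n : ℕ) : 0 ≤ gg P a n :=
  prod_nonneg fun p _ => by split_ifs <;> linarith

lemma gg_le {P : Finset ℕ} {a : ℝ} (ha : 0 ≤ a) (n : ℕ) : gg P a n ≤ ∏ _p ∈ P, (1 + a) :=
  prod_le_prod (fun p _ => by split_ifs <;> linarith) fun p _ => by split_ifs <;> linarith

lemma gg_expand {P : Finset ℕ} (hP : IsPr P) {a : ℝ} (ha : 0 ≤ a) (n : ℕ) :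
    gg P a n ≤ ∑ d ∈ P.powerset, (∏ _p ∈ d, a) * (if md d ∣ n then 1 else 0) := by
  unfold gg
  rw [prod_one_add]
  apply sum_le_sum
  intro d hd
  rw [mem_powerset] at hd
  by_cases h : ∀ p ∈ d, p ∣ n
  · have h2 : md d ∣ n := prod_primes_dvd n (fun p hp => (hP p (hd hp)).1.prime) h
    rw [if_pos h2, mul_one]
    apply le_of_eq
    apply prod_congr rfl
    intro p hp
    rw [if_pos (h p hp)]
  · push Not at h
    obtain ⟨p, hp, h2⟩ := h
    rw [prod_eq_zero hp (by rw [if_neg h2])]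
    apply mul_nonneg (prod_nonneg fun _ _ => ha)
    split_ifs <;> norm_num

lemma gg_sum {P : Finset ℕ} (hP : IsPr P) {a ρ : ℝ} (ha : 0 ≤ a) (h0 : 0 ≤ ρ) (h1 : ρ < 1) :
    Summable (fun n : ℕ => ρ ^ n * gg P a (n + 1)) ∧
    ∑' n : ℕ, ρ ^ n * gg P a (n + 1) ≤ 1 / (1 - ρ) * ∏ p ∈ P, (1 + a / p) := by
  have hs : Summable (fun n : ℕ => ρ ^ n * gg P a (n + 1)) := by
    apply Summable.of_nonneg_of_le (fun n => mul_nonneg (pow_nonneg h0 _) (gg_nonneg ha _)) _
      ((summable_geometric_of_lt_one h0 h1).mul_right (∏ p ∈ P, (1 + a)))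
    intro n
    exact mul_le_mul_of_nonneg_left (gg_le ha _) (pow_nonneg h0 _)
  refine ⟨hs, ?_⟩
  have hd : ∀ d ∈ P.powerset, HasSum (fun n : ℕ => (∏ _p ∈ d, a) * (if md d ∣ n + 1 then ρ ^ n else 0))
      ((∏ _p ∈ d, a) * ∑' n : ℕ, (if md d ∣ n + 1 then ρ ^ n else 0)) := by
    intro d hd
    rw [mem_powerset] at hd
    have hmd : 0 < md d := prod_pos fun p hp => (hP p (hd hp)).1.pos
    exact (mult_sum h0 h1 (md d) hmd).1.hasSum.mul_left _
  have h2 := hasSum_sum hd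
  calc ∑' n : ℕ, ρ ^ n * gg P a (n + 1) ≤
      ∑' n : ℕ, ∑ d ∈ P.powerset, (∏ _p ∈ d, a) * (if md d ∣ n + 1 then ρ ^ n else 0) := by
        apply hs.tsum_le_tsum _ h2.summable
        intro n
        calc ρ ^ n * gg P a (n + 1) ≤ ρ ^ n * ∑ d ∈ P.powerset, (∏ _p ∈ d, a) * (if md d ∣ n + 1 then 1 else 0) :=
              mul_le_mul_of_nonneg_left (gg_expand hP ha _) (pow_nonneg h0 _)
          _ = _ := by
            rw [mul_sum]
            apply sum_congr rfl
            intro d _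
            split_ifs <;> ring
    _ = ∑ d ∈ P.powerset, (∏ _p ∈ d, a) * ∑' n : ℕ, (if md d ∣ n + 1 then ρ ^ n else 0) := h2.tsum_eq
    _ ≤ ∑ d ∈ P.powerset, (1 / (1 - ρ)) * ∏ p ∈ d, (a / p) := by
        apply sum_le_sum
        intro d hd
        rw [mem_powerset] at hd
        have hmd : 0 < md d := prod_pos fun p hp => (hP p (hd hp)).1.pos
        have h3 := (mult_sum h0 h1 (md d) hmd).2
        calc (∏ _p ∈ d, a) * ∑' n : ℕ, (if md d ∣ n + 1 then ρ ^ n else 0) ≤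
            (∏ _p ∈ d, a) * (1 / ((1 - ρ) * md d)) := mul_le_mul_of_nonneg_left h3 (prod_nonneg fun _ _ => ha)
          _ = _ := by
            rw [prod_div_distrib, md_cast]
            have : (∏ p ∈ d, (p : ℝ)) ≠ 0 := by
              rw [← md_cast]; exact_mod_cast hmd.ne'
            have h5 : 1 - ρ ≠ 0 := by linarith
            field_simp
    _ = _ := by rw [← mul_sum, sum_powerset]

/-- progressions modulo 3 -/
lemma gg_three {P : Finset ℕ} (hP : IsPr P) {a θ : ℝ} (ha : 0 ≤ a) (h0 : 0 < θ) (h1 : θ ≤ 1 / 2) (j : ℕ) (hj : j ≤ 3) :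
    Summable (fun k : ℕ => (1 - θ) ^ k * gg P a (3 * k + j + 1)) ∧
    ∑' k : ℕ, (1 - θ) ^ k * gg P a (3 * k + j + 1) ≤ 6 / θ * ∏ p ∈ P, (1 + a / p) := by
  set ρ : ℝ := 1 - θ / 3 with hρ
  have hρ0 : 5 / 6 ≤ ρ := by rw [hρ]; linarith
  have hρ1 : ρ < 1 := by rw [hρ]; linarith
  have hρ3 : 1 - θ ≤ ρ ^ 3 := by
    rw [hρ]; nlinarith [sq_nonneg θ, pow_nonneg h0.le 3]
  obtain ⟨hs, hb⟩ := gg_sum hP (a := a) ha (by linarith : 0 ≤ ρ) hρ1
  have hinj : Function.Injective (fun k : ℕ => 3 * k + j) := by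
    intro x y h
    simp only at h
    omega
  have hterm : ∀ k : ℕ, (1 - θ) ^ k * gg P a (3 * k + j + 1) ≤
      2 * (ρ ^ (3 * k + j) * gg P a (3 * k + j + 1)) := by
    intro k
    have h2 : (1 - θ) ^ k ≤ ρ ^ (3 * k) := by
      rw [pow_mul]
      exact pow_le_pow_left₀ (by linarith) hρ3 k
    have h3 : 1 ≤ 2 * ρ ^ j := by
      have h4 : (5 / 6 : ℝ) ^ 3 ≤ ρ ^ 3 := pow_le_pow_left₀ (by norm_num) hρ0 3
      have h5 : ρ ^ 3 ≤ ρ ^ j := pow_le_pow_of_le_one (by linarith) hρ1.le hj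
      norm_num at h4
      linarith
    have h4 : (1 - θ) ^ k ≤ 2 * ρ ^ (3 * k + j) := by
      rw [pow_add]
      have h5 : 0 ≤ ρ ^ (3 * k) := by positivity
      nlinarith
    calc _ ≤ (2 * ρ ^ (3 * k + j)) * gg P a (3 * k + j + 1) := mul_le_mul_of_nonneg_right h4 (gg_nonneg ha _)
      _ = _ := by ring
  have hs2 : Summable (fun k : ℕ => 2 * (ρ ^ (3 * k + j) * gg P a (3 * k + j + 1))) :=
    (hs.comp_injective hinj).mul_left 2
  have hs3 : Summable (fun k : ℕ => (1 - θ) ^ k * gg P a (3 * k + j + 1)) :=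
    Summable.of_nonneg_of_le (fun k => mul_nonneg (pow_nonneg (by linarith) _) (gg_nonneg ha _)) hterm hs2
  refine ⟨hs3, ?_⟩
  calc ∑' k : ℕ, (1 - θ) ^ k * gg P a (3 * k + j + 1) ≤ ∑' k : ℕ, 2 * (ρ ^ (3 * k + j) * gg P a (3 * k + j + 1)) :=
        hs3.tsum_le_tsum hterm hs2
    _ = 2 * ∑' k : ℕ, (ρ ^ (3 * k + j) * gg P a (3 * k + j + 1)) := tsum_mul_left
    _ ≤ 2 * ∑' n : ℕ, ρ ^ n * gg P a (n + 1) := by
        apply mul_le_mul_of_nonneg_left _ (by norm_num)
        exact tsum_comp_le_tsum_of_inj hs (fun n => mul_nonneg (pow_nonneg (by linarith) _) (gg_nonneg ha _)) hinj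
    _ ≤ 2 * (1 / (1 - ρ) * ∏ p ∈ P, (1 + a / p)) := mul_le_mul_of_nonneg_left hb (by norm_num)
    _ = _ := by
        rw [hρ]
        have : 1 - (1 - θ / 3) = θ / 3 := by ring
        rw [this]
        field_simp
        ring

lemma cp_abs {p : ℕ} (hp : p.Prime) (h5 : 5 ≤ p) (k : ℕ) (hk : 0 < k) :
    1 + (p : ℝ) * |cp p k| ≤ (1 + lp p) * ((1 + if p ∣ k then 4 else 0) * (1 + if p ∣ 3 * k + 1 then 4 else 0) *
      (1 + if p ∣ 3 * k - 1 then 4 else 0)) := by
  have h5' : (5 : ℝ) ≤ p := by exact_mod_cast h5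
  have hpos : 0 < (p : ℝ) - 2 := by linarith
  have hcp : ∀ ν : ℕ, ((1 - (ν : ℝ) / p) / (1 - 2 / (p : ℝ)) ^ 2 - 1) = ((4 - ν) * p - 4) / ((p : ℝ) - 2) ^ 2 := by
    intro ν
    have h7 : 1 - 2 / (p : ℝ) ≠ 0 := by
      rw [one_sub_div (by linarith)]
      exact (div_pos hpos (by linarith)).ne'
    field_simp
    ring
  have hlp : 0 ≤ lp p := lp_nonneg p
  have hi : ∀ (Q : Prop) [Decidable Q], (1 : ℝ) ≤ 1 + if Q then 4 else 0 := by
    intro Q _; split_ifs <;> norm_num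
  unfold cp
  rw [hcp]
  by_cases c0 : p ∣ k
  · have hν : nu p k = 2 := by unfold nu; rw [if_pos c0]
    rw [hν, if_pos c0]
    have e1 : ((4 - ((2 : ℕ) : ℝ)) * p - 4) / ((p : ℝ) - 2) ^ 2 = 2 / ((p : ℝ) - 2) := by
      push_cast; field_simp; ring
    rw [e1, abs_of_nonneg (by positivity)]
    have e2 : (p : ℝ) * (2 / ((p : ℝ) - 2)) ≤ 4 := by
      rw [mul_div_assoc', div_le_iff₀ hpos]; linarith
    have e3 := hi (p ∣ 3 * k + 1)
    have e4 := hi (p ∣ 3 * k - 1)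
    have e5 : 1 ≤ (1 + if p ∣ 3 * k + 1 then (4 : ℝ) else 0) * (1 + if p ∣ 3 * k - 1 then 4 else 0) := by nlinarith
    nlinarith
  · rw [if_neg c0]
    by_cases c1 : p ∣ 3 * k + 1
    · have hν : nu p k = 3 := by unfold nu; rw [if_neg c0, if_pos (Or.inl c1)]
      rw [hν, if_pos c1]
      have e1 : |((4 - ((3 : ℕ) : ℝ)) * p - 4) / ((p : ℝ) - 2) ^ 2| ≤ 1 / (p:ℝ) := by
        push_cast
        rw [abs_of_nonneg (div_nonneg (by linarith) (by positivity)), div_le_div_iff₀ (by positivity) (by linarith)]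
        nlinarith
      have e2 : (p : ℝ) * |((4 - ((3 : ℕ) : ℝ)) * p - 4) / ((p : ℝ) - 2) ^ 2| ≤ 1 := by
        calc _ ≤ (p : ℝ) * (1 / p) := mul_le_mul_of_nonneg_left e1 (by linarith)
          _ = 1 := by field_simp
      have e4 := hi (p ∣ 3 * k - 1)
      nlinarith
    · rw [if_neg c1]
      by_cases c2 : p ∣ 3 * k - 1
      · have hν : nu p k = 3 := by unfold nu; rw [if_neg c0, if_pos (Or.inr c2)]
        rw [hν, if_pos c2]
        have e1 : |((4 - ((3 : ℕ) : ℝ)) * p - 4) / ((p : ℝ) - 2) ^ 2| ≤ 1 / (p:ℝ) := by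
          push_cast
          rw [abs_of_nonneg (div_nonneg (by linarith) (by positivity)), div_le_div_iff₀ (by positivity) (by linarith)]
          nlinarith
        have e2 : (p : ℝ) * |((4 - ((3 : ℕ) : ℝ)) * p - 4) / ((p : ℝ) - 2) ^ 2| ≤ 1 := by
          calc _ ≤ (p : ℝ) * (1 / p) := mul_le_mul_of_nonneg_left e1 (by linarith)
            _ = 1 := by field_simp
        nlinarith
      · have hν : nu p k = 4 := by unfold nu; rw [if_neg c0, if_neg (by tauto)]
        rw [hν, if_neg c2]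
        have e1 : |((4 - ((4 : ℕ) : ℝ)) * p - 4) / ((p : ℝ) - 2) ^ 2| = 4 / ((p : ℝ) - 2) ^ 2 := by
          push_cast
          rw [show ((4 - 4 : ℝ) * p - 4) = -4 by ring, abs_div, abs_neg, abs_of_pos (by norm_num : (0 : ℝ) < 4),
            abs_of_pos (by positivity)]
        rw [e1]
        unfold lp
        have : (p : ℝ) * (4 / ((p : ℝ) - 2) ^ 2) = 4 * p / ((p : ℝ) - 2) ^ 2 := by ring
        rw [this]
        linarith

/-- the sum over the large moduli, for one shift -/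
lemma large_one {P : Finset ℕ} (hP : IsPr P) {T : ℝ} (hT : 0 < T) (k : ℕ) (hk : 0 < k) :
    ∑ s ∈ P.powerset.filter (fun s => T < (md s : ℝ)), |cs s k| ≤
      1 / T * (∏ p ∈ P, (1 + lp p)) * (gg P 124 k + gg P 124 (3 * k + 1) + gg P 124 (3 * k - 1)) := by
  have h1 : ∀ s ∈ P.powerset.filter (fun s => T < (md s : ℝ)), |cs s k| ≤
      1 / T * ∏ p ∈ s, ((p : ℝ) * |cp p k|) := by
    intro s hs
    rw [mem_filter] at hs
    rw [prod_mul_distrib, ← md_cast]
    have h2 : |cs s k| = ∏ p ∈ s, |cp p k| := by unfold cs; rw [abs_prod]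
    rw [h2]
    have h3 : 0 ≤ ∏ p ∈ s, |cp p k| := prod_nonneg fun _ _ => abs_nonneg _
    have h4 : 1 ≤ 1 / T * (md s : ℝ) := by
      rw [one_div_mul_eq_div, one_le_div hT]; exact hs.2.le
    nlinarith
  refine (sum_le_sum h1).trans ?_
  rw [← mul_sum]
  have h2 : ∑ s ∈ P.powerset.filter (fun s => T < (md s : ℝ)), ∏ p ∈ s, ((p : ℝ) * |cp p k|) ≤
      ∏ p ∈ P, (1 + (p : ℝ) * |cp p k|) := by
    rw [← sum_powerset]
    apply sum_le_sum_of_subset_of_nonneg (filter_subset _ _)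
    intro s _ _
    exact prod_nonneg fun p _ => by positivity
  have h3 : ∏ p ∈ P, (1 + (p : ℝ) * |cp p k|) ≤
      (∏ p ∈ P, (1 + lp p)) * (gg P 4 k * gg P 4 (3 * k + 1) * gg P 4 (3 * k - 1)) := by
    unfold gg
    rw [← prod_mul_distrib, ← prod_mul_distrib, ← prod_mul_distrib]
    apply prod_le_prod
    · intro p _; positivity
    · intro p hp
      exact cp_abs (hP p hp).1 (hP p hp).2 k hk
  have h4 : ∀ n, gg P 4 n ^ 3 = gg P 124 n := by
    intro n
    unfold gg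
    rw [← prod_pow]
    apply prod_congr rfl
    intro p _
    split_ifs <;> norm_num
  have h5 : gg P 4 k * gg P 4 (3 * k + 1) * gg P 4 (3 * k - 1) ≤
      gg P 124 k + gg P 124 (3 * k + 1) + gg P 124 (3 * k - 1) := by
    rw [← h4, ← h4, ← h4]
    have a0 := gg_nonneg (P := P) (by norm_num : (0 : ℝ) ≤ 4) k
    have b0 := gg_nonneg (P := P) (by norm_num : (0 : ℝ) ≤ 4) (3 * k + 1)
    have c0 := gg_nonneg (P := P) (by norm_num : (0 : ℝ) ≤ 4) (3 * k - 1)
    generalize gg P 4 k = a at a0 ⊢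
    generalize gg P 4 (3 * k + 1) = b at b0 ⊢
    generalize gg P 4 (3 * k - 1) = c at c0 ⊢
    have h6 : 3 * (a * b * c) ≤ a ^ 3 + b ^ 3 + c ^ 3 := by
      nlinarith [mul_nonneg (add_nonneg (add_nonneg a0 b0) c0)
        (add_nonneg (add_nonneg (sq_nonneg (a - b)) (sq_nonneg (b - c))) (sq_nonneg (a - c)))]
    have h7 : 0 ≤ a ^ 3 + b ^ 3 + c ^ 3 := by positivity
    linarith
  have h6 : 0 ≤ ∏ p ∈ P, (1 + lp p) := prod_nonneg fun p _ => by have := lp_nonneg p; linarith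
  calc _ ≤ 1 / T * ∏ p ∈ P, (1 + (p : ℝ) * |cp p k|) := mul_le_mul_of_nonneg_left h2 (by positivity)
    _ ≤ 1 / T * ((∏ p ∈ P, (1 + lp p)) * (gg P 4 k * gg P 4 (3 * k + 1) * gg P 4 (3 * k - 1))) :=
        mul_le_mul_of_nonneg_left h3 (by positivity)
    _ ≤ 1 / T * ((∏ p ∈ P, (1 + lp p)) * (gg P 124 k + gg P 124 (3 * k + 1) + gg P 124 (3 * k - 1))) :=
        mul_le_mul_of_nonneg_left (mul_le_mul_of_nonneg_left h5 h6) (by positivity)
    _ = _ := by ring

theorem phys {P : Finset ℕ} (hP : IsPr P) {θ T : ℝ} (h0 : 0 < θ) (h1 : θ ≤ 1 / 2) (hT : 0 < T) :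
    Summable (fun k : ℕ => (1 - θ) ^ k * ∑ s ∈ P.powerset.filter (fun s => T < (md s : ℝ)), |cs s (k + 1)|) ∧
    ∑' k : ℕ, (1 - θ) ^ k * ∑ s ∈ P.powerset.filter (fun s => T < (md s : ℝ)), |cs s (k + 1)| ≤
      13 / (θ * T) * (∏ p ∈ P, (1 + lp p)) * ∏ p ∈ P, (1 + 124 / (p : ℝ)) := by
  have g0 := gg_sum hP (a := 124) (ρ := 1 - θ) (by norm_num) (by linarith) (by linarith)
  have g1 := gg_three hP (a := 124) (by norm_num) h0 h1 3 le_rfl
  have g2 := gg_three hP (a := 124) (by norm_num) h0 h1 1 (by norm_num)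
  rw [show 1 - (1 - θ) = θ by ring] at g0
  set E := ∏ p ∈ P, (1 + lp p) with hE
  have hE0 : 0 ≤ E := prod_nonneg fun p _ => by have := lp_nonneg p; linarith
  set Z := ∏ p ∈ P, (1 + 124 / (p : ℝ)) with hZ
  have hZ0 : 0 ≤ Z := prod_nonneg fun p _ => by positivity
  have hterm : ∀ k : ℕ, (1 - θ) ^ k * ∑ s ∈ P.powerset.filter (fun s => T < (md s : ℝ)), |cs s (k + 1)| ≤
      1 / T * E * ((1 - θ) ^ k * gg P 124 (k + 1)) + 1 / T * E * ((1 - θ) ^ k * gg P 124 (3 * k + 3 + 1)) +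
      1 / T * E * ((1 - θ) ^ k * gg P 124 (3 * k + 1 + 1)) := by
    intro k
    have h2 := large_one hP hT (k + 1) (by omega)
    have e1 : 3 * (k + 1) + 1 = 3 * k + 3 + 1 := by ring
    have e2 : 3 * (k + 1) - 1 = 3 * k + 1 + 1 := by omega
    rw [e1, e2] at h2
    have h3 := mul_le_mul_of_nonneg_left h2 (pow_nonneg (by linarith : 0 ≤ 1 - θ) k)
    refine h3.trans (le_of_eq ?_)
    ring
  have hsum := ((g0.1.mul_left (1 / T * E)).add (g1.1.mul_left (1 / T * E))).add (g2.1.mul_left (1 / T * E))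
  have hs : Summable (fun k : ℕ => (1 - θ) ^ k * ∑ s ∈ P.powerset.filter (fun s => T < (md s : ℝ)), |cs s (k + 1)|) :=
    Summable.of_nonneg_of_le (fun k => mul_nonneg (pow_nonneg (by linarith) _) (sum_nonneg fun _ _ => abs_nonneg _))
      hterm hsum
  refine ⟨hs, ?_⟩
  refine (hs.tsum_le_tsum hterm hsum).trans ?_
  rw [((g0.1.mul_left (1 / T * E)).add (g1.1.mul_left (1 / T * E))).tsum_add (g2.1.mul_left (1 / T * E)),
    (g0.1.mul_left (1 / T * E)).tsum_add (g1.1.mul_left (1 / T * E)), tsum_mul_left, tsum_mul_left, tsum_mul_left]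
  have hc : 0 ≤ 1 / T * E := by positivity
  have a1 := mul_le_mul_of_nonneg_left g0.2 hc
  have a2 := mul_le_mul_of_nonneg_left g1.2 hc
  have a3 := mul_le_mul_of_nonneg_left g2.2 hc
  have e : 13 / (θ * T) * E * Z = 1 / T * E * (1 / θ * Z) + 1 / T * E * (6 / θ * Z) + 1 / T * E * (6 / θ * Z) := by
    field_simp
    ring
  rw [e]
  linarith

end Pool.Agent.K9h56.TC
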