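import Pool.Agent.K9h56.TC.Med

set_option autoImplicit false
set_option linter.unusedSectionVars false
set_option linter.style.haveILetI false

/-! The total of the frequency sums. -/

namespace Pool.Agent.K9h56.TC

open Finset Pool.Agent.K9h56.TB

lemma harm (n : ℕ) (hn : 1 ≤ n) : ∑ k ∈ Icc 1 n, 1 / (k : ℝ) ≤ 1 + Real.log n := by
  induction n, hn using Nat.le_induction with
  | base => simp
  | succ n hn ih =>
    rw [sum_Icc_succ_top (by omega)]
    have hn0 : (0 : ℝ) < n := by exact_mod_cast hn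
    have h1 := Real.one_sub_inv_le_log_of_pos (x := ((n : ℝ) + 1) / n) (by positivity)
    rw [Real.log_div (by positivity) (by positivity)] at h1
    have h2 : 1 - (((n : ℝ) + 1) / n)⁻¹ = 1 / ((n : ℝ) + 1) := by
      field_simp
      ring
    rw [h2] at h1
    push_cast
    linarith

theorem tiny_total (P : Finset ℕ) (c0 : ℕ) (hc0 : 1 ≤ c0) {θ T1 T2 Lb : ℝ} (h0 : 0 < θ)
    (hT2 : 0 ≤ T2) (hLb : 0 ≤ Lb)
    (hL : ∀ c : ℤ, by
      classical
      exact ∑ s ∈ P.powerset.filter (fun s => T1 < md s ∧ (md s : ℝ) ≤ T2 ∧ ∀ p ∈ s, ¬ (p : ℤ) ∣ c),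
        (md s : ℝ) * Gp s c ≤ Lb) :
    ∑ s ∈ P.powerset.filter (fun s => (md s : ℝ) ≤ T2), ∑ c ∈ CC s, Gp s c * bk θ (md s) c ≤
      (8 * θ * |T1| + 4 * θ / c0 * T2) * ∏ p ∈ P, (1 + lp p) + 4 * (1 + Real.log c0) * Lb := by
  classical
  have hprod : ∀ s : Finset ℕ, 0 ≤ ∏ p ∈ s, lp p := fun s => prod_nonneg fun p _ => lp_nonneg p
  have hterm : ∀ s, 0 ≤ ∑ c ∈ CC s, Gp s c * bk θ (md s) c :=
    fun s => sum_nonneg fun c _ => mul_nonneg (Gp_nonneg s c) (bk_nonneg h0.le _ _)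
  -- splitting
  have e1 : ∑ s ∈ P.powerset.filter (fun s => (md s : ℝ) ≤ T2), ∑ c ∈ CC s, Gp s c * bk θ (md s) c ≤
      ∑ s ∈ P.powerset.filter (fun s => (md s : ℝ) ≤ T1), ∑ c ∈ CC s, Gp s c * bk θ (md s) c +
      ∑ s ∈ P.powerset.filter (fun s => T1 < md s ∧ (md s : ℝ) ≤ T2), ∑ c ∈ CC s, Gp s c * bk θ (md s) c := by
    have hsub : P.powerset.filter (fun s => (md s : ℝ) ≤ T2) ⊆
        P.powerset.filter (fun s => (md s : ℝ) ≤ T1) ∪
        P.powerset.filter (fun s => T1 < md s ∧ (md s : ℝ) ≤ T2) := by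
      intro s hs
      rw [mem_filter] at hs
      rw [mem_union, mem_filter, mem_filter]
      rcases le_or_gt (md s : ℝ) T1 with h | h
      · left; exact ⟨hs.1, h⟩
      · right; exact ⟨hs.1, h, hs.2⟩
    refine (sum_le_sum_of_subset_of_nonneg hsub fun s _ _ => hterm s).trans ?_
    rw [← sum_union_inter]
    have : 0 ≤ ∑ s ∈ P.powerset.filter (fun s => (md s : ℝ) ≤ T1) ∩
        P.powerset.filter (fun s => T1 < md s ∧ (md s : ℝ) ≤ T2), ∑ c ∈ CC s, Gp s c * bk θ (md s) c :=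
      sum_nonneg fun s _ => hterm s
    linarith
  -- small moduli
  have e2 : ∑ s ∈ P.powerset.filter (fun s => (md s : ℝ) ≤ T1), ∑ c ∈ CC s, Gp s c * bk θ (md s) c ≤
      8 * θ * |T1| * ∏ p ∈ P, (1 + lp p) := by
    have h1 : ∀ s ∈ P.powerset.filter (fun s => (md s : ℝ) ≤ T1), ∑ c ∈ CC s, Gp s c * bk θ (md s) c ≤
        8 * θ * |T1| * ∏ p ∈ s, lp p := by
      intro s hs
      rw [mem_filter] at hs
      refine (all_sum h0.le).trans ?_
      have h2 : (md s : ℝ) ≤ |T1| := hs.2.trans (le_abs_self _)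
      have h3 := mul_le_mul_of_nonneg_right h2 (hprod s)
      calc 8 * θ * (md s * ∏ p ∈ s, lp p) ≤ 8 * θ * (|T1| * ∏ p ∈ s, lp p) :=
            mul_le_mul_of_nonneg_left h3 (by positivity)
        _ = _ := by ring
    refine (sum_le_sum h1).trans ?_
    rw [← mul_sum, ← sum_powerset]
    apply mul_le_mul_of_nonneg_left _ (by positivity)
    exact sum_le_sum_of_subset_of_nonneg (filter_subset _ _) fun s _ _ => hprod s
  -- medium moduli
  have e3 : ∑ s ∈ P.powerset.filter (fun s => T1 < md s ∧ (md s : ℝ) ≤ T2), ∑ c ∈ CC s, Gp s c * bk θ (md s) c ≤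
      4 * θ / c0 * T2 * ∏ p ∈ P, (1 + lp p) + 4 * (1 + Real.log c0) * Lb := by
    have h1 : ∀ s, ∑ c ∈ CC s, Gp s c * bk θ (md s) c =
        ∑ c ∈ (CC s).filter (fun c => c0 < c.natAbs), Gp s c * bk θ (md s) c +
        ∑ c ∈ (CC s).filter (fun c => ¬ c0 < c.natAbs), Gp s c * bk θ (md s) c := fun s =>
      (sum_filter_add_sum_filter_not _ _ _).symm
    rw [sum_congr rfl (fun s _ => h1 s), sum_add_distrib]
    apply add_le_add
    · have h2 : ∀ s ∈ P.powerset.filter (fun s => T1 < md s ∧ (md s : ℝ) ≤ T2),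
          ∑ c ∈ (CC s).filter (fun c => c0 < c.natAbs), Gp s c * bk θ (md s) c ≤
          4 * θ / c0 * T2 * ∏ p ∈ s, lp p := by
        intro s hs
        rw [mem_filter] at hs
        refine (far_sum h0.le c0 (by omega)).trans ?_
        have h3 := mul_le_mul_of_nonneg_right hs.2.2 (hprod s)
        calc 4 * θ / c0 * (md s * ∏ p ∈ s, lp p) ≤ 4 * θ / c0 * (T2 * ∏ p ∈ s, lp p) :=
              mul_le_mul_of_nonneg_left h3 (by positivity)
          _ = _ := by ring
      refine (sum_le_sum h2).trans ?_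
      rw [← mul_sum, ← sum_powerset]
      apply mul_le_mul_of_nonneg_left _ (by positivity)
      exact sum_le_sum_of_subset_of_nonneg (filter_subset _ _) fun s _ _ => hprod s
    · set I : Finset ℤ := (Icc (-(c0 : ℤ)) c0).filter (fun c => c ≠ 0) with hI
      have h2 : ∀ s, ∑ c ∈ (CC s).filter (fun c => ¬ c0 < c.natAbs), Gp s c * bk θ (md s) c ≤
          ∑ c ∈ I, if ∀ p ∈ s, ¬ (p : ℤ) ∣ c then 2 * (1 / (c.natAbs : ℝ)) * ((md s : ℝ) * Gp s c) else 0 := by
        intro s
        have h3 : ∀ c ∈ (CC s).filter (fun c => ¬ c0 < c.natAbs), Gp s c * bk θ (md s) c ≤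
            if ∀ p ∈ s, ¬ (p : ℤ) ∣ c then 2 * (1 / (c.natAbs : ℝ)) * ((md s : ℝ) * Gp s c) else 0 := by
          intro c hc
          rw [mem_filter, mem_CC] at hc
          rw [if_pos hc.1.2.2]
          have h4 := mul_le_mul_of_nonneg_left (bk_le_inv (θ := θ) (md s) c) (Gp_nonneg s c)
          refine h4.trans (le_of_eq ?_)
          ring
        refine (sum_le_sum h3).trans ?_
        apply sum_le_sum_of_subset_of_nonneg
        · intro c hc
          rw [mem_filter] at hc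
          have h5 := CC_ne hc.1
          rw [hI, mem_filter, mem_Icc]
          omega
        · intro c _ _
          split_ifs
          · exact mul_nonneg (by positivity) (mul_nonneg (Nat.cast_nonneg _) (Gp_nonneg s c))
          · exact le_rfl
      refine (sum_le_sum fun s _ => h2 s).trans ?_
      rw [sum_comm]
      have h3 : ∀ c ∈ I, ∑ s ∈ P.powerset.filter (fun s => T1 < md s ∧ (md s : ℝ) ≤ T2),
          (if ∀ p ∈ s, ¬ (p : ℤ) ∣ c then 2 * (1 / (c.natAbs : ℝ)) * ((md s : ℝ) * Gp s c) else 0) ≤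
          2 * Lb * (1 / (c.natAbs : ℝ)) := by
        intro c _
        rw [← sum_filter, filter_filter, ← mul_sum]
        have h4 := hL c
        have h5 : P.powerset.filter (fun s => (T1 < md s ∧ (md s : ℝ) ≤ T2) ∧ ∀ p ∈ s, ¬ (p : ℤ) ∣ c) =
            P.powerset.filter (fun s => T1 < md s ∧ (md s : ℝ) ≤ T2 ∧ ∀ p ∈ s, ¬ (p : ℤ) ∣ c) := by
          apply filter_congr
          intro s _
          tauto
        rw [h5]
        calc _ ≤ 2 * (1 / (c.natAbs : ℝ)) * Lb := mul_le_mul_of_nonneg_left h4 (by positivity)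
          _ = _ := by ring
      refine (sum_le_sum h3).trans ?_
      rw [← mul_sum]
      have h4 := sum_int_le I (fun n => 1 / (n : ℝ)) (fun n => by positivity) (Icc 1 c0) (by
        intro c hc
        rw [hI, mem_filter, mem_Icc] at hc
        rw [mem_Icc]
        omega)
      have h5 := harm c0 hc0
      calc 2 * Lb * ∑ c ∈ I, 1 / (c.natAbs : ℝ) ≤ 2 * Lb * (2 * (1 + Real.log c0)) :=
            mul_le_mul_of_nonneg_left (h4.trans (mul_le_mul_of_nonneg_left h5 (by norm_num))) (by positivity)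
        _ = _ := by ring
  refine e1.trans ?_
  have : (8 * θ * |T1| + 4 * θ / c0 * T2) * ∏ p ∈ P, (1 + lp p) =
      8 * θ * |T1| * ∏ p ∈ P, (1 + lp p) + 4 * θ / c0 * T2 * ∏ p ∈ P, (1 + lp p) := by ring
  rw [this]
  linarith

end Pool.Agent.K9h56.TC
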