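import Pool.Agent.K9h56.TC.Bds
import Pool.Agent.K9h56.TC.Tot
import Pool.Agent.K9h56.TC.Phy

set_option autoImplicit false
set_option linter.unusedSectionVars false
set_option linter.style.haveILetI false

/-! The alternating sum: finite form. -/

namespace Pool.Agent.K9h56.TC

open Finset Filter Topology Pool.Agent.K9h56.TB

/-- the alternating sum -/
noncomputable def alt (P : Finset ℕ) (θ : ℝ) : ℝ :=
  ∑' k : ℕ, (-1 : ℝ) ^ (k + 1) * (1 - θ) ^ k * ∏ p ∈ P, (1 + cp p (k + 1))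

lemma cs_zero_nonneg {s : Finset ℕ} (hs : IsPr s) : 0 ≤ cs s 0 := by
  unfold cs
  apply prod_nonneg
  intro p hp
  have h5' : (5 : ℝ) ≤ p := by exact_mod_cast (hs p hp).2
  unfold cp nu
  rw [if_pos (dvd_zero p)]
  have h2 : (p : ℝ) - 2 ≠ 0 := by linarith
  have h3 : (p : ℝ) ≠ 0 := by linarith
  have e : (1 - ((2 : ℕ) : ℝ) / p) / (1 - 2 / (p : ℝ)) ^ 2 - 1 = 2 / ((p : ℝ) - 2) := by
    have h4 : 1 - 2 / (p : ℝ) ≠ 0 := by
      rw [one_sub_div h3]; exact div_ne_zero h2 h3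
    push_cast
    field_simp
    ring
  rw [e]
  exact div_nonneg (by norm_num) (by linarith)

theorem core (P : Finset ℕ) (hP : IsPr P) {θ T Bt : ℝ} (h0 : 0 < θ) (h1 : θ ≤ 1 / 2) (hT : 0 < T)
    (hBt : ∑ s ∈ P.powerset.filter (fun s => (md s : ℝ) ≤ T), ∑ c ∈ CC s, Gp s c * bk θ (md s) c ≤ Bt) :
    Summable (fun k : ℕ => (-1 : ℝ) ^ (k + 1) * (1 - θ) ^ k * ∏ p ∈ P, (1 + cp p (k + 1))) ∧
    |2 * alt P θ + ∑ s ∈ P.powerset.filter (fun s => (md s : ℝ) ≤ T), cs s 0| ≤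
      2 * θ * (∑ s ∈ P.powerset.filter (fun s => (md s : ℝ) ≤ T), cs s 0) + Bt +
      2 * (13 / (θ * T) * (∏ p ∈ P, (1 + lp p)) * ∏ p ∈ P, (1 + 124 / (p : ℝ))) := by
  set A := P.powerset.filter (fun s => (md s : ℝ) ≤ T) with hA
  set B := P.powerset.filter (fun s => T < (md s : ℝ)) with hB
  have hsub : ∀ s ∈ P.powerset, IsPr s := fun s hs p hp => hP p (mem_powerset.1 hs hp)
  have hAs : ∀ s ∈ A, IsPr s := fun s hs => hsub s (mem_filter.1 hs).1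
  -- the terms
  have hterm : ∀ s ∈ P.powerset, Summable (fun k : ℕ => (-1 : ℝ) ^ (k + 1) * (1 - θ) ^ k * cs s (k + 1)) ∧
      2 * ∑' k : ℕ, (-1 : ℝ) ^ (k + 1) * (1 - θ) ^ k * cs s (k + 1) ≤
        - cs s 0 + ∑ c ∈ CC s, Gp s c * bk θ (md s) c ∧
      - cs s 0 - 2 * θ * cs s 0 ≤ 2 * ∑' k : ℕ, (-1 : ℝ) ^ (k + 1) * (1 - θ) ^ k * cs s (k + 1) := by
    intro s hs
    have hs' := hsub s hs
    haveI := neZero_of hs'
    obtain ⟨a1, a2⟩ := Ts_eq hs' h0 (by linarith : θ < 1)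
    refine ⟨a1, ?_, ?_⟩
    · rw [a2]
      have := tiny_upper hs' h0 h1
      have e : ∑ c ∈ CC s, Gc s c * bk θ (md s) c = ∑ c ∈ CC s, Gp s c * bk θ (md s) c :=
        sum_congr rfl fun c _ => by rw [Gc_eq]
      rw [e] at this
      linarith
    · rw [a2]
      have := tiny_lower hs' h0 h1
      linarith
  have hph := phys hP h0 h1 hT
  -- expansion
  have hexp : ∀ k : ℕ, (-1 : ℝ) ^ (k + 1) * (1 - θ) ^ k * ∏ p ∈ P, (1 + cp p (k + 1)) =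
      ∑ s ∈ A, ((-1 : ℝ) ^ (k + 1) * (1 - θ) ^ k * cs s (k + 1)) +
      (-1 : ℝ) ^ (k + 1) * (1 - θ) ^ k * ∑ s ∈ B, cs s (k + 1) := by
    intro k
    rw [prod_one_add]
    have e1 : ∑ t ∈ P.powerset, ∏ i ∈ t, cp i (k + 1) = ∑ s ∈ A, cs s (k + 1) + ∑ s ∈ B, cs s (k + 1) := by
      rw [← sum_filter_add_sum_filter_not P.powerset (fun s => (md s : ℝ) ≤ T)]
      congr 1
      rw [hB]
      apply sum_congr _ (fun _ _ => rfl)
      apply filter_congr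
      intro s _
      exact not_le
    rw [e1, mul_add, mul_sum]
  have hsA : Summable (fun k : ℕ => ∑ s ∈ A, ((-1 : ℝ) ^ (k + 1) * (1 - θ) ^ k * cs s (k + 1))) :=
    summable_sum fun s hs => (hterm s (mem_filter.1 hs).1).1
  have hnorm : ∀ k : ℕ, ‖(-1 : ℝ) ^ (k + 1) * (1 - θ) ^ k * ∑ s ∈ B, cs s (k + 1)‖ ≤
      (1 - θ) ^ k * ∑ s ∈ B, |cs s (k + 1)| := by
    intro k
    rw [norm_mul, norm_mul, norm_pow, norm_neg, norm_one, one_pow, one_mul, Real.norm_of_nonneg (pow_nonneg (by linarith) k)]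
    apply mul_le_mul_of_nonneg_left _ (pow_nonneg (by linarith) k)
    exact abs_sum_le_sum_abs _ _
  have hsB : Summable (fun k : ℕ => (-1 : ℝ) ^ (k + 1) * (1 - θ) ^ k * ∑ s ∈ B, cs s (k + 1)) :=
    Summable.of_norm_bounded hph.1 hnorm
  have hsum : Summable (fun k : ℕ => (-1 : ℝ) ^ (k + 1) * (1 - θ) ^ k * ∏ p ∈ P, (1 + cp p (k + 1))) := by
    simp only [hexp]
    exact hsA.add hsB
  refine ⟨hsum, ?_⟩
  have halt : alt P θ = ∑ s ∈ A, ∑' k : ℕ, ((-1 : ℝ) ^ (k + 1) * (1 - θ) ^ k * cs s (k + 1)) +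
      ∑' k : ℕ, (-1 : ℝ) ^ (k + 1) * (1 - θ) ^ k * ∑ s ∈ B, cs s (k + 1) := by
    unfold alt
    simp only [hexp]
    rw [hsA.tsum_add hsB, Summable.tsum_finsetSum fun s hs => (hterm s (mem_filter.1 hs).1).1]
  have hBb : |∑' k : ℕ, (-1 : ℝ) ^ (k + 1) * (1 - θ) ^ k * ∑ s ∈ B, cs s (k + 1)| ≤
      13 / (θ * T) * (∏ p ∈ P, (1 + lp p)) * ∏ p ∈ P, (1 + 124 / (p : ℝ)) := by
    have h2 := tsum_of_norm_bounded hph.1.hasSum hnorm
    exact h2.trans hph.2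
  have hu := sum_le_sum fun s (hs : s ∈ A) => (hterm s (mem_filter.1 hs).1).2.1
  have hl := sum_le_sum fun s (hs : s ∈ A) => (hterm s (mem_filter.1 hs).1).2.2
  rw [sum_add_distrib, sum_neg_distrib, ← mul_sum] at hu
  rw [sum_sub_distrib, sum_neg_distrib, ← mul_sum, ← mul_sum] at hl
  have hM : 0 ≤ ∑ s ∈ A, cs s 0 := sum_nonneg fun s hs => cs_zero_nonneg (hAs s hs)
  have hBt0 : 0 ≤ Bt := le_trans (sum_nonneg fun s _ => sum_nonneg fun c _ =>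
    mul_nonneg (Gp_nonneg s c) (bk_nonneg h0.le _ _)) hBt
  have hb := abs_le.1 hBb
  have hθM : 0 ≤ 2 * θ * ∑ s ∈ A, cs s 0 := by positivity
  rw [halt, abs_le]
  constructor
  · linarith
  · linarith

end Pool.Agent.K9h56.TC
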