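import Pool.Agent.K9h56.TC.Tiny

set_option autoImplicit false
set_option linter.unusedSectionVars false
set_option linter.style.haveILetI false

/-! Rankin's trick and the sums over the numerators. -/

namespace Pool.Agent.K9h56.TC

open Finset Pool.Agent.K9h56.TB

/-- the trivial bound of the local factor -/
noncomputable def lp (p : ℕ) : ℝ := 4 * p / ((p : ℝ) - 2) ^ 2

lemma lp_nonneg (p : ℕ) : 0 ≤ lp p := by unfold lp; positivity

open Classical in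
/-- the local norm -/
noncomputable def ph (p : ℕ) (x : ZMod p) : ℝ :=
  if h : p ≠ 0 then (haveI : NeZero p := ⟨h⟩; ‖(1 : ℂ) + ZMod.stdAddChar x‖ ^ 2) else 0

lemma ph_eq {p : ℕ} [NeZero p] (x : ZMod p) : ph p x = ‖(1 : ℂ) + ZMod.stdAddChar x‖ ^ 2 := by
  unfold ph
  rw [dif_pos (NeZero.ne p)]

lemma ph_nonneg (p : ℕ) (x : ZMod p) : 0 ≤ ph p x := by
  unfold ph
  split_ifs with h
  · positivity
  · exact le_rfl

lemma ph_le (p : ℕ) (x : ZMod p) : ph p x ≤ 4 := by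
  unfold ph
  split_ifs with h
  · haveI : NeZero p := ⟨h⟩
    exact norm_sq_le x
  · norm_num

/-- the coefficient, without instances -/
noncomputable def Gp (s : Finset ℕ) (c : ℤ) : ℝ :=
  ∏ p ∈ s, (ph p ((c : ZMod p) * ((6 * (md s / p) : ℕ) : ZMod p)⁻¹) / ((p : ℝ) - 2) ^ 2)

lemma Gc_eq {s : Finset ℕ} [∀ i : ↥s, NeZero (i : ℕ)] (c : ℤ) : Gc s c = Gp s c := by
  unfold Gc Gp
  rw [← prod_coe_sort s]
  apply prod_congr rfl
  intro i _
  rw [ph_eq]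

lemma Gp_nonneg (s : Finset ℕ) (c : ℤ) : 0 ≤ Gp s c :=
  prod_nonneg fun _ _ => div_nonneg (ph_nonneg _ _) (sq_nonneg _)

lemma md_cast (s : Finset ℕ) : (md s : ℝ) = ∏ p ∈ s, (p : ℝ) := by
  unfold md; push_cast; rfl

lemma md_Gp (s : Finset ℕ) (c : ℤ) : (md s : ℝ) * Gp s c ≤ ∏ p ∈ s, lp p := by
  rw [md_cast]
  unfold Gp
  rw [← prod_mul_distrib]
  apply prod_le_prod
  · intro p _
    exact mul_nonneg (Nat.cast_nonneg _) (div_nonneg (ph_nonneg _ _) (sq_nonneg _))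
  · intro p _
    unfold lp
    rw [mul_div_assoc', mul_comm (4 : ℝ)]
    exact div_le_div_of_nonneg_right (mul_le_mul_of_nonneg_left (ph_le _ _) (Nat.cast_nonneg _)) (sq_nonneg _)

lemma sum_powerset (P : Finset ℕ) (h : ℕ → ℝ) : ∑ s ∈ P.powerset, ∏ p ∈ s, h p = ∏ p ∈ P, (1 + h p) :=
  (prod_one_add P).symm

/-- Rankin's trick -/
lemma rankin (P : Finset ℕ) (h : ℕ → ℝ) (hh : ∀ p, 0 ≤ h p) (W : ℕ → Prop) [DecidablePred W]
    {ε T : ℝ} (hε : 0 < ε) (hT : 0 < T) (hW : ∀ p ∈ P, W p → (p : ℝ) ^ ε ≤ 3) :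
    ∑ s ∈ P.powerset.filter (fun s => T < (md (s.filter W) : ℝ)), ∏ p ∈ s, h p ≤
      T ^ (-ε) * ∏ p ∈ P, (1 + 3 * h p) := by
  have e1 : ∀ s ∈ P.powerset.filter (fun s => T < (md (s.filter W) : ℝ)), ∏ p ∈ s, h p ≤
      T ^ (-ε) * ∏ p ∈ s, (3 * h p) := by
    intro s hs
    rw [mem_filter, mem_powerset] at hs
    have h1 : (1 : ℝ) ≤ T ^ (-ε) * (md (s.filter W) : ℝ) ^ ε := by
      rw [Real.rpow_neg hT.le, ← div_eq_inv_mul, ← Real.div_rpow (Nat.cast_nonneg _) hT.le]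
      apply Real.one_le_rpow _ hε.le
      rw [one_le_div hT]; exact hs.2.le
    have h2 : (md (s.filter W) : ℝ) ^ ε ≤ ∏ p ∈ s, (3 : ℝ) := by
      rw [md_cast, ← Real.finsetProd_rpow _ _ (fun p _ => Nat.cast_nonneg p)]
      calc ∏ p ∈ s.filter W, (p : ℝ) ^ ε ≤ ∏ p ∈ s.filter W, (3 : ℝ) := by
            apply prod_le_prod
            · intro p _; positivity
            · intro p hp
              rw [mem_filter] at hp
              exact hW p (hs.1 hp.1) hp.2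
        _ ≤ ∏ p ∈ s, (3 : ℝ) := by
          rw [prod_const, prod_const]
          exact pow_le_pow_right₀ (by norm_num) (card_le_card (filter_subset _ _))
    have h3 : 0 ≤ ∏ p ∈ s, h p := prod_nonneg fun p _ => hh p
    have hTp : 0 < T ^ (-ε) := Real.rpow_pos_of_pos hT _
    calc ∏ p ∈ s, h p = 1 * ∏ p ∈ s, h p := (one_mul _).symm
      _ ≤ (T ^ (-ε) * (md (s.filter W) : ℝ) ^ ε) * ∏ p ∈ s, h p := mul_le_mul_of_nonneg_right h1 h3
      _ ≤ (T ^ (-ε) * ∏ p ∈ s, (3 : ℝ)) * ∏ p ∈ s, h p := by gcongr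
      _ = T ^ (-ε) * ∏ p ∈ s, (3 * h p) := by rw [prod_mul_distrib]; ring
  refine (sum_le_sum e1).trans ?_
  rw [← mul_sum]
  apply mul_le_mul_of_nonneg_left _ (Real.rpow_nonneg hT.le _)
  rw [← sum_powerset]
  apply sum_le_sum_of_subset_of_nonneg (filter_subset _ _)
  intro s _ _
  exact prod_nonneg fun p _ => mul_nonneg (by norm_num) (hh p)

/-! ### Sums over the numerators -/

lemma sum_inv_sq (a n : ℕ) (ha : 0 < a) : ∑ k ∈ Ioc a n, 1 / (k : ℝ) ^ 2 ≤ 1 / (a : ℝ) := by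
  have h1 : ∀ n : ℕ, a ≤ n → ∑ m ∈ Ioc a n, (1 : ℝ) / (m : ℝ) ^ 2 ≤ 1 / a - 1 / (n : ℝ) := by
    intro n hn
    induction n, hn using Nat.le_induction with
    | base => simp
    | succ n hn ih =>
      rw [sum_Ioc_succ_top (by omega)]
      have hn' : (0 : ℝ) < n := by exact_mod_cast (by omega : 0 < n)
      have h2 : (1 : ℝ) / ((n + 1 : ℕ) : ℝ) ^ 2 ≤ 1 / (n : ℝ) - 1 / ((n + 1 : ℕ) : ℝ) := by
        push_cast
        rw [div_sub_div _ _ (by positivity) (by positivity), div_le_div_iff₀ (by positivity) (by positivity)]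
        nlinarith
      linarith
  rcases le_or_gt a n with h | h
  · have := h1 n h
    have : 0 ≤ 1 / (n : ℝ) := by positivity
    linarith [h1 n h]
  · rw [Ioc_eq_empty (by omega), sum_empty]; positivity

/-- folding a sum over nonzero integers -/
lemma sum_int_le (S : Finset ℤ) (f : ℕ → ℝ) (hf : ∀ n, 0 ≤ f n) (T : Finset ℕ) (hS : ∀ c ∈ S, c.natAbs ∈ T) :
    ∑ c ∈ S, f c.natAbs ≤ 2 * ∑ n ∈ T, f n := by
  classical
  rw [← sum_fiberwise_of_maps_to hS, mul_sum]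
  apply sum_le_sum
  intro n _
  have h1 : ∀ c ∈ S.filter (fun c => c.natAbs = n), f c.natAbs = f n := by
    intro c hc
    rw [mem_filter] at hc
    rw [hc.2]
  rw [sum_congr rfl h1, sum_const, nsmul_eq_mul]
  apply mul_le_mul_of_nonneg_right _ (hf n)
  have h2 : S.filter (fun c => c.natAbs = n) ⊆ {(n : ℤ), -(n : ℤ)} := by
    intro c hc
    rw [mem_filter] at hc
    rw [mem_insert, mem_singleton]
    exact Int.natAbs_eq_iff.1 hc.2
  have h3 := (card_le_card h2).trans (card_le_two)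
  exact_mod_cast h3

lemma bk_le_sq {θ : ℝ} (m : ℕ) (c : ℤ) : bk θ m c ≤ 2 * θ * (m : ℝ) ^ 2 * (1 / (c.natAbs : ℝ) ^ 2) := by
  unfold bk
  refine (min_le_right _ _).trans (le_of_eq ?_)
  have : ((c.natAbs : ℕ) : ℝ) ^ 2 = (c : ℝ) ^ 2 := by
    rw [Nat.cast_natAbs, Int.cast_abs, sq_abs]
  rw [this]
  ring

lemma bk_le_inv {θ : ℝ} (m : ℕ) (c : ℤ) : bk θ m c ≤ 2 * (m : ℝ) * (1 / (c.natAbs : ℝ)) := by
  unfold bk
  refine (min_le_left _ _).trans (le_of_eq ?_)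
  have : ((c.natAbs : ℕ) : ℝ) = |(c : ℝ)| := by
    rw [Nat.cast_natAbs, Int.cast_abs]
  rw [this]
  ring

lemma CC_ne {s : Finset ℕ} {c : ℤ} (hc : c ∈ CC s) : 0 < c.natAbs := by
  rw [mem_CC] at hc
  rw [Int.natAbs_pos]
  rintro rfl
  exact absurd hc.2.1 (by decide)

/-- all numerators beyond `a` -/
lemma far_sum {s : Finset ℕ} {θ : ℝ} (h0 : 0 ≤ θ) (a : ℕ) (ha : 0 < a) :
    ∑ c ∈ (CC s).filter (fun c => a < c.natAbs), Gp s c * bk θ (md s) c ≤
      4 * θ / a * (md s * ∏ p ∈ s, lp p) := by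
  have h1 : ∀ c ∈ (CC s).filter (fun c => a < c.natAbs), Gp s c * bk θ (md s) c ≤
      (2 * θ * (md s * ∏ p ∈ s, lp p)) * (1 / (c.natAbs : ℝ) ^ 2) := by
    intro c _
    have h2 := mul_le_mul_of_nonneg_left (bk_le_sq (θ := θ) (md s) c) (Gp_nonneg s c)
    refine h2.trans ?_
    have h3 := md_Gp s c
    have h4 : Gp s c * (2 * θ * (md s : ℝ) ^ 2 * (1 / (c.natAbs : ℝ) ^ 2)) =
        (2 * θ * (md s * ((md s : ℝ) * Gp s c))) * (1 / (c.natAbs : ℝ) ^ 2) := by ring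
    rw [h4]
    gcongr
  refine (sum_le_sum h1).trans ?_
  rw [← mul_sum]
  have h2 := sum_int_le ((CC s).filter (fun c => a < c.natAbs)) (fun n => 1 / (n : ℝ) ^ 2) (fun n => by positivity)
    (Ioc a (md s)) (by
      intro c hc
      rw [mem_filter, mem_CC] at hc
      rw [mem_Ioc]
      refine ⟨hc.2, ?_⟩
      have h5 : (c.natAbs : ℤ) ≤ md s := by rw [Int.natCast_natAbs]; exact hc.1.1
      omega)
  have h3 := sum_inv_sq a (md s) ha
  have h4 : 0 ≤ 2 * θ * (md s * ∏ p ∈ s, lp p) :=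
    mul_nonneg (by positivity) (mul_nonneg (Nat.cast_nonneg _) (prod_nonneg fun p _ => lp_nonneg p))
  calc _ ≤ 2 * θ * (md s * ∏ p ∈ s, lp p) * (2 * (1 / a)) :=
        mul_le_mul_of_nonneg_left (h2.trans (mul_le_mul_of_nonneg_left h3 (by norm_num))) h4
    _ = _ := by ring

/-- all numerators -/
lemma all_sum {s : Finset ℕ} {θ : ℝ} (h0 : 0 ≤ θ) :
    ∑ c ∈ CC s, Gp s c * bk θ (md s) c ≤ 8 * θ * (md s * ∏ p ∈ s, lp p) := by
  have h1 : ∀ c ∈ CC s, Gp s c * bk θ (md s) c ≤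
      (2 * θ * (md s * ∏ p ∈ s, lp p)) * (1 / (c.natAbs : ℝ) ^ 2) := by
    intro c _
    have h2 := mul_le_mul_of_nonneg_left (bk_le_sq (θ := θ) (md s) c) (Gp_nonneg s c)
    refine h2.trans ?_
    have h3 := md_Gp s c
    have h4 : Gp s c * (2 * θ * (md s : ℝ) ^ 2 * (1 / (c.natAbs : ℝ) ^ 2)) =
        (2 * θ * (md s * ((md s : ℝ) * Gp s c))) * (1 / (c.natAbs : ℝ) ^ 2) := by ring
    rw [h4]
    gcongr
  refine (sum_le_sum h1).trans ?_
  rw [← mul_sum]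
  have h2 := sum_int_le (CC s) (fun n => 1 / (n : ℝ) ^ 2) (fun n => by positivity)
    (insert 1 (Ioc 1 (md s))) (by
      intro c hc
      have hc0 := CC_ne hc
      rw [mem_CC] at hc
      rw [mem_insert, mem_Ioc]
      have h5 : (c.natAbs : ℤ) ≤ md s := by rw [Int.natCast_natAbs]; exact hc.1
      omega)
  have h3 := sum_inv_sq 1 (md s) one_pos
  rw [sum_insert (by simp)] at h2
  have h4 : 0 ≤ 2 * θ * (md s * ∏ p ∈ s, lp p) :=
    mul_nonneg (by positivity) (mul_nonneg (Nat.cast_nonneg _) (prod_nonneg fun p _ => lp_nonneg p))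
  have h5 : ∑ c ∈ CC s, 1 / ((c.natAbs : ℕ) : ℝ) ^ 2 ≤ 4 := by
    refine h2.trans ?_
    norm_num at h3 ⊢
    linarith
  calc _ ≤ 2 * θ * (md s * ∏ p ∈ s, lp p) * 4 := mul_le_mul_of_nonneg_left h5 h4
    _ = _ := by ring

end Pool.Agent.K9h56.TC
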