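import Pool.Agent.K9h56.TC.Cvl
import Pool.Agent.K9h56.TC.Rank
import Pool.Agent.H305R2.MertensE

set_option autoImplicit false
set_option linter.unusedSectionVars false
set_option linter.style.haveILetI false

/-! The constants. -/

namespace Pool.Agent.K9h56.TC

open Finset Filter Topology Pool.Agent.K9h56.TB

/-- the Mertens product -/
noncomputable def Vn (N : ℕ) : ℝ := ∏ p ∈ (Icc 1 N).filter Nat.Prime, (1 - (p : ℝ)⁻¹)⁻¹

lemma Vn_tendsto : Tendsto (fun N : ℕ => Vn N / Real.log N) atTop (𝓝 (Real.exp Real.eulerMascheroniConstant)) :=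
  Pool.Agent.H305R2.mertens_three

lemma one_sub_inv_pos {p : ℕ} (hp : p.Prime) : 0 < 1 - (p : ℝ)⁻¹ := by
  have : (2 : ℝ) ≤ p := by exact_mod_cast hp.two_le
  have h : (p : ℝ)⁻¹ ≤ 2⁻¹ := inv_anti₀ (by norm_num) this
  linarith [show (2 : ℝ)⁻¹ = 1 / 2 by norm_num]

lemma Vn_pos (N : ℕ) : 0 < Vn N := prod_pos fun _ hp => inv_pos.2 (one_sub_inv_pos (mem_filter.1 hp).2)

lemma dz_pos' (z : ℕ) : 0 < dz z := by
  unfold dz
  apply prod_pos
  intro p hp
  unfold pr5 at hp
  rw [mem_filter, mem_Icc] at hp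
  have : (5 : ℝ) ≤ p := by exact_mod_cast hp.1.1
  rw [one_sub_div (by linarith)]
  exact div_pos (by linarith) (by linarith)

lemma prod_eq (z : ℕ) :
    ∏ p ∈ (z + 1).primesBelow, ((1 - 1 / (p : ℝ)) ^ 2 * (1 + fp p / p)) = ((Vn z) ^ 2 * dz z)⁻¹ := by
  have e0 : (z + 1).primesBelow = (Icc 1 z).filter Nat.Prime := by
    ext p
    rw [Nat.mem_primesBelow, mem_filter, mem_Icc]
    constructor
    · rintro ⟨h1, h2⟩; exact ⟨⟨h2.one_le, by omega⟩, h2⟩
    · rintro ⟨h1, h2⟩; exact ⟨by omega, h2⟩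
  rw [e0, prod_mul_distrib, mul_inv]
  congr 1
  · unfold Vn
    rw [prod_inv_distrib, inv_pow, inv_inv, prod_pow]
    simp only [one_div]
  · have e1 : pr5 z ⊆ (Icc 1 z).filter Nat.Prime := by
      intro p hp
      unfold pr5 at hp
      rw [mem_filter, mem_Icc] at hp ⊢
      exact ⟨⟨by omega, hp.1.2⟩, hp.2⟩
    rw [← prod_subset e1]
    · unfold dz
      rw [← prod_inv_distrib]
      apply prod_congr rfl
      intro p hp
      unfold pr5 at hp
      rw [mem_filter, mem_Icc] at hp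
      have : (5 : ℝ) ≤ p := by exact_mod_cast hp.1.1
      unfold fp
      rw [if_pos hp.1.1]
      have h2 : (p : ℝ) - 2 ≠ 0 := by linarith
      have h3 : (p : ℝ) ≠ 0 := by linarith
      rw [one_sub_div h3, inv_div]
      field_simp
      ring
    · intro p hp hp2
      have : ¬ 5 ≤ p := by
        intro h
        apply hp2
        unfold pr5
        rw [mem_filter, mem_Icc] at hp ⊢
        exact ⟨⟨h, hp.1.2⟩, hp.2⟩
      unfold fp
      rw [if_neg this]
      simp

lemma Bc_tendsto : Tendsto (fun z : ℕ => ((Vn z) ^ 2 * dz z)⁻¹) atTop (𝓝 Bc) := by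
  have h := Bc_prod.comp (tendsto_add_atTop_nat 1)
  exact h.congr fun z => prod_eq z

lemma Bc_pos : 1 / 9 ≤ Bc := by
  have h := Bc_prod.comp (tendsto_add_atTop_nat 1)
  apply ge_of_tendsto h
  filter_upwards [eventually_ge_atTop 5] with z hz
  simp only [Function.comp]
  have e0 : (z + 1).primesBelow = insert 2 (insert 3 (pr5 z)) := by
    ext p
    rw [Nat.mem_primesBelow, mem_insert, mem_insert]
    unfold pr5
    rw [mem_filter, mem_Icc]
    constructor
    · rintro ⟨h1, h2⟩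
      have h3 := h2.two_le
      by_cases h4 : 5 ≤ p
      · right; right; exact ⟨⟨h4, by omega⟩, h2⟩
      · have h5 : p = 2 ∨ p = 3 ∨ p = 4 := by omega
        rcases h5 with h5 | h5 | h5
        · left; exact h5
        · right; left; exact h5
        · rw [h5] at h2; exact absurd h2 (by norm_num)
    · rintro (h1 | h1 | ⟨h1, h2⟩)
      · subst h1; exact ⟨by omega, Nat.prime_two⟩
      · subst h1; exact ⟨by omega, Nat.prime_three⟩
      · exact ⟨by omega, h2⟩
  have n3 : 3 ∉ pr5 z := by unfold pr5; simp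
  have n2 : 2 ∉ insert 3 (pr5 z) := by unfold pr5; simp
  rw [e0, prod_insert n2, prod_insert n3]
  have h1 : (1 : ℝ) ≤ ∏ p ∈ pr5 z, ((1 - 1 / (p : ℝ)) ^ 2 * (1 + fp p / p)) := by
    apply Finset.one_le_prod
    intro p hp
    unfold pr5 at hp
    rw [mem_filter, mem_Icc] at hp
    have h5 : (5 : ℝ) ≤ p := by exact_mod_cast hp.1.1
    unfold fp
    rw [if_pos hp.1.1]
    have e : (1 - 1 / (p : ℝ)) ^ 2 * (1 + 2 * p / ((p : ℝ) - 2) / p) = 1 + 1 / (p * ((p : ℝ) - 2)) := by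
      have h2 : (p : ℝ) - 2 ≠ 0 := by linarith
      have h3 : (p : ℝ) ≠ 0 := by linarith
      field_simp
      ring
    rw [e]
    have : 0 < 1 / (p * ((p : ℝ) - 2)) := by
      apply one_div_pos.2
      nlinarith
    linarith
  have f2 : fp 2 = 0 := by unfold fp; rw [if_neg (by norm_num)]
  have f3 : fp 3 = 0 := by unfold fp; rw [if_neg (by norm_num)]
  rw [f2, f3]
  have e1 : (1 - 1 / ((2 : ℕ) : ℝ)) ^ 2 * (1 + 0 / ((2 : ℕ) : ℝ)) = 1 / 4 := by norm_num
  have e2 : (1 - 1 / ((3 : ℕ) : ℝ)) ^ 2 * (1 + 0 / ((3 : ℕ) : ℝ)) = 4 / 9 := by norm_num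
  rw [e1, e2]
  linarith

/-- the density of the sieve -/
theorem dz_limit : Tendsto (fun z : ℕ => dz z * (Real.log z) ^ 2) atTop
    (𝓝 (Real.exp (-2 * Real.eulerMascheroniConstant) / Bc)) := by
  have h1 := Vn_tendsto
  have hE := Real.exp_pos Real.eulerMascheroniConstant
  have h2 : Tendsto (fun z : ℕ => (Vn z / Real.log z)⁻¹ ^ 2) atTop
      (𝓝 ((Real.exp Real.eulerMascheroniConstant)⁻¹ ^ 2)) := (h1.inv₀ hE.ne').pow 2
  have e : (Real.exp Real.eulerMascheroniConstant)⁻¹ ^ 2 = Real.exp (-2 * Real.eulerMascheroniConstant) := by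
    rw [← Real.exp_neg, ← Real.exp_nat_mul]
    congr 1
    push_cast
    ring
  rw [e] at h2
  have hB : Bc ≠ 0 := by have := Bc_pos; linarith
  have h4 := h2.div Bc_tendsto hB
  refine h4.congr ?_
  intro z
  have h5 := (Vn_pos z).ne'
  have h6 := (dz_pos' z).ne'
  simp only [Pi.div_apply]
  rw [inv_div, div_pow, div_inv_eq_mul]
  field_simp

end Pool.Agent.K9h56.TC
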