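import Pool.Agent.K9h56.TC.Tau

set_option autoImplicit false
set_option linter.unusedSectionVars false
set_option linter.style.haveILetI false

/-! The mean value of the multiplicative function. -/

namespace Pool.Agent.K9h56.TC

open Finset Filter Topology ArithmeticFunction

/-- the value at a prime, times the prime -/
noncomputable def fp (p : ℕ) : ℝ := if 5 ≤ p then 2 * p / ((p : ℝ) - 2) else 0

/-- the multiplicative function -/
noncomputable def fA : ArithmeticFunction ℝ :=
  ⟨fun n => if Squarefree n then ∏ p ∈ n.primeFactors, fp p else 0, by simp⟩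

lemma fA_apply (n : ℕ) : fA n = if Squarefree n then ∏ p ∈ n.primeFactors, fp p else 0 := rfl

lemma fA_mult : fA.IsMultiplicative := by
  constructor
  · rw [fA_apply]; simp
  · intro m n h
    rw [fA_apply, fA_apply, fA_apply]
    have h4 := Nat.squarefree_mul h
    by_cases h1 : Squarefree m
    · by_cases h2 : Squarefree n
      · rw [if_pos h1, if_pos h2, if_pos (h4.2 ⟨h1, h2⟩), h.primeFactors_mul, prod_union h.disjoint_primeFactors]
      · rw [if_neg h2, if_neg (fun h3 => h2 (h4.1 h3).2), mul_zero]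
    · rw [if_neg h1, if_neg (fun h3 => h1 (h4.1 h3).1), zero_mul]

lemma fA_prime {p : ℕ} (hp : p.Prime) : fA p = fp p := by
  rw [fA_apply, if_pos hp.squarefree, hp.primeFactors, prod_singleton]

lemma fA_prime_pow {p k : ℕ} (hp : p.Prime) (hk : 2 ≤ k) : fA (p ^ k) = 0 := by
  rw [fA_apply, if_neg]
  intro h
  have := (Nat.squarefree_pow_iff hp.ne_one (by omega)).1 h
  omega

/-- the real Moebius function -/
noncomputable def muR : ArithmeticFunction ℝ := (ArithmeticFunction.moebius : ArithmeticFunction ℝ)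

/-- the real constant function -/
noncomputable def zeR : ArithmeticFunction ℝ := (ArithmeticFunction.zeta : ArithmeticFunction ℝ)

lemma mu_ze : muR * zeR = 1 := ArithmeticFunction.coe_moebius_mul_coe_zeta

lemma muR_mult : muR.IsMultiplicative := ArithmeticFunction.isMultiplicative_moebius.intCast

/-- convolution with the Moebius function at prime powers -/
lemma conv_mu (F : ArithmeticFunction ℝ) {p : ℕ} (hp : p.Prime) (k : ℕ) :
    (F * muR) (p ^ (k + 1)) = F (p ^ (k + 1)) - F (p ^ k) := by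
  have h1 : F = (F * muR) * zeR := by rw [mul_assoc, mu_ze, mul_one]
  have h2 : ∀ j : ℕ, F (p ^ j) = ∑ i ∈ range (j + 1), (F * muR) (p ^ i) := by
    intro j
    conv_lhs => rw [h1]
    unfold zeR
    rw [ArithmeticFunction.coe_mul_zeta_apply, Nat.divisors_prime_pow hp, sum_map]
    rfl
  rw [h2 (k + 1), h2 k, sum_range_succ]
  ring

/-- the correction -/
noncomputable def gA : ArithmeticFunction ℝ := fA * muR * muR

lemma gA_mult : gA.IsMultiplicative := (fA_mult.mul muR_mult).mul muR_mult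

lemma fA_eq : fA = gA * (zeR * zeR) := by
  unfold gA
  have h1 : muR * (zeR * zeR) = zeR := by rw [← mul_assoc, mu_ze, one_mul]
  rw [mul_assoc, mul_assoc, h1, mu_ze, mul_one]

lemma fm0 : (fA * muR) 1 = 1 := (fA_mult.mul muR_mult).1

lemma fm1 {p : ℕ} (hp : p.Prime) : (fA * muR) (p ^ 1) = fp p - 1 := by
  rw [conv_mu fA hp 0, zero_add, pow_one, pow_zero, fA_prime hp, fA_mult.1]

lemma fm2 {p : ℕ} (hp : p.Prime) : (fA * muR) (p ^ 2) = - fp p := by
  rw [conv_mu fA hp 1, fA_prime_pow hp (by norm_num), pow_one, fA_prime hp]; ring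

lemma fm3 {p k : ℕ} (hp : p.Prime) (hk : 3 ≤ k) : (fA * muR) (p ^ k) = 0 := by
  obtain ⟨j, rfl⟩ : ∃ j, k = j + 1 := ⟨k - 1, by omega⟩
  rw [conv_mu fA hp j, fA_prime_pow hp (by omega), fA_prime_pow hp (by omega)]; ring

lemma g1 {p : ℕ} (hp : p.Prime) : gA (p ^ 1) = fp p - 2 := by
  unfold gA
  rw [conv_mu (fA * muR) hp 0, zero_add, fm1 hp, pow_zero, fm0]; ring

lemma g2 {p : ℕ} (hp : p.Prime) : gA (p ^ 2) = 1 - 2 * fp p := by
  unfold gA
  rw [conv_mu (fA * muR) hp 1, fm1 hp, fm2 hp]; ring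

lemma g3 {p : ℕ} (hp : p.Prime) : gA (p ^ 3) = fp p := by
  unfold gA
  rw [conv_mu (fA * muR) hp 2, fm2 hp, fm3 hp le_rfl]; ring

lemma g4 {p k : ℕ} (hp : p.Prime) (hk : 4 ≤ k) : gA (p ^ k) = 0 := by
  unfold gA
  obtain ⟨j, rfl⟩ : ∃ j, k = j + 1 := ⟨k - 1, by omega⟩
  rw [conv_mu (fA * muR) hp j, fm3 hp (by omega), fm3 hp (by omega)]; ring

/-- division by the argument -/
noncomputable def wt (F : ArithmeticFunction ℝ) : ArithmeticFunction ℝ := ⟨fun n => F n / n, by simp⟩

lemma wt_apply (F : ArithmeticFunction ℝ) (n : ℕ) : wt F n = F n / n := rfl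

lemma wt_mul (F G : ArithmeticFunction ℝ) : wt (F * G) = wt F * wt G := by
  ext n
  rw [wt_apply, ArithmeticFunction.mul_apply, ArithmeticFunction.mul_apply, sum_div]
  apply sum_congr rfl
  intro x hx
  rw [Nat.mem_divisorsAntidiagonal] at hx
  rw [wt_apply, wt_apply, ← hx.1]
  have h1 : (x.1 : ℝ) ≠ 0 := by
    intro h
    have : x.1 = 0 := by exact_mod_cast h
    rw [this, zero_mul] at hx
    exact hx.2 hx.1.symm
  have h2 : (x.2 : ℝ) ≠ 0 := by
    intro h
    have : x.2 = 0 := by exact_mod_cast h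
    rw [this, mul_zero] at hx
    exact hx.2 hx.1.symm
  push_cast
  field_simp

/-- the weighted correction -/
noncomputable def gw (n : ℕ) : ℝ := gA n / n

lemma gw_one : gw 1 = 1 := by unfold gw; rw [gA_mult.1]; simp

lemma gw_zero : gw 0 = 0 := by unfold gw; simp

lemma gw_mul {m n : ℕ} (h : Nat.Coprime m n) : gw (m * n) = gw m * gw n := by
  unfold gw
  rw [gA_mult.2 h]
  push_cast
  rw [mul_div_mul_comm]

lemma fp_bounds (p : ℕ) : 0 ≤ fp p ∧ fp p ≤ 10 / 3 := by
  unfold fp
  split_ifs with h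
  · have : (5 : ℝ) ≤ p := by exact_mod_cast h
    constructor
    · apply div_nonneg <;> linarith
    · rw [div_le_div_iff₀ (by linarith) (by norm_num)]; linarith
  · norm_num

lemma gw_pp {p : ℕ} (hp : p.Prime) (k : ℕ) (hk : k ∉ range 4) : gw (p ^ k) = 0 := by
  rw [mem_range, not_lt] at hk
  unfold gw
  rw [g4 hp hk, zero_div]

lemma gw_summable {p : ℕ} (hp : p.Prime) : Summable (fun k : ℕ => ‖gw (p ^ k)‖) :=
  summable_of_ne_finset_zero (s := range 4) fun k hk => by rw [gw_pp hp k hk, norm_zero]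

lemma gw_tsum {p : ℕ} (hp : p.Prime) : ∑' k : ℕ, gw (p ^ k) = (1 - 1 / (p : ℝ)) ^ 2 * (1 + fp p / p) := by
  rw [tsum_eq_sum (s := range 4) (fun k hk => gw_pp hp k hk)]
  have hp0 : (p : ℝ) ≠ 0 := by exact_mod_cast hp.ne_zero
  rw [sum_range_succ, sum_range_succ, sum_range_succ, sum_range_one]
  unfold gw
  rw [g3 hp, g2 hp, g1 hp, pow_zero, gA_mult.1]
  push_cast
  field_simp
  ring

lemma gw_tsum_abs {p : ℕ} (hp : p.Prime) : ∑' k : ℕ, ‖gw (p ^ k)‖ ≤ 1 + 17 / (p : ℝ) ^ 2 := by
  rw [tsum_eq_sum (s := range 4) (fun k hk => by rw [gw_pp hp k hk, norm_zero])]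
  have hp2 : (2 : ℝ) ≤ p := by exact_mod_cast hp.two_le
  rw [sum_range_succ, sum_range_succ, sum_range_succ, sum_range_one]
  unfold gw
  rw [g3 hp, g2 hp, g1 hp, pow_zero, gA_mult.1]
  simp only [norm_div, Real.norm_eq_abs]
  have a1 : |((1 : ℕ) : ℝ)| = 1 := by norm_num
  have a2 : |((p ^ 1 : ℕ) : ℝ)| = p := by push_cast; rw [pow_one, abs_of_nonneg (by linarith)]
  have a3 : |((p ^ 2 : ℕ) : ℝ)| = (p : ℝ) ^ 2 := by push_cast; rw [abs_of_nonneg (by positivity)]
  have a4 : |((p ^ 3 : ℕ) : ℝ)| = (p : ℝ) ^ 3 := by push_cast; rw [abs_of_nonneg (by positivity)]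
  rw [a1, a2, a3, a4, abs_one, div_one]
  have hfb := fp_bounds p
  have b2 : |1 - 2 * fp p| ≤ 6 := by rw [abs_le]; constructor <;> linarith
  have b3 : |fp p| ≤ 4 := by rw [abs_le]; constructor <;> linarith
  have c2 : |1 - 2 * fp p| / (p : ℝ) ^ 2 ≤ 6 / (p : ℝ) ^ 2 := div_le_div_of_nonneg_right b2 (by positivity)
  by_cases h5 : 5 ≤ p
  · have h5' : (5 : ℝ) ≤ p := by exact_mod_cast h5
    have b1 : |fp p - 2| / p ≤ 7 / (p : ℝ) ^ 2 := by
      unfold fp
      rw [if_pos h5]
      have e : 2 * (p : ℝ) / ((p : ℝ) - 2) - 2 = 4 / ((p : ℝ) - 2) := by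
        have : (p : ℝ) - 2 ≠ 0 := by linarith
        field_simp; ring
      rw [e, abs_of_nonneg (div_nonneg (by norm_num) (by linarith)), div_div, div_le_div_iff₀ (by nlinarith) (by positivity)]
      nlinarith
    have c3 : |fp p| / (p : ℝ) ^ 3 ≤ 4 / (p : ℝ) ^ 2 := by
      rw [div_le_div_iff₀ (by positivity) (by positivity)]
      have : |fp p| * (p : ℝ) ^ 2 ≤ 4 * (p : ℝ) ^ 2 := mul_le_mul_of_nonneg_right b3 (by positivity)
      nlinarith [show (p : ℝ) ^ 3 = (p : ℝ) ^ 2 * p by ring]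
    have : 17 / (p : ℝ) ^ 2 = 7 / (p : ℝ) ^ 2 + 6 / (p : ℝ) ^ 2 + 4 / (p : ℝ) ^ 2 := by ring
    linarith
  · have hf : fp p = 0 := by unfold fp; rw [if_neg h5]
    rw [hf]
    have e : |((0 : ℝ) - 2)| = 2 := by norm_num
    have e2 : |(1 : ℝ) - 2 * 0| = 1 := by norm_num
    rw [e, e2, abs_zero, zero_div, add_zero]
    have h4 : (p : ℝ) ≤ 4 := by exact_mod_cast (by omega : p ≤ 4)
    have e3 : (2 : ℝ) / p = 2 * p / (p : ℝ) ^ 2 := by field_simp
    rw [e3, add_assoc, ← add_div]
    have : (2 * (p : ℝ) + 1) / (p : ℝ) ^ 2 ≤ 17 / (p : ℝ) ^ 2 := div_le_div_of_nonneg_right (by linarith) (by positivity)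
    linarith

theorem gw_norm_summable : Summable (fun n : ℕ => ‖gw n‖) := by
  have hsq : Summable (fun n : ℕ => 17 / (n : ℝ) ^ 2) := by
    have := (Real.summable_one_div_nat_pow.mpr (by norm_num : 1 < 2)).mul_left 17
    refine this.congr fun n => ?_
    ring
  apply summable_of_sum_range_le (c := Real.exp (∑' n : ℕ, 17 / (n : ℝ) ^ 2)) (fun n => norm_nonneg _)
  intro N
  have h := EulerProduct.summable_and_hasSum_smoothNumbers_prod_primesBelow_tsum (f := fun n => ‖gw n‖)
    (by simp only [gw_one, norm_one]) (fun {m n} hmn => by simp only [gw_mul hmn, norm_mul])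
    (fun {p} hp => by simpa using gw_summable hp) N
  have h2 : ∑ n ∈ range N, ‖gw n‖ ≤ ∑' m : N.smoothNumbers, ‖gw m‖ := by
    have h3 : ∑ n ∈ range N, ‖gw n‖ = ∑ n ∈ (range N).filter (fun n => n ≠ 0), ‖gw n‖ := by
      symm
      apply sum_subset (filter_subset _ _)
      intro n hn hn2
      rw [mem_filter] at hn2
      push Not at hn2
      rw [hn2 hn, gw_zero, norm_zero]
    rw [h3]
    have h4 : ∀ n ∈ (range N).filter (fun n => n ≠ 0), n ∈ N.smoothNumbers := by
      intro n hn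
      rw [mem_filter, mem_range] at hn
      exact Nat.mem_smoothNumbers_of_lt (Nat.pos_of_ne_zero hn.2) hn.1
    rw [← sum_coe_sort]
    have h5 := h.1.norm.of_norm
    have h6 : Function.Injective (fun x : ↥((range N).filter (fun n => n ≠ 0)) =>
        (⟨(x : ℕ), h4 x x.2⟩ : N.smoothNumbers)) := by
      intro x y hxy
      simp only [Subtype.mk.injEq] at hxy
      exact Subtype.ext hxy
    have h7 := h.1
    simp only [norm_norm] at h7
    have h8 := tsum_comp_le_tsum_of_inj h7 (fun a => norm_nonneg _) h6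
    rw [tsum_fintype] at h8
    exact h8
  refine h2.trans ?_
  rw [h.2.tsum_eq]
  calc ∏ p ∈ N.primesBelow, ∑' n : ℕ, ‖gw (p ^ n)‖ ≤ ∏ p ∈ N.primesBelow, Real.exp (17 / (p : ℝ) ^ 2) := by
        apply Finset.prod_le_prod
        · intro p _; exact tsum_nonneg fun _ => norm_nonneg _
        · intro p hp
          refine (gw_tsum_abs (Nat.prime_of_mem_primesBelow hp)).trans ?_
          rw [add_comm]
          exact Real.add_one_le_exp _
    _ = Real.exp (∑ p ∈ N.primesBelow, 17 / (p : ℝ) ^ 2) := (Real.exp_sum _ _).symm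
    _ ≤ _ := Real.exp_le_exp.2 (hsq.sum_le_tsum _ fun _ _ => by positivity)

/-- the constant -/
noncomputable def Bc : ℝ := ∑' n : ℕ, gw n

theorem Bc_prod : Tendsto (fun N : ℕ => ∏ p ∈ N.primesBelow, ((1 - 1 / (p : ℝ)) ^ 2 * (1 + fp p / p))) atTop (𝓝 Bc) := by
  have h := EulerProduct.eulerProduct (f := gw) gw_one (fun {m n} hmn => gw_mul hmn) gw_norm_summable gw_zero
  refine h.congr fun N => ?_
  apply prod_congr rfl
  intro p hp
  exact gw_tsum (Nat.prime_of_mem_primesBelow hp)

/-- the summatory function -/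
noncomputable def Mf (N : ℕ) : ℝ := ∑ n ∈ Ioc 0 N, fA n / n

lemma Mf_eq (N : ℕ) : Mf N = ∑ m ∈ Ioc 0 N, gw m * Td (N / m) := by
  have h1 : Mf N = ∑ n ∈ Ioc 0 N, (wt gA * (wt zeR * wt zeR)) n := by
    unfold Mf
    apply sum_congr rfl
    intro n _
    rw [← wt_mul, ← wt_mul, ← fA_eq, wt_apply]
  rw [h1, ArithmeticFunction.sum_Ioc_mul_eq_sum_sum]
  apply sum_congr rfl
  intro m _
  rw [wt_apply]
  unfold gw
  congr 1
  rw [ArithmeticFunction.sum_Ioc_mul_eq_sum_sum]
  unfold Td
  have h2 : ∀ n ∈ Ioc 0 (N / m), wt zeR n = 1 / (n : ℝ) := by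
    intro n hn
    rw [mem_Ioc] at hn
    rw [wt_apply]
    unfold zeR
    rw [ArithmeticFunction.natCoe_apply, ArithmeticFunction.zeta_apply_ne (by omega)]
    simp
  apply sum_congr rfl
  intro a ha
  rw [h2 a ha]
  congr 1
  unfold Hs
  apply sum_congr rfl
  intro b hb
  rw [wt_apply]
  unfold zeR
  rw [mem_Ioc] at hb
  rw [ArithmeticFunction.natCoe_apply, ArithmeticFunction.zeta_apply_ne (by omega)]
  simp

theorem Mf_tendsto : Tendsto (fun N : ℕ => Mf N / (Real.log N) ^ 2) atTop (𝓝 (Bc / 2)) := by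
  have hlog : Tendsto (fun n : ℕ => Real.log n) atTop atTop := Real.tendsto_log_atTop.comp tendsto_natCast_atTop_atTop
  have h1 : ∀ N : ℕ, Mf N / (Real.log N) ^ 2 = ∑' m : ℕ, gw m * (Td (N / m) / (Real.log N) ^ 2) := by
    intro N
    rw [Mf_eq, tsum_eq_sum (s := Ioc 0 N), sum_div]
    · apply sum_congr rfl
      intro m _
      ring
    · intro m hm
      rw [mem_Ioc, not_and_or, not_lt, not_le] at hm
      rcases hm with hm | hm
      · have : m = 0 := by omega
        rw [this, gw_zero, zero_mul]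
      · rw [Nat.div_eq_of_lt hm, Td_zero, zero_div, mul_zero]
  simp only [h1]
  have h2 : Bc / 2 = ∑' m : ℕ, gw m * (1 / 2) := by
    rw [tsum_mul_right]; unfold Bc; ring
  rw [h2]
  apply tendsto_tsum_of_dominated_convergence (bound := fun m => ‖gw m‖ * 24) (gw_norm_summable.mul_right 24)
  · intro m
    rcases Nat.eq_zero_or_pos m with h0 | h0
    · subst h0; simp [gw_zero]
    apply Tendsto.const_mul
    have hdiv : Tendsto (fun N : ℕ => N / m) atTop atTop := Nat.tendsto_div_const_atTop h0.ne'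
    have h3 := Td_tendsto.comp hdiv
    have h4 : Tendsto (fun N : ℕ => Real.log ((N / m : ℕ) : ℝ) / Real.log N) atTop (𝓝 1) := by
      have hm0 : (0 : ℝ) < m := by exact_mod_cast h0
      have h5 : Tendsto (fun N : ℕ => 1 - (Real.log m + Real.log 2) / Real.log N) atTop (𝓝 (1 - 0)) :=
        (Tendsto.div_atTop tendsto_const_nhds hlog).const_sub 1
      rw [sub_zero] at h5
      apply tendsto_of_tendsto_of_tendsto_of_le_of_le' h5 tendsto_const_nhds
      · filter_upwards [eventually_ge_atTop (2 * m + 2)] with N hN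
        have hN0 : (0 : ℝ) < N := by exact_mod_cast (by omega : 0 < N)
        have hl : 0 < Real.log N := Real.log_pos (by exact_mod_cast (by omega : 1 < N))
        have h6 : 1 ≤ N / m := (Nat.one_le_div_iff h0).2 (by omega)
        have h7 : N < m * (N / m + 1) := Nat.lt_mul_div_succ N h0
        have h8 : N ≤ 2 * m * (N / m) := by nlinarith
        have h9 : (N : ℝ) ≤ 2 * m * ((N / m : ℕ) : ℝ) := by exact_mod_cast h8
        have h10 : (0 : ℝ) < ((N / m : ℕ) : ℝ) := by exact_mod_cast h6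
        have h11 := Real.log_le_log hN0 h9
        rw [Real.log_mul (by positivity) h10.ne', Real.log_mul (by norm_num) hm0.ne'] at h11
        rw [le_div_iff₀ hl, sub_mul, div_mul_cancel₀ _ hl.ne']
        linarith
      · filter_upwards [eventually_ge_atTop (2 * m + 2)] with N hN
        have hN0 : (0 : ℝ) < N := by exact_mod_cast (by omega : 0 < N)
        have hl : 0 < Real.log N := Real.log_pos (by exact_mod_cast (by omega : 1 < N))
        have h6 : 1 ≤ N / m := (Nat.one_le_div_iff h0).2 (by omega)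
        rw [div_le_one hl]
        apply Real.log_le_log (by exact_mod_cast h6)
        exact_mod_cast Nat.div_le_self N m
    have h6 := h3.mul (h4.pow 2)
    rw [one_pow, mul_one] at h6
    refine h6.congr' ?_
    filter_upwards [eventually_ge_atTop (2 * m + 2)] with N hN
    have hl2 : 0 < Real.log ((N / m : ℕ) : ℝ) := by
      apply Real.log_pos
      have : 2 ≤ N / m := by rw [Nat.le_div_iff_mul_le h0]; omega
      exact_mod_cast (by omega : 1 < N / m)
    simp only [Function.comp]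
    rw [div_pow]
    field_simp
  · filter_upwards [eventually_ge_atTop 3] with N hN m
    rw [norm_mul]
    apply mul_le_mul_of_nonneg_left _ (norm_nonneg _)
    have hl : 1 ≤ Real.log N := by
      rw [Real.le_log_iff_exp_le (by exact_mod_cast (by omega : 0 < N))]
      have : (3 : ℝ) ≤ N := by exact_mod_cast hN
      linarith [Real.exp_one_lt_d9]
    rw [Real.norm_of_nonneg (div_nonneg (Td_nonneg _) (by positivity)), div_le_iff₀ (by positivity)]
    rcases Nat.eq_zero_or_pos (N / m) with h0 | h0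
    · rw [h0, Td_zero]; positivity
    · refine (Td_le _ h0).trans ?_
      have h5 : Real.log ((N / m : ℕ) : ℝ) ≤ Real.log N := by
        apply Real.log_le_log (by exact_mod_cast h0)
        exact_mod_cast Nat.div_le_self N m
      have h6 : 0 ≤ Real.log ((N / m : ℕ) : ℝ) := Real.log_natCast_nonneg _
      nlinarith

end Pool.Agent.K9h56.TC
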