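import Pool.Agent.K9h56.TC.Grw

set_option autoImplicit false
set_option linter.unusedSectionVars false
set_option linter.style.haveILetI false

/-! The asymptotics of the mean sign. -/

namespace Pool.Agent.K9h56.TC

open Finset Filter Topology Pool.Agent.K9h56.TB

lemma log_tend : Tendsto (fun z : ℕ => Real.log (z : ℝ)) atTop atTop :=
  Real.tendsto_log_atTop.comp tendsto_natCast_atTop_atTop

lemma loglog_tend : Tendsto (fun z : ℕ => Real.log (Real.log (z : ℝ))) atTop atTop :=
  Real.tendsto_log_atTop.comp log_tend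

/-- minus the logarithm of the density -/
noncomputable def ld (z : ℕ) : ℝ := - Real.log (dz z)

lemma ld_tend : Tendsto (fun z : ℕ => ld z / Real.log (Real.log (z : ℝ))) atTop (𝓝 2) := by
  have hB := Bc_pos
  have hE := Real.exp_pos (-2 * Real.eulerMascheroniConstant)
  have hc : Real.exp (-2 * Real.eulerMascheroniConstant) / Bc ≠ 0 := by
    apply div_ne_zero hE.ne'
    linarith
  have h1 : Tendsto (fun z : ℕ => Real.log (dz z * (Real.log z) ^ 2)) atTop
      (𝓝 (Real.log (Real.exp (-2 * Real.eulerMascheroniConstant) / Bc))) := dz_limit.log hc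
  have h2 : Tendsto (fun z : ℕ => 2 - Real.log (dz z * (Real.log z) ^ 2) / Real.log (Real.log (z : ℝ))) atTop
      (𝓝 (2 - 0)) := (h1.div_atTop loglog_tend).const_sub 2
  rw [sub_zero] at h2
  refine h2.congr' ?_
  filter_upwards [log_tend.eventually (eventually_gt_atTop 0), loglog_tend.eventually (eventually_gt_atTop 0)] with z a b
  unfold ld
  rw [Real.log_mul (dz_pos' z).ne' (by positivity), Real.log_pow]
  field_simp
  push_cast
  ring

lemma ld_atTop : Tendsto ld atTop atTop := by
  have h1 := ld_tend.eventually (lt_mem_nhds (show (1 : ℝ) < 2 by norm_num))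
  apply tendsto_atTop_mono' atTop _ loglog_tend
  filter_upwards [h1, loglog_tend.eventually (eventually_gt_atTop 0)] with z a b
  rw [lt_div_iff₀ b, one_mul] at a
  exact a.le

/-- the parameter -/
noncomputable def vz (z : ℕ) : ℝ := (ld z) ^ ((1 : ℝ) / 8)

lemma vz_atTop : Tendsto vz atTop atTop := (tendsto_rpow_atTop (by norm_num)).comp ld_atTop

lemma vz_pow {z : ℕ} (h : 0 < ld z) : (vz z) ^ 8 = ld z ∧ (vz z) ^ 16 = (ld z) ^ 2 ∧
    Real.exp (-(vz z) ^ 8) = dz z := by
  have h8 : (vz z) ^ 8 = ld z := by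
    unfold vz
    rw [← Real.rpow_natCast, ← Real.rpow_mul h.le]
    norm_num
  refine ⟨h8, ?_, ?_⟩
  · rw [show (16 : ℕ) = 8 * 2 by norm_num, pow_mul, h8]
  · rw [h8]
    unfold ld
    rw [neg_neg, Real.exp_log (dz_pos' z)]

/-- the alternating sum -/
lemma alt_tend : Tendsto (fun z : ℕ => 2 * alt (pr5 (zz z)) (dz z) / (ld z) ^ 2) atTop (𝓝 (-(Bc / 2))) := by
  rw [Metric.tendsto_nhds]
  intro ε hε
  have h1 := vz_atTop.eventually (alt_bound (half_pos hε))
  filter_upwards [h1, formula2, ld_atTop.eventually (eventually_gt_atTop 0)] with z a b c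
  obtain ⟨e8, e16, eθ⟩ := vz_pow c
  have h2 := a (zz z) (by
    refine le_trans (le_of_eq ?_) b.2.1
    rw [e8, ← Real.exp_log (dz_pos' z), ← Real.exp_neg, ← Real.exp_nat_mul]
    unfold ld
    push_cast
    ring_nf) (by
    refine le_trans b.2.2 (le_of_eq ?_)
    rw [e8, ← Real.exp_log (dz_pos' z), ← Real.exp_neg, ← Real.exp_nat_mul]
    unfold ld
    push_cast
    ring_nf)
  rw [eθ, e16] at h2
  rw [Real.dist_eq, sub_neg_eq_add]
  linarith

/-- the asymptotics of the mean sign -/
theorem bias_tend : Tendsto (fun z : ℕ => Dz z * (Real.log z / Real.log (Real.log z)) ^ 2) atTop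
    (𝓝 (-Real.exp (-2 * Real.eulerMascheroniConstant))) := by
  have hB := Bc_pos
  have h1 := ((dz_limit.mul alt_tend).mul (ld_tend.pow 2)).div_const 2
  have e1 : Real.exp (-2 * Real.eulerMascheroniConstant) / Bc * -(Bc / 2) * 2 ^ 2 / 2 =
      -Real.exp (-2 * Real.eulerMascheroniConstant) := by
    have : Bc ≠ 0 := by linarith
    field_simp
  rw [e1] at h1
  have h2 : Tendsto (fun z : ℕ => (dz z * alt (pr5 (zz z)) (dz z)) * (Real.log z / Real.log (Real.log z)) ^ 2) atTop
      (𝓝 (-Real.exp (-2 * Real.eulerMascheroniConstant))) := by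
    refine h1.congr' ?_
    filter_upwards [ld_atTop.eventually (eventually_gt_atTop 0), loglog_tend.eventually (eventually_gt_atTop 0)] with z a b
    field_simp
  have h3 : Tendsto (fun z : ℕ => (Dz z - dz z * alt (pr5 (zz z)) (dz z)) *
      (Real.log z / Real.log (Real.log z)) ^ 2) atTop (𝓝 0) := by
    have h4 : Tendsto (fun z : ℕ => (Real.log z) ^ (-(1 / 4) : ℝ)) atTop (𝓝 0) :=
      (tendsto_rpow_neg_atTop (by norm_num : (0 : ℝ) < 1 / 4)).comp log_tend
    refine squeeze_zero_norm' ?_ h4
    filter_upwards [formula2, log_tend.eventually (eventually_gt_atTop 0),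
      loglog_tend.eventually (eventually_ge_atTop 1)] with z a b c
    rw [norm_mul, Real.norm_eq_abs, norm_pow, Real.norm_of_nonneg (by positivity : 0 ≤ Real.log (z : ℝ) / Real.log (Real.log z))]
    calc _ ≤ (Real.log z) ^ (-(9 / 4) : ℝ) * (Real.log z) ^ 2 := by
          apply mul_le_mul a.1 _ (by positivity) (by positivity)
          apply pow_le_pow_left₀ (by positivity)
          exact div_le_self b.le c
      _ = (Real.log z) ^ (-(1 / 4) : ℝ) := by
          rw [← Real.rpow_natCast, ← Real.rpow_add b]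
          norm_num
  have h5 := h3.add h2
  rw [zero_add] at h5
  refine h5.congr fun z => ?_
  ring

end Pool.Agent.K9h56.TC
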