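import Pool.Agent.K9h56.TB.Rho

set_option autoImplicit false
set_option linter.unusedSectionVars false
set_option linter.style.haveILetI false

/-! Fourier expansion of the local factors. -/

namespace Pool.Agent.K9h56.TC

open Finset Pool.Agent.K9h56.TB

/-- the local correlation -/
noncomputable def cp (p k : ℕ) : ℝ := (1 - (nu p k : ℝ) / p) / (1 - 2 / (p : ℝ)) ^ 2 - 1

/-- the Fourier coefficient -/
noncomputable def gh {p : ℕ} [NeZero p] (ξ : ZMod p) : ℝ :=
  if ξ = 0 then 0 else ‖(1 : ℂ) + ZMod.stdAddChar (ξ * 3⁻¹)‖ ^ 2 / ((p : ℝ) - 2) ^ 2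

lemma gh_nonneg {p : ℕ} [NeZero p] (ξ : ZMod p) : 0 ≤ gh ξ := by
  unfold gh; split_ifs
  · exact le_rfl
  · positivity

lemma norm_sq_one_add {p : ℕ} [NeZero p] (x : ZMod p) :
    ((‖(1 : ℂ) + ZMod.stdAddChar x‖ ^ 2 : ℝ) : ℂ) = 2 + ZMod.stdAddChar x + ZMod.stdAddChar (-x) := by
  rw [← Complex.normSq_eq_norm_sq, ← Complex.mul_conj, map_add, map_one, ← AddChar.map_neg_eq_conj]
  have : (ZMod.stdAddChar x : ℂ) * ZMod.stdAddChar (-x) = 1 := by
    rw [← AddChar.map_add_eq_mul, add_neg_cancel, AddChar.map_zero_eq_one]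
  linear_combination this

lemma norm_sq_le {p : ℕ} [NeZero p] (x : ZMod p) : ‖(1 : ℂ) + ZMod.stdAddChar x‖ ^ 2 ≤ 4 := by
  have h1 : ‖(1 : ℂ) + ZMod.stdAddChar x‖ ≤ 2 := by
    refine (norm_add_le _ _).trans ?_
    rw [norm_one, AddChar.norm_apply]; norm_num
  nlinarith [norm_nonneg ((1 : ℂ) + ZMod.stdAddChar x)]

lemma gh_le {p : ℕ} [NeZero p] (ξ : ZMod p) : gh ξ ≤ 4 / ((p : ℝ) - 2) ^ 2 := by
  unfold gh; split_ifs
  · positivity
  · exact div_le_div_of_nonneg_right (norm_sq_le _) (by positivity)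

/-- orthogonality -/
lemma sum_char {p : ℕ} [NeZero p] (b : ZMod p) : ∑ x : ZMod p, (ZMod.stdAddChar (x * b) : ℂ) =
    if b = 0 then (p : ℂ) else 0 := by
  rw [AddChar.sum_mulShift b (ZMod.isPrimitive_stdAddChar p), ZMod.card]
  split_ifs <;> simp

lemma three_inv {p : ℕ} (hp : p.Prime) (h5 : 5 ≤ p) : (3 : ZMod p) * 3⁻¹ = 1 := by
  haveI := Fact.mk hp
  apply mul_inv_cancel₀
  intro h
  have h1 : ((3 : ℕ) : ZMod p) = 0 := by exact_mod_cast h
  rw [ZMod.natCast_eq_zero_iff] at h1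
  have := Nat.le_of_dvd (by norm_num) h1; omega

lemma cp_fourier {p : ℕ} (hp : p.Prime) (h5 : 5 ≤ p) (k : ℕ) : haveI : NeZero p := ⟨hp.ne_zero⟩
    (cp p k : ℂ) = ∑ ξ : ZMod p, (gh ξ : ℂ) * ZMod.stdAddChar (ξ * (k : ZMod p)) := by
  haveI : NeZero p := ⟨hp.ne_zero⟩
  haveI := Fact.mk hp
  have h3 := three_inv hp h5
  have hpr : (5 : ℝ) ≤ p := by exact_mod_cast h5
  have h30 : (3 : ZMod p) ≠ 0 := fun h => by rw [h, zero_mul] at h3; exact zero_ne_one h3
  have h2 : (2 : ZMod p) ≠ 0 := by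
    intro h3
    have h4 : ((2 : ℕ) : ZMod p) = 0 := by exact_mod_cast h3
    rw [ZMod.natCast_eq_zero_iff] at h4
    have := Nat.le_of_dvd (by norm_num) h4
    omega
  -- the sum
  have e1 : ∀ ξ : ZMod p, (gh ξ : ℂ) * ZMod.stdAddChar (ξ * (k : ZMod p)) =
      (1 / ((p : ℂ) - 2) ^ 2) * ((2 * ZMod.stdAddChar (ξ * (k : ZMod p)) +
        ZMod.stdAddChar (ξ * ((k : ZMod p) + 3⁻¹)) + ZMod.stdAddChar (ξ * ((k : ZMod p) - 3⁻¹))) -
        if ξ = 0 then 4 else 0) := by
    intro ξ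
    unfold gh
    split_ifs with h
    · subst h
      simp only [zero_mul, AddChar.map_zero_eq_one, Complex.ofReal_zero]
      ring
    · have h4 := norm_sq_one_add (ξ * 3⁻¹)
      rw [Complex.ofReal_div, h4]
      have h5 : (ZMod.stdAddChar (ξ * ((k : ZMod p) + 3⁻¹)) : ℂ) =
          ZMod.stdAddChar (ξ * 3⁻¹) * ZMod.stdAddChar (ξ * (k : ZMod p)) := by
        rw [← AddChar.map_add_eq_mul]; congr 1; ring
      have h6 : (ZMod.stdAddChar (ξ * ((k : ZMod p) - 3⁻¹)) : ℂ) =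
          ZMod.stdAddChar (-(ξ * 3⁻¹)) * ZMod.stdAddChar (ξ * (k : ZMod p)) := by
        rw [← AddChar.map_add_eq_mul]; congr 1; ring
      rw [h5, h6]
      push_cast
      ring
  rw [sum_congr rfl (fun ξ _ => e1 ξ), ← mul_sum, sum_sub_distrib, sum_add_distrib, sum_add_distrib, ← mul_sum,
    sum_char, sum_char, sum_char]
  rw [sum_ite_eq' univ (0 : ZMod p) (fun _ => (4 : ℂ)), if_pos (mem_univ _)]
  have hp2 : (p : ℂ) - 2 ≠ 0 := by
    have : ((p : ℝ) : ℂ) - ((2 : ℝ) : ℂ) ≠ 0 := by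
      rw [← Complex.ofReal_sub]
      exact_mod_cast (by linarith : (p : ℝ) - 2 ≠ 0)
    simpa using this
  have hp0 : (p : ℂ) ≠ 0 := by exact_mod_cast hp.ne_zero
  have hk0 : (k : ZMod p) = 0 ↔ p ∣ k := ZMod.natCast_eq_zero_iff _ _
  have hk1 : (k : ZMod p) + 3⁻¹ = 0 ↔ p ∣ 3 * k + 1 := by
    rw [← ZMod.natCast_eq_zero_iff]
    push_cast
    constructor
    · intro h; linear_combination 3 * h - h3
    · intro h; apply mul_left_cancel₀ h30; linear_combination h + h3
  have hcp : ∀ ν : ℕ, (((1 - (ν : ℝ) / p) / (1 - 2 / (p : ℝ)) ^ 2 - 1 : ℝ) : ℂ) =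
      1 / ((p : ℂ) - 2) ^ 2 * ((4 - ν) * p - 4) := by
    intro ν
    have h7 : 1 - 2 / (p : ℂ) ≠ 0 := by
      rw [one_sub_div hp0]; exact div_ne_zero hp2 hp0
    push_cast
    field_simp
    ring
  unfold cp
  rw [hcp]
  congr 1
  rcases Nat.eq_zero_or_pos k with hkz | hkpos
  · subst hkz
    have hn1 : ¬ p ∣ 3 * 0 + 1 := fun h => by have := Nat.le_of_dvd (by norm_num) h; omega
    have h8 : ¬ ((0 : ℕ) : ZMod p) + 3⁻¹ = 0 := fun h => hn1 (hk1.1 h)
    have h9 : ¬ ((0 : ℕ) : ZMod p) - 3⁻¹ = 0 := by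
      intro h
      apply h8
      push_cast at h ⊢
      linear_combination -h
    rw [if_pos (by simp), if_neg h8, if_neg h9]
    unfold nu
    rw [if_pos (dvd_zero p)]
    push_cast
    ring
  · have hk2 : (k : ZMod p) - 3⁻¹ = 0 ↔ p ∣ 3 * k - 1 := by
      rw [← ZMod.natCast_eq_zero_iff, Nat.cast_sub (by omega)]
      push_cast
      constructor
      · intro h; linear_combination 3 * h + h3
      · intro h; apply mul_left_cancel₀ h30; linear_combination h - h3
    by_cases c0 : p ∣ k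
    · have n1 : ¬ p ∣ 3 * k + 1 := fun h => by
        have := (Nat.dvd_add_right (c0.mul_left 3)).1 h
        have := Nat.le_of_dvd (by norm_num) this; omega
      have n2 : ¬ p ∣ 3 * k - 1 := fun h => by
        have h7 : p ∣ (3 * k - 1) + 1 := by
          rw [Nat.sub_add_cancel (by omega)]; exact c0.mul_left 3
        have := (Nat.dvd_add_right h).1 h7
        have := Nat.le_of_dvd (by norm_num) this; omega
      rw [if_pos (hk0.2 c0), if_neg (fun h => n1 (hk1.1 h)), if_neg (fun h => n2 (hk2.1 h))]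
      unfold nu
      rw [if_pos c0]
      push_cast; ring
    · rw [if_neg (fun h => c0 (hk0.1 h))]
      by_cases c1 : p ∣ 3 * k + 1
      · have n2 : ¬ p ∣ 3 * k - 1 := fun h => by
          have h7 : p ∣ (3 * k - 1) + 2 := by
            have : 3 * k - 1 + 2 = 3 * k + 1 := by omega
            rw [this]; exact c1
          have := (Nat.dvd_add_right h).1 h7
          have := Nat.le_of_dvd (by norm_num) this; omega
        rw [if_pos (hk1.2 c1), if_neg (fun h => n2 (hk2.1 h))]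
        unfold nu
        rw [if_neg c0, if_pos (Or.inl c1)]
        push_cast; ring
      · rw [if_neg (fun h => c1 (hk1.1 h))]
        by_cases c2 : p ∣ 3 * k - 1
        · rw [if_pos (hk2.2 c2)]
          unfold nu
          rw [if_neg c0, if_pos (Or.inr c2)]
          push_cast; ring
        · rw [if_neg (fun h => c2 (hk2.1 h))]
          unfold nu
          rw [if_neg c0, if_neg (by tauto)]
          push_cast; ring

/-- the sum of the coefficients -/
lemma sum_gh {p : ℕ} (hp : p.Prime) (h5 : 5 ≤ p) : haveI : NeZero p := ⟨hp.ne_zero⟩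
    ∑ ξ : ZMod p, gh ξ = 2 / ((p : ℝ) - 2) := by
  haveI : NeZero p := ⟨hp.ne_zero⟩
  have h := cp_fourier hp h5 0
  have hpr : (5 : ℝ) ≤ p := by exact_mod_cast h5
  simp only [Nat.cast_zero, mul_zero, AddChar.map_zero_eq_one, mul_one] at h
  rw [← Complex.ofReal_sum] at h
  have h2 := Complex.ofReal_injective h
  rw [← h2]
  unfold cp nu
  rw [if_pos (dvd_zero p)]
  have : (p : ℝ) - 2 ≠ 0 := by linarith
  have h3 : 1 - 2 / (p : ℝ) ≠ 0 := by
    have : 2 / (p : ℝ) < 1 := by rw [div_lt_one (by linarith)]; linarith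
    linarith
  have h4 : (p : ℝ) ≠ 0 := by linarith
  field_simp
  ring

/-- the value of the resolvent -/
lemma resolvent {θ : ℝ} (h0 : 0 < θ) (h1 : θ < 1) (ζ : ℂ) (hζ : ‖ζ‖ = 1) :
    HasSum (fun k : ℕ => (-1 : ℂ) ^ (k + 1) * (1 - θ) ^ k * ζ ^ (k + 1)) (-ζ / (1 + (1 - θ) * ζ)) ∧
    2 * (-ζ / (1 + (1 - θ) * ζ)).re = -1 + θ * (θ - 2 * ζ.re) / (θ ^ 2 + 2 * (1 - θ) * (1 + ζ.re)) := by
  have hn : ‖-((1 - θ) * ζ : ℂ)‖ < 1 := by
    rw [norm_neg, norm_mul, hζ, mul_one]
    have : (1 - (θ : ℂ)) = ((1 - θ : ℝ) : ℂ) := by push_cast; ring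
    rw [this, Complex.norm_real, Real.norm_eq_abs, abs_of_pos (by linarith)]
    linarith
  constructor
  · have h := (hasSum_geometric_of_norm_lt_one hn).mul_left (-ζ)
    rw [sub_neg_eq_add] at h
    rw [div_eq_mul_inv]
    refine h.congr_fun ?_
    intro k
    have e : (-((1 - (θ : ℂ)) * ζ)) ^ k = (-1) ^ k * ((1 - θ) ^ k * ζ ^ k) := by
      rw [neg_pow, mul_pow]
    rw [e]
    ring
  · have hre : ζ.re ^ 2 + ζ.im ^ 2 = 1 := by
      have := Complex.normSq_eq_norm_sq ζ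
      rw [hζ, Complex.normSq_apply] at this
      linarith
    have hD : Complex.normSq (1 + (1 - (θ : ℂ)) * ζ) = θ ^ 2 + 2 * (1 - θ) * (1 + ζ.re) := by
      rw [Complex.normSq_apply]
      simp only [Complex.add_re, Complex.one_re, Complex.mul_re, Complex.sub_re, Complex.ofReal_re,
        Complex.sub_im, Complex.one_im, Complex.ofReal_im, Complex.add_im, Complex.mul_im]
      linear_combination (1 - θ) ^ 2 * hre
    have hpos : 0 < θ ^ 2 + 2 * (1 - θ) * (1 + ζ.re) := by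
      have : -1 ≤ ζ.re := by nlinarith [sq_nonneg ζ.im]
      have : 0 ≤ 2 * (1 - θ) * (1 + ζ.re) := by
        apply mul_nonneg <;> linarith
      positivity
    rw [Complex.div_re, hD]
    simp only [Complex.neg_re, Complex.neg_im, Complex.add_re, Complex.one_re, Complex.mul_re, Complex.sub_re,
      Complex.ofReal_re, Complex.sub_im, Complex.one_im, Complex.ofReal_im, Complex.add_im, Complex.mul_im]
    rw [← add_div, mul_div_assoc', eq_comm, neg_add_eq_sub, div_sub_one hpos.ne', div_left_inj' hpos.ne']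
    linear_combination (2 * (1 - θ)) * hre

end Pool.Agent.K9h56.TC
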