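import Pool.Agent.K9h56.TC.Bt

set_option autoImplicit false
set_option linter.unusedSectionVars false
set_option linter.style.haveILetI false

/-! The medium range. -/

namespace Pool.Agent.K9h56.TC

open Finset Pool.Agent.K9h56.TB

/-- the local factor -/
noncomputable def lf (s : Finset ℕ) (c : ℤ) (p : ℕ) : ℝ :=
  (p : ℝ) * (ph p ((c : ZMod p) * ((6 * (md s / p) : ℕ) : ZMod p)⁻¹) / ((p : ℝ) - 2) ^ 2)

lemma md_Gp_eq (s : Finset ℕ) (c : ℤ) : (md s : ℝ) * Gp s c = ∏ p ∈ s, lf s c p := by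
  rw [md_cast]
  unfold Gp lf
  rw [← prod_mul_distrib]

lemma lf_nonneg (s : Finset ℕ) (c : ℤ) (p : ℕ) : 0 ≤ lf s c p :=
  mul_nonneg (Nat.cast_nonneg _) (div_nonneg (ph_nonneg _ _) (sq_nonneg _))

lemma lf_le (s : Finset ℕ) (c : ℤ) (p : ℕ) : lf s c p ≤ lp p := by
  unfold lf lp
  rw [mul_div_assoc', mul_comm (4 : ℝ)]
  exact div_le_div_of_nonneg_right (mul_le_mul_of_nonneg_left (ph_le _ _) (Nat.cast_nonneg _)) (sq_nonneg _)

lemma lp_le {p : ℕ} (h5 : 5 ≤ p) : lp p ≤ 12 * (1 / (p : ℝ)) := by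
  have : (5 : ℝ) ≤ p := by exact_mod_cast h5
  unfold lp
  rw [← div_eq_mul_one_div, div_le_div_iff₀ (by nlinarith) (by linarith)]
  nlinarith

/-- the decomposition -/
noncomputable def dec (w : ℕ) (s : Finset ℕ) : Finset ℕ × Finset ℕ × ℕ :=
  (s.filter (fun p => p ≤ w), (s.filter (fun p => w < p)).erase (s.sup id), s.sup id)

lemma sup_mem {s : Finset ℕ} (hs : s.Nonempty) : s.sup id ∈ s := by
  obtain ⟨i, hi, h⟩ := exists_mem_eq_sup s hs id
  rw [h]; exact hi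

lemma dec_inj (w : ℕ) {s s' : Finset ℕ} (hs : s.Nonempty) (hs' : s'.Nonempty) (hw : w < s.sup id)
    (hw' : w < s'.sup id) (h : dec w s = dec w s') : s = s' := by
  have key : ∀ {s : Finset ℕ}, s.Nonempty → w < s.sup id →
      s = insert (dec w s).2.2 ((dec w s).1 ∪ (dec w s).2.1) := by
    intro s hs hw
    ext p
    unfold dec
    rw [mem_insert, mem_union, mem_filter, mem_erase, mem_filter]
    constructor
    · intro hp
      by_cases h1 : p = s.sup id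
      · left; exact h1
      · right
        rcases le_or_gt p w with h2 | h2
        · left; exact ⟨hp, h2⟩
        · right; exact ⟨h1, hp, h2⟩
    · rintro (h1 | ⟨h1, _⟩ | ⟨_, h1, _⟩)
      · rw [h1]; exact sup_mem hs
      · exact h1
      · exact h1
  rw [key hs hw, key hs' hw', h]

lemma dec_prod (w : ℕ) {s : Finset ℕ} (hs : s.Nonempty) (hw : w < s.sup id) (f : ℕ → ℝ) :
    ∏ p ∈ s, f p = (∏ p ∈ (dec w s).1, f p) * (∏ p ∈ (dec w s).2.1, f p) * f (dec w s).2.2 := by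
  unfold dec
  have h1 : s.sup id ∈ s.filter (fun p => w < p) := by
    rw [mem_filter]; exact ⟨sup_mem hs, hw⟩
  rw [mul_assoc, prod_erase_mul _ _ h1]
  have h2 : s.filter (fun p => w < p) = s.filter (fun p => ¬ p ≤ w) := by
    apply filter_congr; intro p _; exact not_le.symm
  rw [h2, prod_filter_mul_prod_filter_not]

lemma dec_md (w : ℕ) {s : Finset ℕ} (hs : s.Nonempty) (hw : w < s.sup id) :
    md s = md (dec w s).1 * md (dec w s).2.1 * (dec w s).2.2 := by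
  unfold md dec
  have h1 : s.sup id ∈ s.filter (fun p => w < p) := by
    rw [mem_filter]; exact ⟨sup_mem hs, hw⟩
  rw [mul_assoc, prod_erase_mul _ _ h1]
  have h2 : s.filter (fun p => w < p) = s.filter (fun p => ¬ p ≤ w) := by
    apply filter_congr; intro p _; exact not_le.symm
  rw [h2, prod_filter_mul_prod_filter_not]

/-- the summand of the third case -/
noncomputable def Psi (c : ℤ) (y : Finset ℕ × Finset ℕ × ℕ) : ℝ :=
  (∏ p ∈ y.1, ((p : ℝ) * (ph p ((c : ZMod p) * ((6 * ((md y.1 / p) * md y.2.1 * y.2.2) : ℕ) : ZMod p)⁻¹) /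
      ((p : ℝ) - 2) ^ 2))) * (1 / (y.2.2 : ℝ)) * (12 * ∏ p ∈ y.2.1, lp p)

lemma Psi_nonneg (c : ℤ) (y : Finset ℕ × Finset ℕ × ℕ) : 0 ≤ Psi c y := by
  unfold Psi
  apply mul_nonneg (mul_nonneg _ (by positivity))
  · exact mul_nonneg (by norm_num) (prod_nonneg fun p _ => lp_nonneg p)
  · exact prod_nonneg fun p _ => mul_nonneg (Nat.cast_nonneg _) (div_nonneg (ph_nonneg _ _) (sq_nonneg _))

lemma f_le_Psi {s : Finset ℕ} (hs : IsPr s) (c : ℤ) (w : ℕ) (hne : s.Nonempty) (hw : w < s.sup id) :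
    (md s : ℝ) * Gp s c ≤ Psi c (dec w s) := by
  rw [md_Gp_eq, dec_prod w hne hw]
  unfold Psi
  have e1 : ∏ p ∈ (dec w s).1, lf s c p = ∏ p ∈ (dec w s).1, ((p : ℝ) *
      (ph p ((c : ZMod p) * ((6 * ((md (dec w s).1 / p) * md (dec w s).2.1 * (dec w s).2.2) : ℕ) : ZMod p)⁻¹) /
      ((p : ℝ) - 2) ^ 2)) := by
    apply prod_congr rfl
    intro p hp
    unfold lf
    have hd : p ∣ md (dec w s).1 := dvd_prod_of_mem (fun p => p) hp
    have e2 : md s / p = (md (dec w s).1 / p) * md (dec w s).2.1 * (dec w s).2.2 := by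
      rw [dec_md w hne hw, mul_assoc, mul_assoc]
      exact Nat.mul_div_right_comm hd _
    rw [e2]
  rw [e1]
  have h1 : ∏ p ∈ (dec w s).2.1, lf s c p ≤ ∏ p ∈ (dec w s).2.1, lp p :=
    prod_le_prod (fun p _ => lf_nonneg s c p) fun p _ => lf_le s c p
  have h2 : lf s c (dec w s).2.2 ≤ 12 * (1 / ((dec w s).2.2 : ℝ)) := by
    refine (lf_le s c _).trans (lp_le ?_)
    exact (hs _ (sup_mem hne)).2
  set A := ∏ p ∈ (dec w s).1, ((p : ℝ) *
      (ph p ((c : ZMod p) * ((6 * ((md (dec w s).1 / p) * md (dec w s).2.1 * (dec w s).2.2) : ℕ) : ZMod p)⁻¹) /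
      ((p : ℝ) - 2) ^ 2)) with hA
  have hA0 : 0 ≤ A := prod_nonneg fun p _ =>
    mul_nonneg (Nat.cast_nonneg _) (div_nonneg (ph_nonneg _ _) (sq_nonneg _))
  have h3 : 0 ≤ ∏ p ∈ (dec w s).2.1, lp p := prod_nonneg fun p _ => lp_nonneg p
  calc A * (∏ p ∈ (dec w s).2.1, lf s c p) * lf s c (dec w s).2.2 ≤
      A * (∏ p ∈ (dec w s).2.1, lp p) * (12 * (1 / ((dec w s).2.2 : ℝ))) := by
        apply mul_le_mul (mul_le_mul_of_nonneg_left h1 hA0) h2 (lf_nonneg _ _ _) (mul_nonneg hA0 h3)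
    _ = _ := by ring

/-- the third case -/
lemma case_three (P : Finset ℕ) (hP : IsPr P) (c : ℤ) (w S G K : ℕ) (T1 T2 : ℝ) (hT1 : 0 < T1)
    (hG : 2 ≤ G) (hwG : w ≤ G) (hSG : S ^ 2 ≤ G) (hT : T2 ≤ 2 ^ K * T1) : by
    classical
    exact ∑ s ∈ P.powerset.filter (fun s => (T1 < md s ∧ (md s : ℝ) ≤ T2 ∧ ∀ p ∈ s, ¬ (p : ℤ) ∣ c) ∧
      md (s.filter (fun p => p ≤ w)) ≤ S ∧ ∃ p ∈ s, G < p), (md s : ℝ) * Gp s c ≤
      (K + 1) * (264 / Real.log G) * 12 * (∏ p ∈ P.filter (fun p => p ≤ w), (1 + lp p / 2)) *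
        ∏ p ∈ P.filter (fun p => w < p), (1 + lp p) := by
  classical
  set C3 := P.powerset.filter (fun s => (T1 < md s ∧ (md s : ℝ) ≤ T2 ∧ ∀ p ∈ s, ¬ (p : ℤ) ∣ c) ∧
      md (s.filter (fun p => p ≤ w)) ≤ S ∧ ∃ p ∈ s, G < p) with hC3
  have hC : ∀ s ∈ C3, s ⊆ P ∧ s.Nonempty ∧ G < s.sup id ∧ w < s.sup id ∧ (T1 < md s ∧ (md s : ℝ) ≤ T2 ∧
      ∀ p ∈ s, ¬ (p : ℤ) ∣ c) ∧ md (s.filter (fun p => p ≤ w)) ≤ S := by
    intro s hs
    rw [hC3, mem_filter, mem_powerset] at hs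
    obtain ⟨h1, h2, h3, p, hp, h4⟩ := hs
    have h5 : p ≤ s.sup id := le_sup (f := id) hp
    exact ⟨h1, ⟨p, hp⟩, by omega, by omega, h2, h3⟩
  set A1 := (P.filter (fun p => p ≤ w)).powerset.filter (fun s1 => md s1 ≤ S ∧ ∀ p ∈ s1, ¬ (p : ℤ) ∣ c) with hA1
  set A2 := (P.filter (fun p => w < p)).powerset with hA2
  set A3 := P.filter (fun p => G < p) with hA3
  have step1 : ∑ s ∈ C3, (md s : ℝ) * Gp s c ≤ ∑ s ∈ C3, Psi c (dec w s) := by
    apply sum_le_sum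
    intro s hs
    obtain ⟨h1, h2, h3, h4, _, _⟩ := hC s hs
    exact f_le_Psi (fun p hp => hP p (h1 hp)) c w h2 h4
  have step2 : ∑ s ∈ C3, Psi c (dec w s) ≤ ∑ y ∈ (A1 ×ˢ A2 ×ˢ A3).filter
      (fun y => T1 < (md y.1 : ℝ) * md y.2.1 * y.2.2 ∧ (md y.1 : ℝ) * md y.2.1 * y.2.2 ≤ T2), Psi c y := by
    rw [← sum_image (f := Psi c) (g := dec w) (fun s hs s' hs' h => by
      obtain ⟨_, h2, _, h4, _, _⟩ := hC s hs
      obtain ⟨_, h2', _, h4', _, _⟩ := hC s' hs'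
      exact dec_inj w h2 h2' h4 h4' h)]
    apply sum_le_sum_of_subset_of_nonneg
    · intro y hy
      rw [mem_image] at hy
      obtain ⟨s, hs, rfl⟩ := hy
      obtain ⟨h1, h2, h3, h4, h5, h6⟩ := hC s hs
      have hmd : (md s : ℝ) = (md (dec w s).1 : ℝ) * md (dec w s).2.1 * (dec w s).2.2 := by
        have := dec_md w h2 h4
        exact_mod_cast this
      rw [mem_filter, mem_product, mem_product]
      refine ⟨⟨?_, ?_, ?_⟩, ?_, ?_⟩
      · rw [hA1, mem_filter, mem_powerset]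
        refine ⟨filter_subset_filter _ h1, h6, ?_⟩
        intro p hp
        unfold dec at hp
        rw [mem_filter] at hp
        exact h5.2.2 p hp.1
      · rw [hA2, mem_powerset]
        exact (erase_subset _ _).trans (filter_subset_filter _ h1)
      · rw [hA3, mem_filter]
        exact ⟨h1 (sup_mem h2), h3⟩
      · rw [← hmd]; exact h5.1
      · rw [← hmd]; exact h5.2.1
    · intro y _ _
      exact Psi_nonneg c y
  have step3 : ∑ y ∈ (A1 ×ˢ A2 ×ˢ A3).filter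
      (fun y => T1 < (md y.1 : ℝ) * md y.2.1 * y.2.2 ∧ (md y.1 : ℝ) * md y.2.1 * y.2.2 ≤ T2), Psi c y =
      ∑ s1 ∈ A1, ∑ t ∈ A2, ∑ x ∈ A3.filter (fun x : ℕ => T1 < (md s1 : ℝ) * md t * x ∧ (md s1 : ℝ) * md t * x ≤ T2),
        Psi c (s1, t, x) := by
    rw [sum_filter, sum_product]
    apply sum_congr rfl
    intro s1 _
    rw [sum_product]
    apply sum_congr rfl
    intro t _
    exact (sum_filter _ _).symm
  have step4 : ∀ s1 ∈ A1, ∀ t ∈ A2,
      ∑ x ∈ A3.filter (fun x : ℕ => T1 < (md s1 : ℝ) * md t * x ∧ (md s1 : ℝ) * md t * x ≤ T2),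
        Psi c (s1, t, x) ≤ ((K + 1) * (264 / Real.log G) * 12) * ((∏ p ∈ s1, (lp p / 2)) * ∏ p ∈ t, lp p) := by
    intro s1 hs1 t ht
    rw [hA1, mem_filter, mem_powerset] at hs1
    rw [hA2, mem_powerset] at ht
    have hs1P : IsPr s1 := fun p hp => hP p (mem_filter.1 (hs1.1 hp)).1
    have htP : IsPr t := fun p hp => hP p (mem_filter.1 (ht hp)).1
    have hm1 : 0 < md s1 := prod_pos fun p hp => (hs1P p hp).1.pos
    have hm2 : 0 < md t := prod_pos fun p hp => (htP p hp).1.pos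
    have hM : (0 : ℝ) < (md s1 : ℝ) * md t := by exact_mod_cast Nat.mul_pos hm1 hm2
    have h := inner_sum hs1P c hs1.2.2 (md t) (by
        intro p hp hd
        unfold md at hd
        rw [Prime.dvd_finsetProd_iff (hs1P p hp).1.prime] at hd
        obtain ⟨r, hr, h2⟩ := hd
        have h3 := (Nat.prime_dvd_prime_iff_eq (hs1P p hp).1 (htP r hr).1).1 h2
        have h4 := (mem_filter.1 (hs1.1 hp)).2
        have h5 := (mem_filter.1 (ht hr)).2
        omega)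
      (A3.filter (fun x : ℕ => T1 < (md s1 : ℝ) * md t * x ∧ (md s1 : ℝ) * md t * x ≤ T2)) G K hG
      ((Nat.pow_le_pow_left hs1.2.1 2).trans hSG)
      (by
        intro x hx
        rw [mem_filter, hA3, mem_filter] at hx
        exact ⟨(hP x hx.1.1).1, hx.1.2⟩)
      (by
        intro x hx p hp hd
        rw [mem_filter, hA3, mem_filter] at hx
        have h3 := (Nat.prime_dvd_prime_iff_eq (hs1P p hp).1 (hP x hx.1.1).1).1 hd
        have h4 := (mem_filter.1 (hs1.1 hp)).2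
        have := hx.1.2
        omega)
      (by
        intro x hx x' hx'
        rw [mem_filter] at hx hx'
        have h1 : (md s1 : ℝ) * md t * x' ≤ (md s1 : ℝ) * md t * (2 ^ K * x) := by
          calc (md s1 : ℝ) * md t * x' ≤ T2 := hx'.2.2
            _ ≤ 2 ^ K * T1 := hT
            _ ≤ 2 ^ K * ((md s1 : ℝ) * md t * x) := mul_le_mul_of_nonneg_left hx.2.1.le (by positivity)
            _ = _ := by ring
        have h2 := le_of_mul_le_mul_left h1 hM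
        exact_mod_cast h2)
    have e1 : ∑ x ∈ A3.filter (fun x : ℕ => T1 < (md s1 : ℝ) * md t * x ∧ (md s1 : ℝ) * md t * x ≤ T2),
        Psi c (s1, t, x) = (∑ x ∈ A3.filter (fun x : ℕ => T1 < (md s1 : ℝ) * md t * x ∧ (md s1 : ℝ) * md t * x ≤ T2),
        (∏ p ∈ s1, ((p : ℝ) * (ph p ((c : ZMod p) * ((6 * ((md s1 / p) * md t * x) : ℕ) : ZMod p)⁻¹) /
      ((p : ℝ) - 2) ^ 2))) * (1 / (x : ℝ))) * (12 * ∏ p ∈ t, lp p) := by
      rw [sum_mul]
      rfl
    rw [e1]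
    have h3 : 0 ≤ 12 * ∏ p ∈ t, lp p := mul_nonneg (by norm_num) (prod_nonneg fun p _ => lp_nonneg p)
    refine (mul_le_mul_of_nonneg_right h h3).trans (le_of_eq ?_)
    ring
  have hlogG : 0 < Real.log G := Real.log_pos (by exact_mod_cast (by omega : 1 < G))
  calc ∑ s ∈ C3, (md s : ℝ) * Gp s c ≤ _ := step1
    _ ≤ _ := step2
    _ = _ := step3
    _ ≤ ∑ s1 ∈ A1, ∑ t ∈ A2, ((K + 1) * (264 / Real.log G) * 12) * ((∏ p ∈ s1, (lp p / 2)) * ∏ p ∈ t, lp p) :=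
      sum_le_sum fun s1 hs1 => sum_le_sum fun t ht => step4 s1 hs1 t ht
    _ = ((K + 1) * (264 / Real.log G) * 12) * ((∑ s1 ∈ A1, ∏ p ∈ s1, (lp p / 2)) * ∑ t ∈ A2, ∏ p ∈ t, lp p) := by
      rw [sum_mul_sum, mul_sum]
      apply sum_congr rfl
      intro s1 _
      rw [mul_sum]
    _ ≤ ((K + 1) * (264 / Real.log G) * 12) * ((∏ p ∈ P.filter (fun p => p ≤ w), (1 + lp p / 2)) *
        ∏ p ∈ P.filter (fun p => w < p), (1 + lp p)) := by
      apply mul_le_mul_of_nonneg_left _ (by positivity)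
      rw [hA2, sum_powerset]
      apply mul_le_mul_of_nonneg_right _ (prod_nonneg fun p _ => by have := lp_nonneg p; linarith)
      rw [← sum_powerset]
      apply sum_le_sum_of_subset_of_nonneg (filter_subset _ _)
      intro s1 _ _
      exact prod_nonneg fun p _ => by have := lp_nonneg p; linarith
    _ = _ := by ring

/-- the logarithmic average at one numerator -/
theorem L_bound (P : Finset ℕ) (hP : IsPr P) (c : ℤ) (w S G K : ℕ) (T1 T2 : ℝ) (hT1 : 0 < T1) (hS : 0 < S)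
    (hG : 2 ≤ G) (hwG : w ≤ G) (hSG : S ^ 2 ≤ G) (hT : T2 ≤ 2 ^ K * T1) {ε1 ε2 : ℝ} (h1 : 0 < ε1) (h2 : 0 < ε2)
    (hw1 : (w : ℝ) ^ ε1 ≤ 3) (hG1 : (G : ℝ) ^ ε2 ≤ 3) : by
    classical
    exact ∑ s ∈ P.powerset.filter (fun s => T1 < md s ∧ (md s : ℝ) ≤ T2 ∧ ∀ p ∈ s, ¬ (p : ℤ) ∣ c),
        (md s : ℝ) * Gp s c ≤
      ((S : ℝ) ^ (-ε1) + T1 ^ (-ε2)) * ∏ p ∈ P, (1 + 3 * lp p) +
      (K + 1) * (264 / Real.log G) * 12 * (∏ p ∈ P.filter (fun p => p ≤ w), (1 + lp p / 2)) *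
        ∏ p ∈ P.filter (fun p => w < p), (1 + lp p) := by
  classical
  set C := P.powerset.filter (fun s => T1 < md s ∧ (md s : ℝ) ≤ T2 ∧ ∀ p ∈ s, ¬ (p : ℤ) ∣ c) with hC
  have hf : ∀ s, 0 ≤ (md s : ℝ) * Gp s c := fun s => mul_nonneg (Nat.cast_nonneg _) (Gp_nonneg s c)
  have r1 := rankin P lp lp_nonneg (fun p => p ≤ w) (ε := ε1) (T := S) h1 (by exact_mod_cast hS)
    (fun p _ hp => (Real.rpow_le_rpow (Nat.cast_nonneg _) (by exact_mod_cast hp) h1.le).trans hw1)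
  have r2 := rankin P lp lp_nonneg (fun p => p ≤ G) (ε := ε2) (T := T1) h2 hT1
    (fun p _ hp => (Real.rpow_le_rpow (Nat.cast_nonneg _) (by exact_mod_cast hp) h2.le).trans hG1)
  have r3 := case_three P hP c w S G K T1 T2 hT1 hG hwG hSG hT
  have hsub : C ⊆ (P.powerset.filter (fun s => ((S : ℕ) : ℝ) < (md (s.filter (fun p => p ≤ w)) : ℝ)) ∪
      P.powerset.filter (fun s => T1 < (md (s.filter (fun p => p ≤ G)) : ℝ))) ∪
      P.powerset.filter (fun s => (T1 < md s ∧ (md s : ℝ) ≤ T2 ∧ ∀ p ∈ s, ¬ (p : ℤ) ∣ c) ∧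
      md (s.filter (fun p => p ≤ w)) ≤ S ∧ ∃ p ∈ s, G < p) := by
    intro s hs
    rw [hC, mem_filter] at hs
    rw [mem_union, mem_union, mem_filter, mem_filter, mem_filter]
    by_cases h3 : md (s.filter (fun p => p ≤ w)) ≤ S
    · by_cases h4 : ∃ p ∈ s, G < p
      · right; exact ⟨hs.1, hs.2, h3, h4⟩
      · left; right
        refine ⟨hs.1, ?_⟩
        push Not at h4
        rw [filter_true_of_mem h4]
        exact hs.2.1
    · left; left
      refine ⟨hs.1, ?_⟩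
      push Not at h3
      exact_mod_cast h3
  have hle : ∀ s, (md s : ℝ) * Gp s c ≤ ∏ p ∈ s, lp p := fun s => md_Gp s c
  refine (sum_le_sum_of_subset_of_nonneg hsub fun s _ _ => hf s).trans ?_
  have u1 : ∀ A B : Finset (Finset ℕ), ∑ s ∈ A ∪ B, (md s : ℝ) * Gp s c ≤
      ∑ s ∈ A, (md s : ℝ) * Gp s c + ∑ s ∈ B, (md s : ℝ) * Gp s c := by
    intro A B
    rw [← sum_union_inter]
    have : 0 ≤ ∑ s ∈ A ∩ B, (md s : ℝ) * Gp s c := sum_nonneg fun s _ => hf s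
    linarith
  have u2 := u1 (P.powerset.filter (fun s => ((S : ℕ) : ℝ) < (md (s.filter (fun p => p ≤ w)) : ℝ)) ∪
      P.powerset.filter (fun s => T1 < (md (s.filter (fun p => p ≤ G)) : ℝ)))
      (P.powerset.filter (fun s => (T1 < md s ∧ (md s : ℝ) ≤ T2 ∧ ∀ p ∈ s, ¬ (p : ℤ) ∣ c) ∧
      md (s.filter (fun p => p ≤ w)) ≤ S ∧ ∃ p ∈ s, G < p))
  have u3 := u1 (P.powerset.filter (fun s => ((S : ℕ) : ℝ) < (md (s.filter (fun p => p ≤ w)) : ℝ)))
      (P.powerset.filter (fun s => T1 < (md (s.filter (fun p => p ≤ G)) : ℝ)))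
  have u4 := sum_le_sum (s := P.powerset.filter (fun s => ((S : ℕ) : ℝ) < (md (s.filter (fun p => p ≤ w)) : ℝ)))
    (fun s _ => hle s)
  have u5 := sum_le_sum (s := P.powerset.filter (fun s => T1 < (md (s.filter (fun p => p ≤ G)) : ℝ)))
    (fun s _ => hle s)
  linarith

end Pool.Agent.K9h56.TC
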