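import Pool.Agent.K9h56.TC.Fou

set_option autoImplicit false
set_option linter.unusedSectionVars false
set_option linter.style.haveILetI false

/-! Fourier expansion of the products. -/

namespace Pool.Agent.K9h56.TC

open Finset Pool.Agent.K9h56.TB

/-- the product of the local correlations -/
noncomputable def cs (s : Finset ℕ) (k : ℕ) : ℝ := ∏ p ∈ s, cp p k

/-- the modulus -/
def md (s : Finset ℕ) : ℕ := ∏ p ∈ s, p

section one

variable {s : Finset ℕ} [∀ i : ↥s, NeZero (i : ℕ)]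

/-- the coefficient of a frequency -/
noncomputable def Gx (ξ : RR s) : ℝ := ∏ i : ↥s, gh (ξ i)

/-- the frequency as a complex number -/
noncomputable def zt (ξ : RR s) : ℂ := ∏ i : ↥s, (ZMod.stdAddChar (ξ i) : ℂ)

lemma Gx_nonneg (ξ : RR s) : 0 ≤ Gx ξ := prod_nonneg fun _ _ => gh_nonneg _

lemma zt_norm (ξ : RR s) : ‖zt ξ‖ = 1 := by
  unfold zt
  rw [norm_prod]
  exact prod_eq_one fun i _ => AddChar.norm_apply _ _

lemma cs_fourier (hs : IsPr s) (k : ℕ) :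
    (cs s k : ℂ) = ∑ ξ : RR s, (Gx ξ : ℂ) * zt ξ ^ k := by
  unfold cs
  rw [Complex.ofReal_prod, ← dl_eq' (fun p => ((cp p k : ℝ) : ℂ))]
  have h1 : ∀ i : ↥s, ((cp (i : ℕ) k : ℝ) : ℂ) =
      ∑ ξ : ZMod (i : ℕ), (gh ξ : ℂ) * ZMod.stdAddChar (ξ * ((k : ℕ) : ZMod (i : ℕ))) :=
    fun i => cp_fourier (hs i i.2).1 (hs i i.2).2 k
  rw [prod_congr rfl (fun i _ => h1 i)]
  rw [prod_univ_sum (fun i : ↥s => (univ : Finset (ZMod (i : ℕ))))
    (fun i ξ => (gh ξ : ℂ) * ZMod.stdAddChar (ξ * ((k : ℕ) : ZMod (i : ℕ)))), Fintype.piFinset_univ]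
  apply sum_congr rfl
  intro ξ _
  unfold Gx zt
  rw [prod_mul_distrib, Complex.ofReal_prod, ← prod_pow]
  congr 1
  apply prod_congr rfl
  intro i _
  rw [← AddChar.map_nsmul_eq_pow, nsmul_eq_mul, mul_comm]
where
  dl_eq' (f : ℕ → ℂ) : ∏ i : ↥s, f (i : ℕ) = ∏ p ∈ s, f p := prod_coe_sort s f

/-- the kernel -/
noncomputable def kap (θ : ℝ) (ζ : ℂ) : ℝ := θ * (θ - 2 * ζ.re) / (θ ^ 2 + 2 * (1 - θ) * (1 + ζ.re))

lemma Ts_eq (hs : IsPr s) {θ : ℝ} (h0 : 0 < θ) (h1 : θ < 1) :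
    Summable (fun k : ℕ => (-1 : ℝ) ^ (k + 1) * (1 - θ) ^ k * cs s (k + 1)) ∧
    2 * ∑' k : ℕ, (-1 : ℝ) ^ (k + 1) * (1 - θ) ^ k * cs s (k + 1) =
      - cs s 0 + ∑ ξ : RR s, Gx ξ * kap θ (zt ξ) := by
  have hsum : HasSum (fun k : ℕ => (((-1 : ℝ) ^ (k + 1) * (1 - θ) ^ k * cs s (k + 1) : ℝ) : ℂ))
      (∑ ξ : RR s, (Gx ξ : ℂ) * (-zt ξ / (1 + (1 - θ) * zt ξ))) := by
    have h2 : ∀ ξ : RR s, HasSum (fun k : ℕ => (Gx ξ : ℂ) * ((-1 : ℂ) ^ (k + 1) * (1 - θ) ^ k * zt ξ ^ (k + 1)))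
        ((Gx ξ : ℂ) * (-zt ξ / (1 + (1 - θ) * zt ξ))) :=
      fun ξ => (resolvent h0 h1 (zt ξ) (zt_norm ξ)).1.mul_left _
    have h3 := hasSum_sum (s := (univ : Finset (RR s))) (fun ξ _ => h2 ξ)
    refine h3.congr_fun ?_
    intro k
    push_cast
    rw [cs_fourier hs (k + 1), mul_sum]
    apply sum_congr rfl
    intro ξ _
    ring
  have hre := Complex.hasSum_re hsum
  simp only [Complex.ofReal_re] at hre
  refine ⟨hre.summable, ?_⟩
  rw [hre.tsum_eq, Complex.re_sum, mul_sum]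
  have h4 : ∀ ξ : RR s, 2 * ((Gx ξ : ℂ) * (-zt ξ / (1 + (1 - θ) * zt ξ))).re = - Gx ξ + Gx ξ * kap θ (zt ξ) := by
    intro ξ
    rw [Complex.re_ofReal_mul]
    have := (resolvent h0 h1 (zt ξ) (zt_norm ξ)).2
    unfold kap
    linear_combination (Gx ξ) * this
  rw [sum_congr rfl (fun ξ _ => h4 ξ), sum_add_distrib, sum_neg_distrib]
  congr 2
  have h5 := cs_fourier hs 0
  simp only [pow_zero, mul_one] at h5
  rw [← Complex.ofReal_sum] at h5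
  exact (Complex.ofReal_injective h5).symm

/-! ### The location of the frequencies -/

/-- the numerator -/
def AA (ξ : RR s) : ℕ := ∑ i : ↥s, (ξ i).val * (md s / (i : ℕ))

/-- the shifted numerator -/
def cc (ξ : RR s) : ℤ := 2 * ((AA ξ % md s : ℕ) : ℤ) - (md s : ℤ)

lemma md_pos (hs : IsPr s) : 0 < md s := prod_pos fun p hp => (hs p hp).1.pos

lemma md_odd (hs : IsPr s) : Odd (md s) := by
  unfold md
  apply prod_induction _ Odd
  · intro a b ha hb; exact ha.mul hb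
  · exact odd_one
  · intro p hp
    exact (hs p hp).1.odd_of_ne_two (by have := (hs p hp).2; omega)

lemma cc_odd (hs : IsPr s) (ξ : RR s) : Odd (cc ξ) := by
  unfold cc
  obtain ⟨k, hk⟩ := md_odd hs
  refine ⟨((AA ξ % md s : ℕ) : ℤ) - k - 1, ?_⟩
  have : (md s : ℤ) = 2 * k + 1 := by exact_mod_cast hk
  omega

lemma cc_bound (hs : IsPr s) (ξ : RR s) : |cc ξ| ≤ md s := by
  have h1 := Nat.mod_lt (AA ξ) (md_pos hs)
  unfold cc
  rw [abs_le]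
  constructor <;> omega

lemma zt_eq (hs : IsPr s) (ξ : RR s) :
    zt ξ = Complex.exp (2 * Real.pi * Complex.I * (AA ξ : ℂ) / (md s : ℂ)) := by
  unfold zt AA
  have h1 : ∀ i : ↥s, (ZMod.stdAddChar (ξ i) : ℂ) =
      Complex.exp (2 * Real.pi * Complex.I * (((ξ i).val * (md s / (i : ℕ)) : ℕ) : ℂ) / (md s : ℂ)) := by
    intro i
    rw [ZMod.stdAddChar_apply, ZMod.toCircle_apply]
    congr 1
    have hd : (i : ℕ) ∣ md s := dvd_prod_of_mem _ i.2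
    have hi : ((i : ℕ) : ℂ) ≠ 0 := by exact_mod_cast (hs i i.2).1.ne_zero
    have hm : (md s : ℂ) ≠ 0 := by exact_mod_cast (md_pos hs).ne'
    push_cast
    rw [Nat.cast_div hd hi]
    field_simp
  rw [prod_congr rfl (fun i _ => h1 i), ← Complex.exp_sum]
  congr 1
  push_cast
  rw [mul_sum, sum_div]

lemma cc_cast (ξ : RR s) : (cc ξ : ℝ) = 2 * ((AA ξ % md s : ℕ) : ℝ) - (md s : ℝ) := by
  unfold cc
  rw [Int.cast_sub, Int.cast_mul, Int.cast_natCast, Int.cast_natCast]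
  norm_num

lemma re_zt (hs : IsPr s) (ξ : RR s) : (zt ξ).re = - Real.cos (Real.pi * (cc ξ : ℝ) / (md s : ℝ)) := by
  rw [zt_eq hs]
  have hm : (md s : ℝ) ≠ 0 := by exact_mod_cast (md_pos hs).ne'
  have e1 : (2 * Real.pi * Complex.I * (AA ξ : ℂ) / (md s : ℂ)) =
      ((2 * Real.pi * (AA ξ : ℝ) / (md s : ℝ) : ℝ) : ℂ) * Complex.I := by
    push_cast; ring
  rw [e1, Complex.exp_ofReal_mul_I_re]
  have e2 : (AA ξ : ℝ) = ((AA ξ % md s : ℕ) : ℝ) + (md s : ℝ) * ((AA ξ / md s : ℕ) : ℝ) := by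
    exact_mod_cast (Nat.mod_add_div (AA ξ) (md s)).symm
  have e3 : 2 * Real.pi * (AA ξ : ℝ) / (md s : ℝ) =
      Real.pi * (cc ξ : ℝ) / (md s : ℝ) + Real.pi + ((AA ξ / md s : ℕ) : ℝ) * (2 * Real.pi) := by
    rw [e2, cc_cast]
    generalize ((AA ξ % md s : ℕ) : ℝ) = a
    generalize ((AA ξ / md s : ℕ) : ℝ) = b
    field_simp
    ring
  rw [e3, Real.cos_add_nat_mul_two_pi, Real.cos_add_pi]

lemma kap_den (hs : IsPr s) (ξ : RR s) : 2 * (cc ξ : ℝ) ^ 2 / (md s : ℝ) ^ 2 ≤ 1 + (zt ξ).re := by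
  rw [re_zt hs]
  have hm : (0 : ℝ) < md s := by exact_mod_cast md_pos hs
  have hb : |(cc ξ : ℝ)| ≤ md s := by exact_mod_cast cc_bound hs ξ
  have hx : |Real.pi * (cc ξ : ℝ) / (md s : ℝ)| ≤ Real.pi := by
    rw [abs_div, abs_mul, abs_of_pos Real.pi_pos, abs_of_pos hm, div_le_iff₀ hm]
    exact mul_le_mul_of_nonneg_left hb Real.pi_pos.le
  have h1 := Real.cos_le_one_sub_mul_cos_sq hx
  have h2 : 2 / Real.pi ^ 2 * (Real.pi * (cc ξ : ℝ) / (md s : ℝ)) ^ 2 = 2 * (cc ξ : ℝ) ^ 2 / (md s : ℝ) ^ 2 := by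
    have := Real.pi_ne_zero
    field_simp
  linarith

end one

end Pool.Agent.K9h56.TC
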