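import Mathlib

set_option autoImplicit false
set_option linter.unusedSectionVars false
set_option linter.style.haveILetI false

/-! The logarithmic divisor sum. -/

namespace Pool.Agent.K9h56.TC

open Finset Filter Topology

/-- harmonic sums -/
noncomputable def Hs (n : ℕ) : ℝ := ∑ k ∈ Ioc 0 n, 1 / (k : ℝ)

lemma Hs_nonneg (n : ℕ) : 0 ≤ Hs n := sum_nonneg fun _ _ => by positivity

lemma Hs_succ (n : ℕ) : Hs (n + 1) = Hs n + 1 / ((n + 1 : ℕ) : ℝ) := by
  unfold Hs
  rw [sum_Ioc_succ_top (Nat.zero_le n)]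

lemma Hs_ge (n : ℕ) : Real.log ((n : ℝ) + 1) ≤ Hs n := by
  induction n with
  | zero => unfold Hs; simp
  | succ n ih =>
    rw [Hs_succ]
    have h0 : (0 : ℝ) < (n : ℝ) + 1 := by positivity
    have h1 := Real.log_le_sub_one_of_pos (x := ((n : ℝ) + 1 + 1) / ((n : ℝ) + 1)) (by positivity)
    rw [Real.log_div (by positivity) (by positivity)] at h1
    have h2 : ((n : ℝ) + 1 + 1) / ((n : ℝ) + 1) - 1 = 1 / ((n : ℝ) + 1) := by
      field_simp; ring
    rw [h2] at h1
    push_cast
    linarith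

lemma Hs_le (n : ℕ) (hn : 1 ≤ n) : Hs n ≤ 1 + Real.log n := by
  induction n, hn using Nat.le_induction with
  | base => unfold Hs; simp
  | succ n hn ih =>
    rw [Hs_succ]
    have hn0 : (0 : ℝ) < n := by exact_mod_cast hn
    have h1 := Real.one_sub_inv_le_log_of_pos (x := ((n : ℝ) + 1) / n) (by positivity)
    rw [Real.log_div (by positivity) (by positivity)] at h1
    have h2 : 1 - (((n : ℝ) + 1) / n)⁻¹ = 1 / ((n : ℝ) + 1) := by
      field_simp
      ring
    rw [h2] at h1
    push_cast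
    linarith

/-- logarithmic sums -/
noncomputable def Ls (n : ℕ) : ℝ := ∑ k ∈ Ioc 0 n, Real.log k / (k : ℝ)

lemma Ls_bound (n : ℕ) (hn : 1 ≤ n) : |Ls n - (Real.log n) ^ 2 / 2| ≤ 2 * Hs n := by
  induction n, hn using Nat.le_induction with
  | base => unfold Ls Hs; simp
  | succ n hn ih =>
    have e : Ls (n + 1) = Ls n + Real.log ((n + 1 : ℕ) : ℝ) / ((n + 1 : ℕ) : ℝ) := by
      unfold Ls
      rw [sum_Ioc_succ_top (Nat.zero_le n)]
    rw [e, Hs_succ]
    have hn0 : (1 : ℝ) ≤ n := by exact_mod_cast hn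
    push_cast
    set a : ℝ := (n : ℝ) + 1 with ha
    have ha1 : 2 ≤ a := by linarith
    set d := Real.log a - Real.log n with hd
    have h1 := Real.one_sub_inv_le_log_of_pos (x := a / n) (by positivity)
    rw [Real.log_div (by positivity) (by positivity)] at h1
    have h2 := Real.log_le_sub_one_of_pos (x := a / n) (by positivity)
    rw [Real.log_div (by positivity) (by positivity)] at h2
    have h3 : 1 - (a / n)⁻¹ = 1 / a := by rw [ha]; field_simp; ring
    have h4 : a / n - 1 = 1 / (n : ℝ) := by rw [ha]; field_simp; ring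
    rw [h3, ← hd] at h1
    rw [h4, ← hd] at h2
    have hl0 : 0 ≤ Real.log a := Real.log_nonneg (by linarith)
    have hl1 : Real.log a ≤ n := by
      have := Real.log_le_sub_one_of_pos (x := a) (by linarith)
      linarith
    have key : |Real.log a / a - ((Real.log a) ^ 2 - (Real.log n) ^ 2) / 2| ≤ 2 * (1 / a) := by
      have e2 : ((Real.log a) ^ 2 - (Real.log n) ^ 2) / 2 = d * Real.log a - d ^ 2 / 2 := by
        rw [hd]; ring
      rw [e2]
      have h5 : 0 ≤ (d - 1 / a) * Real.log a := mul_nonneg (by linarith) hl0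
      have h6 : (d - 1 / a) * Real.log a ≤ 1 / a := by
        have h7 : d - 1 / a ≤ 1 / (n : ℝ) - 1 / a := by linarith
        have h8 : 1 / (n : ℝ) - 1 / a = 1 / (n * a) := by rw [ha]; field_simp; ring
        rw [h8] at h7
        calc (d - 1 / a) * Real.log a ≤ 1 / (n * a) * n := mul_le_mul h7 hl1 hl0 (by positivity)
          _ = 1 / a := by field_simp
      have hd0 : 0 ≤ d := le_trans (by positivity) h1
      have h9 : d ^ 2 / 2 ≤ 2 * (1 / a) := by
        have h10 : d ^ 2 ≤ (1 / (n : ℝ)) ^ 2 := pow_le_pow_left₀ hd0 h2 2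
        have h11 : (1 / (n : ℝ)) ^ 2 ≤ 2 * (1 / a) := by
          rw [div_pow, one_pow, mul_one_div, div_le_div_iff₀ (by positivity) (by linarith)]
          nlinarith
        linarith [show 0 ≤ 1 / a by positivity]
      have e3 : Real.log a / a = 1 / a * Real.log a := by ring
      rw [abs_le]
      constructor
      · rw [e3]; nlinarith [sq_nonneg d]
      · rw [e3]; nlinarith
    have e4 : Ls n + Real.log a / a - (Real.log a) ^ 2 / 2 = (Ls n - (Real.log n) ^ 2 / 2) +
        (Real.log a / a - ((Real.log a) ^ 2 - (Real.log n) ^ 2) / 2) := by ring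
    rw [e4]
    calc _ ≤ |Ls n - (Real.log n) ^ 2 / 2| + |Real.log a / a - ((Real.log a) ^ 2 - (Real.log n) ^ 2) / 2| :=
          abs_add_le _ _
      _ ≤ _ := by linarith

/-- the logarithmic divisor sum -/
noncomputable def Td (n : ℕ) : ℝ := ∑ a ∈ Ioc 0 n, 1 / (a : ℝ) * Hs (n / a)

lemma Td_zero : Td 0 = 0 := by unfold Td; simp

lemma Td_nonneg (n : ℕ) : 0 ≤ Td n := sum_nonneg fun a _ => mul_nonneg (by positivity) (Hs_nonneg _)

lemma Hs_div_le {n a : ℕ} (ha : a ∈ Ioc 0 n) : Hs (n / a) ≤ 1 + (Real.log n - Real.log a) := by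
  rw [mem_Ioc] at ha
  have h1 : 1 ≤ n / a := (Nat.one_le_div_iff ha.1).2 ha.2
  refine (Hs_le _ h1).trans ?_
  have ha0 : (0 : ℝ) < a := by exact_mod_cast ha.1
  have hn0 : (0 : ℝ) < n := by exact_mod_cast (by omega : 0 < n)
  rw [← Real.log_div hn0.ne' ha0.ne']
  have h2 : ((n / a : ℕ) : ℝ) ≤ (n : ℝ) / a := Nat.cast_div_le
  have h3 : (0 : ℝ) < ((n / a : ℕ) : ℝ) := by exact_mod_cast h1
  linarith [Real.log_le_log h3 h2]

lemma Hs_div_ge {n a : ℕ} (ha : a ∈ Ioc 0 n) : Real.log n - Real.log a ≤ Hs (n / a) := by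
  rw [mem_Ioc] at ha
  refine le_trans ?_ (Hs_ge _)
  have ha0 : (0 : ℝ) < a := by exact_mod_cast ha.1
  have hn0 : (0 : ℝ) < n := by exact_mod_cast (by omega : 0 < n)
  rw [← Real.log_div hn0.ne' ha0.ne']
  apply Real.log_le_log (by positivity)
  have h2 : n < a * (n / a + 1) := Nat.lt_mul_div_succ n ha.1
  have h3 : (n : ℝ) < a * (((n / a : ℕ) : ℝ) + 1) := by exact_mod_cast h2
  rw [div_le_iff₀ ha0]
  linarith

theorem Td_bound (n : ℕ) (hn : 1 ≤ n) : |Td n - (Real.log n) ^ 2 / 2| ≤ 5 * (1 + Real.log n) := by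
  have hl : 0 ≤ Real.log n := Real.log_natCast_nonneg n
  have h1 : Td n ≤ (1 + Real.log n) * Hs n - Ls n := by
    have : (1 + Real.log n) * Hs n - Ls n = ∑ a ∈ Ioc 0 n, 1 / (a : ℝ) * (1 + (Real.log n - Real.log a)) := by
      unfold Hs Ls
      rw [mul_sum, ← sum_sub_distrib]
      apply sum_congr rfl
      intro a _
      ring
    rw [this]
    apply sum_le_sum
    intro a ha
    exact mul_le_mul_of_nonneg_left (Hs_div_le ha) (by positivity)
  have h2 : Real.log n * Hs n - Ls n ≤ Td n := by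
    have : Real.log n * Hs n - Ls n = ∑ a ∈ Ioc 0 n, 1 / (a : ℝ) * (Real.log n - Real.log a) := by
      unfold Hs Ls
      rw [mul_sum, ← sum_sub_distrib]
      apply sum_congr rfl
      intro a _
      ring
    rw [this]
    apply sum_le_sum
    intro a ha
    exact mul_le_mul_of_nonneg_left (Hs_div_ge ha) (by positivity)
  have h3 := abs_le.1 (Ls_bound n hn)
  have h4 := Hs_le n hn
  have h5 : Real.log n ≤ Hs n := by
    refine le_trans ?_ (Hs_ge n)
    have : (0 : ℝ) < n := by exact_mod_cast hn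
    exact Real.log_le_log this (by linarith)
  rw [abs_le]
  constructor
  · nlinarith
  · nlinarith

lemma Td_le (n : ℕ) (hn : 1 ≤ n) : Td n ≤ 6 * (1 + Real.log n) ^ 2 := by
  have h1 := (abs_le.1 (Td_bound n hn)).2
  have hl : 0 ≤ Real.log n := Real.log_natCast_nonneg n
  nlinarith

theorem Td_tendsto : Tendsto (fun n : ℕ => Td n / (Real.log n) ^ 2) atTop (𝓝 (1 / 2)) := by
  have hlog : Tendsto (fun n : ℕ => Real.log n) atTop atTop := Real.tendsto_log_atTop.comp tendsto_natCast_atTop_atTop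
  have h1 : Tendsto (fun n : ℕ => 5 * (1 + Real.log n) / (Real.log n) ^ 2) atTop (𝓝 0) := by
    have h2 : Tendsto (fun x : ℝ => 5 * (1 + x) / x ^ 2) atTop (𝓝 0) := by
      have h3 : Tendsto (fun x : ℝ => 5 * (x⁻¹ ^ 2 + x⁻¹)) atTop (𝓝 (5 * (0 ^ 2 + 0))) :=
        ((tendsto_inv_atTop_zero.pow 2).add tendsto_inv_atTop_zero).const_mul 5
      norm_num at h3
      refine h3.congr' ?_
      filter_upwards [eventually_gt_atTop 0] with x hx
      field_simp
    exact h2.comp hlog
  have h2 : Tendsto (fun n : ℕ => Td n / (Real.log n) ^ 2 - 1 / 2) atTop (𝓝 0) := by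
    refine squeeze_zero_norm' ?_ h1
    filter_upwards [eventually_ge_atTop 2] with n hn
    have hl : 0 < Real.log n := Real.log_pos (by exact_mod_cast hn)
    have e : Td n / (Real.log n) ^ 2 - 1 / 2 = (Td n - (Real.log n) ^ 2 / 2) / (Real.log n) ^ 2 := by
      field_simp
    rw [e, norm_div, Real.norm_eq_abs, Real.norm_eq_abs, abs_of_pos (by positivity : 0 < (Real.log n) ^ 2)]
    exact div_le_div_of_nonneg_right (Td_bound n (by omega)) (by positivity)
  have h3 := h2.add_const (1 / 2)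
  simpa using h3

end Pool.Agent.K9h56.TC
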