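import Pool.Agent.K9h56.TC.Prd

set_option autoImplicit false
set_option linter.unusedSectionVars false
set_option linter.style.haveILetI false

/-! Bounds of the frequency sums. -/

namespace Pool.Agent.K9h56.TC

open Finset Pool.Agent.K9h56.TB

/-- the bound of the kernel -/
noncomputable def bk (θ : ℝ) (m : ℕ) (c : ℤ) : ℝ := min (2 * m / |(c : ℝ)|) (2 * θ * (m : ℝ) ^ 2 / (c : ℝ) ^ 2)

lemma bk_nonneg {θ : ℝ} (h0 : 0 ≤ θ) (m : ℕ) (c : ℤ) : 0 ≤ bk θ m c := by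
  unfold bk
  apply le_min <;> positivity

/-- the numerators of the frequencies -/
noncomputable def CC (s : Finset ℕ) : Finset ℤ := by
  classical
  exact (Icc (-(md s : ℤ)) (md s)).filter fun c => Odd c ∧ ∀ p ∈ s, ¬ (p : ℤ) ∣ c

lemma mem_CC {s : Finset ℕ} {c : ℤ} : c ∈ CC s ↔ |c| ≤ md s ∧ Odd c ∧ ∀ p ∈ s, ¬ (p : ℤ) ∣ c := by
  unfold CC
  rw [mem_filter, mem_Icc, abs_le]

section one

variable {s : Finset ℕ} [∀ i : ↥s, NeZero (i : ℕ)]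

/-- the coefficient at a numerator -/
noncomputable def Gc (s : Finset ℕ) [∀ i : ↥s, NeZero (i : ℕ)] (c : ℤ) : ℝ :=
  ∏ i : ↥s, (‖(1 : ℂ) + ZMod.stdAddChar ((c : ZMod (i : ℕ)) * ((6 * (md s / (i : ℕ)) : ℕ) : ZMod (i : ℕ))⁻¹)‖ ^ 2 /
    (((i : ℕ) : ℝ) - 2) ^ 2)

lemma Gc_nonneg (c : ℤ) : 0 ≤ Gc s c := prod_nonneg fun _ _ => by positivity

lemma md_div (hs : IsPr s) (i : ↥s) : md s / (i : ℕ) = ∏ p ∈ s.erase i, p := by
  unfold md
  rw [← mul_prod_erase s (fun p => p) i.2]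
  exact Nat.mul_div_cancel_left _ (hs i i.2).1.pos

lemma md_div_ne (hs : IsPr s) (i : ↥s) : ((md s / (i : ℕ) : ℕ) : ZMod (i : ℕ)) ≠ 0 := by
  rw [md_div hs]
  intro h
  rw [ZMod.natCast_eq_zero_iff] at h
  rw [Prime.dvd_finsetProd_iff (hs i i.2).1.prime] at h
  obtain ⟨p, hp, h2⟩ := h
  rw [mem_erase] at hp
  have := (Nat.prime_dvd_prime_iff_eq (hs i i.2).1 (hs p hp.2).1).1 h2
  exact hp.1 this.symm

lemma AA_cast (hs : IsPr s) (ξ : RR s) (i : ↥s) :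
    (AA ξ : ZMod (i : ℕ)) = ξ i * ((md s / (i : ℕ) : ℕ) : ZMod (i : ℕ)) := by
  unfold AA
  rw [Nat.cast_sum, sum_eq_single i]
  · rw [Nat.cast_mul, ZMod.natCast_val, ZMod.cast_id', id]
  · intro j _ hj
    rw [ZMod.natCast_eq_zero_iff]
    apply Dvd.dvd.mul_left
    rw [md_div hs]
    apply dvd_prod_of_mem (fun p => p)
    rw [mem_erase]
    exact ⟨fun h => hj (Subtype.ext h.symm), i.2⟩
  · intro h; exact absurd (mem_univ _) h

lemma cc_mod (hs : IsPr s) (ξ : RR s) (i : ↥s) :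
    ((cc ξ : ℤ) : ZMod (i : ℕ)) = 2 * (ξ i * ((md s / (i : ℕ) : ℕ) : ZMod (i : ℕ))) := by
  have hm : ((md s : ℕ) : ZMod (i : ℕ)) = 0 := by
    rw [ZMod.natCast_eq_zero_iff]
    exact dvd_prod_of_mem (fun p => p) i.2
  have h1 : ((AA ξ : ℕ) : ZMod (i : ℕ)) = ((AA ξ % md s : ℕ) : ZMod (i : ℕ)) := by
    conv_lhs => rw [← Nat.mod_add_div (AA ξ) (md s)]
    rw [Nat.cast_add, Nat.cast_mul, hm, zero_mul, add_zero]
  unfold cc
  rw [Int.cast_sub, Int.cast_mul, Int.cast_natCast, Int.cast_natCast, hm, ← h1, AA_cast hs]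
  push_cast
  ring

lemma two_ne {p : ℕ} (_hp : p.Prime) (h5 : 5 ≤ p) : (2 : ZMod p) ≠ 0 := by
  intro h3
  have h4 : ((2 : ℕ) : ZMod p) = 0 := by exact_mod_cast h3
  rw [ZMod.natCast_eq_zero_iff] at h4
  have := Nat.le_of_dvd (by norm_num) h4
  omega

lemma cc_inj (hs : IsPr s) : Function.Injective (cc : RR s → ℤ) := by
  intro ξ ξ' h
  funext i
  haveI := Fact.mk (hs i i.2).1
  have h1 := cc_mod hs ξ i
  rw [h, cc_mod hs ξ' i] at h1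
  have h2 := mul_left_cancel₀ (two_ne (hs i i.2).1 (hs i i.2).2) h1
  exact (mul_right_cancel₀ (md_div_ne hs i) h2).symm

lemma Gx_eq (hs : IsPr s) (ξ : RR s) (hξ : ∀ i, ξ i ≠ 0) : Gx ξ = Gc s (cc ξ) := by
  unfold Gx Gc
  apply prod_congr rfl
  intro i _
  haveI := Fact.mk (hs i i.2).1
  unfold gh
  rw [if_neg (hξ i)]
  congr 5
  rw [cc_mod hs ξ i]
  have h3 := three_inv (hs i i.2).1 (hs i i.2).2
  have h2 := two_ne (hs i i.2).1 (hs i i.2).2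
  have hm := md_div_ne hs i
  rw [Nat.cast_mul]
  set M : ZMod (i : ℕ) := ((md s / (i : ℕ) : ℕ) : ZMod (i : ℕ)) with hM
  have h6 : (((6 : ℕ) : ZMod (i : ℕ)) * M) ≠ 0 := by
    apply mul_ne_zero _ hm
    intro h
    have h7 : (2 : ZMod (i : ℕ)) * 3 = 0 := by
      have : (2 : ZMod (i : ℕ)) * 3 = ((6 : ℕ) : ZMod (i : ℕ)) := by norm_num
      rw [this]; exact h
    rcases mul_eq_zero.1 h7 with h8 | h8
    · exact h2 h8
    · rw [h8, zero_mul] at h3; exact zero_ne_one h3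
  rw [eq_mul_inv_iff_mul_eq₀ h6]
  push_cast
  linear_combination (2 * ξ i * M) * h3

lemma cc_mem (hs : IsPr s) (ξ : RR s) (hξ : ∀ i, ξ i ≠ 0) : cc ξ ∈ CC s := by
  rw [mem_CC]
  refine ⟨cc_bound hs ξ, cc_odd hs ξ, ?_⟩
  intro p hp hd
  have h1 := cc_mod hs ξ ⟨p, hp⟩
  haveI := Fact.mk (hs p hp).1
  have h2 : ((cc ξ : ℤ) : ZMod p) = 0 := by
    rw [ZMod.intCast_zmod_eq_zero_iff_dvd]; exact hd
  rw [h2] at h1
  rcases mul_eq_zero.1 h1.symm with h | h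
  · exact two_ne (hs p hp).1 (hs p hp).2 h
  · rcases mul_eq_zero.1 h with h | h
    · exact hξ ⟨p, hp⟩ h
    · exact md_div_ne hs ⟨p, hp⟩ h

lemma cc_ne {c : ℤ} (h : Odd c) : (c : ℝ) ≠ 0 := by
  intro h0
  have : c = 0 := by exact_mod_cast h0
  rw [this] at h
  exact absurd h (by decide)

lemma kap_le (hs : IsPr s) {θ : ℝ} (h0 : 0 < θ) (h1 : θ ≤ 1 / 2) (ξ : RR s) :
    kap θ (zt ξ) ≤ bk θ (md s) (cc ξ) := by
  have hm : (0 : ℝ) < md s := by exact_mod_cast md_pos hs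
  have hc := cc_ne (cc_odd hs ξ)
  have hc2 : 0 < (cc ξ : ℝ) ^ 2 := by positivity
  have hden := kap_den hs ξ
  have hre : -1 ≤ (zt ξ).re := by
    have := (abs_le.1 (Complex.abs_re_le_norm (zt ξ))).1
    rw [zt_norm] at this
    exact this
  set x := (cc ξ : ℝ) with hx
  set M : ℝ := (md s : ℝ) with hM
  have hD : θ ^ 2 + 2 * x ^ 2 / M ^ 2 ≤ θ ^ 2 + 2 * (1 - θ) * (1 + (zt ξ).re) := by
    have h3 : 0 ≤ 1 + (zt ξ).re := by linarith
    nlinarith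
  have hDpos : 0 < θ ^ 2 + 2 * x ^ 2 / M ^ 2 := by positivity
  have hk : kap θ (zt ξ) ≤ 3 * θ / (θ ^ 2 + 2 * x ^ 2 / M ^ 2) := by
    unfold kap
    have hnum : θ * (θ - 2 * (zt ξ).re) ≤ 3 * θ := by nlinarith
    calc θ * (θ - 2 * (zt ξ).re) / (θ ^ 2 + 2 * (1 - θ) * (1 + (zt ξ).re)) ≤
        3 * θ / (θ ^ 2 + 2 * (1 - θ) * (1 + (zt ξ).re)) :=
          div_le_div_of_nonneg_right hnum (hDpos.le.trans hD)
      _ ≤ _ := div_le_div_of_nonneg_left (by positivity) hDpos hD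
  refine hk.trans ?_
  unfold bk
  apply le_min
  · rw [div_le_div_iff₀ hDpos (abs_pos.2 hc)]
    have h4 : 2 * θ * |x| / M ≤ θ ^ 2 + 2 * x ^ 2 / M ^ 2 := by
      have h5 : 0 ≤ (θ - |x| / M) ^ 2 := sq_nonneg _
      have h6 : (|x| / M) ^ 2 = x ^ 2 / M ^ 2 := by rw [div_pow, sq_abs]
      have h7 : 0 ≤ x ^ 2 / M ^ 2 := by positivity
      have h8 : 2 * θ * |x| / M = 2 * θ * (|x| / M) := by ring
      have h9 : 2 * x ^ 2 / M ^ 2 = 2 * (x ^ 2 / M ^ 2) := by ring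
      rw [h8, h9]
      nlinarith
    calc 3 * θ * |x| ≤ 2 * M * (2 * θ * |x| / M) := by
          have : 2 * M * (2 * θ * |x| / M) = 4 * θ * |x| := by field_simp; ring
          rw [this]
          have : 0 ≤ θ * |x| := by positivity
          linarith
      _ ≤ _ := mul_le_mul_of_nonneg_left h4 (by positivity)
  · rw [div_le_div_iff₀ hDpos hc2]
    have h4 : 2 * θ * M ^ 2 * (θ ^ 2 + 2 * x ^ 2 / M ^ 2) = 2 * θ ^ 3 * M ^ 2 + 4 * θ * x ^ 2 := by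
      field_simp
      ring
    rw [h4]
    have h5 : 0 ≤ θ ^ 3 * M ^ 2 := by positivity
    have h6 : 0 ≤ θ * x ^ 2 := by positivity
    linarith

lemma kap_ge {θ : ℝ} (h0 : 0 < θ) (h1 : θ ≤ 1 / 2) (ξ : RR s) : -(2 * θ) ≤ kap θ (zt ξ) := by
  have hre := abs_le.1 (Complex.abs_re_le_norm (zt ξ))
  rw [zt_norm] at hre
  unfold kap
  have h2 : 0 ≤ 2 * (1 - θ) * (1 + (zt ξ).re) := by
    apply mul_nonneg <;> linarith [hre.1]
  have hD : 0 < θ ^ 2 + 2 * (1 - θ) * (1 + (zt ξ).re) := by positivity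
  rw [le_div_iff₀ hD]
  rcases le_or_gt (zt ξ).re 0 with h | h
  · have : 0 ≤ θ * (θ - 2 * (zt ξ).re) := mul_nonneg h0.le (by linarith)
    nlinarith
  · have h3 : 1 ≤ θ ^ 2 + 2 * (1 - θ) * (1 + (zt ξ).re) := by nlinarith
    have h4 : - (2 * θ) ≤ θ * (θ - 2 * (zt ξ).re) := by nlinarith [hre.2]
    nlinarith

theorem tiny_upper (hs : IsPr s) {θ : ℝ} (h0 : 0 < θ) (h1 : θ ≤ 1 / 2) :
    ∑ ξ : RR s, Gx ξ * kap θ (zt ξ) ≤ ∑ c ∈ CC s, Gc s c * bk θ (md s) c := by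
  classical
  have e1 : ∑ ξ : RR s, Gx ξ * kap θ (zt ξ) =
      ∑ ξ ∈ (univ : Finset (RR s)).filter (fun ξ => ∀ i, ξ i ≠ 0), Gx ξ * kap θ (zt ξ) := by
    symm
    apply sum_subset (filter_subset _ _)
    intro ξ _ hξ
    rw [mem_filter] at hξ
    push Not at hξ
    obtain ⟨i, hi⟩ := hξ (mem_univ _)
    have : Gx ξ = 0 := by
      unfold Gx
      apply prod_eq_zero (mem_univ i)
      unfold gh
      rw [if_pos hi]
    rw [this, zero_mul]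
  rw [e1]
  have e2 : ∑ ξ ∈ (univ : Finset (RR s)).filter (fun ξ => ∀ i, ξ i ≠ 0), Gx ξ * kap θ (zt ξ) ≤
      ∑ ξ ∈ (univ : Finset (RR s)).filter (fun ξ => ∀ i, ξ i ≠ 0), Gc s (cc ξ) * bk θ (md s) (cc ξ) := by
    apply sum_le_sum
    intro ξ hξ
    rw [mem_filter] at hξ
    rw [← Gx_eq hs ξ hξ.2]
    exact mul_le_mul_of_nonneg_left (kap_le hs h0 h1 ξ) (Gx_nonneg ξ)
  refine e2.trans ?_
  rw [← sum_image (f := fun c => Gc s c * bk θ (md s) c) (g := cc) (fun ξ _ ξ' _ h => cc_inj hs h)]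
  apply sum_le_sum_of_subset_of_nonneg
  · intro c hc
    rw [mem_image] at hc
    obtain ⟨ξ, hξ, rfl⟩ := hc
    rw [mem_filter] at hξ
    exact cc_mem hs ξ hξ.2
  · intro c _ _
    exact mul_nonneg (Gc_nonneg c) (bk_nonneg h0.le _ _)

theorem tiny_lower (hs : IsPr s) {θ : ℝ} (h0 : 0 < θ) (h1 : θ ≤ 1 / 2) :
    -(2 * θ * cs s 0) ≤ ∑ ξ : RR s, Gx ξ * kap θ (zt ξ) := by
  have h5 := cs_fourier hs 0
  simp only [pow_zero, mul_one] at h5
  rw [← Complex.ofReal_sum] at h5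
  have h6 : cs s 0 = ∑ ξ : RR s, Gx ξ := Complex.ofReal_injective h5
  rw [h6, mul_sum, ← sum_neg_distrib]
  apply sum_le_sum
  intro ξ _
  have := mul_le_mul_of_nonneg_left (kap_ge h0 h1 ξ) (Gx_nonneg ξ)
  linarith

end one

end Pool.Agent.K9h56.TC
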